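import Mathlib
import Pool.Agent.Lib.P0c8ca5.Reg
import Pool.Agent.Lib.P0c8ca5Q.DecA
import Pool.Agent.Lib.P0c8ca5Q.Sup
import Pool.Agent.Lib.P0c8ca5Y.SuppB

/-!
# Module UntA: the elements that act on a block of a normal subgroup as inner automorphisms

`UH N K c`: `N ≤ K` is normalized by `K` and `c` is a `K`-invariant block of `N`.
`UP N c x u v`: `u`, `v` are `N`-invariant elements of `k N x` and `k N x⁻¹` below `c`, inverse to each other.
`h.unt`: the subgroup of the elements `x` of `K` that have such a pair.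
-/

namespace Pool.Agent.Lib.P0c8ca5.Un8

open MonoidAlgebra Bq Ps

variable {p : ℕ} {k : Type*} [Field k] {A : Type*} [Group A]

/-- `N ≤ K` is normalized by `K` and `c` is a `K`-invariant block of `N` -/
structure UH (N K : Subgroup A) (c : MonoidAlgebra k A) : Prop where
  le : N ≤ K
  nm : K ≤ Subgroup.normalizer (N : Set A)
  blk : IsBlock N c
  inv : InvBy K c

/-- `u` is an `N`-invariant element of `k N x c` and `v` is its inverse -/
structure UP (N : Subgroup A) (c : MonoidAlgebra k A) (x : A) (u v : MonoidAlgebra k A) :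
    Prop where
  su : ∀ z, u.coeff z ≠ 0 → z * x⁻¹ ∈ N
  sv : ∀ z, v.coeff z ≠ 0 → z * x ∈ N
  iu : InvBy N u
  iv : InvBy N v
  uc : u * c = u
  vc : v * c = v
  uv : u * v = c
  vu : v * u = c

variable {N K : Subgroup A} {c : MonoidAlgebra k A}

theorem invMul {M : Subgroup A} {a b : MonoidAlgebra k A} (ha : InvBy M a)
    (hb : InvBy M b) : InvBy M (a * b) := by
  rw [invBy_iff_commute] at ha hb ⊢
  exact fun g hg => (ha g hg).mul_right (hb g hg)

theorem coset_mul {x y : A} (hx : x ∈ Subgroup.normalizer (N : Set A)) {u v : MonoidAlgebra k A}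
    (hu : ∀ z, u.coeff z ≠ 0 → z * x⁻¹ ∈ N) (hv : ∀ z, v.coeff z ≠ 0 → z * y⁻¹ ∈ N) :
    ∀ z, (u * v).coeff z ≠ 0 → z * (x * y)⁻¹ ∈ N := by
  intro z hz
  rw [coeff_mul_apply_left] at hz
  obtain ⟨w, -, hw⟩ := Finset.exists_ne_zero_of_sum_ne_zero hz
  have h1 := hu w (left_ne_zero_of_mul hw)
  have h2 := hv _ (right_ne_zero_of_mul hw)
  have h3 := (Subgroup.mem_normalizer_iff.1 hx _).1 h2
  have h4 := N.mul_mem (N.mul_mem h1 h3) (N.inv_mem h1)
  have h5 := N.mul_mem h4 h1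
  have e : w * x⁻¹ * (x * (w⁻¹ * z * y⁻¹) * x⁻¹) * (w * x⁻¹)⁻¹ * (w * x⁻¹) = z * (x * y)⁻¹ := by
    group
  rwa [e] at h5

/-- an element supported on a coset of `N` in `K` is supported in `K` -/
theorem coset_supp (hNK : N ≤ K) {x : A} (hx : x ∈ K) {u : MonoidAlgebra k A}
    (hu : ∀ z, u.coeff z ≠ 0 → z * x⁻¹ ∈ N) : SuppIn K u := by
  intro z hz
  have h := K.mul_mem (hNK (hu z hz)) hx
  rwa [inv_mul_cancel_right] at h

theorem UH.comm (h : UH N K c) {u : MonoidAlgebra k A} (hu : SuppIn K u) : u * c = c * u :=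
  commute_of hu h.inv

theorem UH.cc (h : UH N K c) : c * c = c := h.blk.idem

theorem UH.comm' (h : UH N K c) {u : MonoidAlgebra k A} (hu : InvBy N u) : u * c = c * u :=
  (commute_of h.blk.suppIn hu).symm

theorem UP.symm {x : A} {u v : MonoidAlgebra k A} (h : UP N c x u v) : UP N c x⁻¹ v u where
  su := fun z hz => by rw [inv_inv]; exact h.sv z hz
  sv := fun z hz => h.su z hz
  iu := h.iv
  iv := h.iu
  uc := h.vc
  vc := h.uc
  uv := h.vu
  vu := h.uv

theorem UP.congr {x y : A} (hxy : x * y⁻¹ ∈ N) (hy : y ∈ Subgroup.normalizer (N : Set A))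
    {u v : MonoidAlgebra k A} (h : UP N c x u v) : UP N c y u v where
  su := fun z hz => by
    have h1 := N.mul_mem (h.su z hz) hxy
    have e : z * x⁻¹ * (x * y⁻¹) = z * y⁻¹ := by group
    rwa [e] at h1
  sv := fun z hz => by
    have h1 := (Subgroup.mem_normalizer_iff.1 (inv_mem hy) _).1 (N.inv_mem hxy)
    have h2 := N.mul_mem (h.sv z hz) h1
    have e : z * x * (y⁻¹ * (x * y⁻¹)⁻¹ * y⁻¹⁻¹) = z * y := by group
    rwa [e] at h2
  iu := h.iu
  iv := h.iv
  uc := h.uc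
  vc := h.vc
  uv := h.uv
  vu := h.vu

theorem UP.mul (h : UH N K c) {x y : A} (hx : x ∈ K) (hy : y ∈ K) {u v u' v' : MonoidAlgebra k A}
    (h1 : UP N c x u v) (h2 : UP N c y u' v') : UP N c (x * y) (u * u') (v' * v) where
  su := coset_mul (h.nm hx) h1.su h2.su
  sv := by
    have h3 := coset_mul (h.nm (K.inv_mem hy)) h2.symm.su h1.symm.su
    intro z hz
    have h4 := h3 z hz
    have e : z * (y⁻¹ * x⁻¹)⁻¹ = z * (x * y) := by group
    rwa [e] at h4
  iu := invMul h1.iu h2.iu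
  iv := invMul h2.iv h1.iv
  uc := by rw [mul_assoc, h2.uc]
  vc := by rw [mul_assoc, h1.vc]
  uv := by
    have e : u * u' * (v' * v) = u * (u' * v') * v := by simp only [mul_assoc]
    rw [e, h2.uv, h1.uc, h1.uv]
  vu := by
    have e : v' * v * (u * u') = v' * (v * u) * u' := by simp only [mul_assoc]
    rw [e, h1.vu, h2.vc, h2.vu]

theorem UP.one (h : UH N K c) : UP N c 1 c c where
  su := fun z hz => by rw [inv_one, mul_one]; exact h.blk.suppIn z hz
  sv := fun z hz => by rw [mul_one]; exact h.blk.suppIn z hz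
  iu := h.blk.invBy
  iv := h.blk.invBy
  uc := h.cc
  vc := h.cc
  uv := h.cc
  vu := h.cc

theorem UP.cj (h : UH N K c) {g x : A} (hg : g ∈ K) {u v : MonoidAlgebra k A}
    (h1 : UP N c x u v) : UP N c (g * x * g⁻¹) (cj g u) (cj g v) := by
  have hc : P0c8ca5.cj g c = c := invBy_iff_cj.1 h.inv g hg
  refine ⟨fun z hz => ?_, fun z hz => ?_, h1.iu.cj (h.nm hg), h1.iv.cj (h.nm hg), ?_, ?_, ?_, ?_⟩
  · rw [coeff_cj] at hz
    have h2 := (Subgroup.mem_normalizer_iff.1 (h.nm hg) _).1 (h1.su _ hz)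
    have e : g * (g⁻¹ * z * g * x⁻¹) * g⁻¹ = z * (g * x * g⁻¹)⁻¹ := by group
    rwa [e] at h2
  · rw [coeff_cj] at hz
    have h2 := (Subgroup.mem_normalizer_iff.1 (h.nm hg) _).1 (h1.sv _ hz)
    have e : g * (g⁻¹ * z * g * x) * g⁻¹ = z * (g * x * g⁻¹) := by group
    rwa [e] at h2
  · nth_rw 1 [← hc]
    rw [← cj_mul, h1.uc]
  · nth_rw 1 [← hc]
    rw [← cj_mul, h1.vc]
  · rw [← cj_mul, h1.uv, hc]
  · rw [← cj_mul, h1.vu, hc]

/-- the subgroup of the elements of `K` with a unit -/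
def UH.unt (h : UH N K c) : Subgroup A where
  carrier := {x | x ∈ K ∧ ∃ u v, UP N c x u v}
  mul_mem' := by
    rintro x y ⟨hx, u, v, h1⟩ ⟨hy, u', v', h2⟩
    exact ⟨K.mul_mem hx hy, _, _, UP.mul h hx hy h1 h2⟩
  one_mem' := ⟨K.one_mem, _, _, UP.one h⟩
  inv_mem' := by
    rintro x ⟨hx, u, v, h1⟩
    exact ⟨K.inv_mem hx, _, _, h1.symm⟩

theorem UH.mem_unt (h : UH N K c) {x : A} : x ∈ h.unt ↔ x ∈ K ∧ ∃ u v, UP N c x u v := Iff.rfl

theorem UH.unt_le (h : UH N K c) : h.unt ≤ K := fun _ hx => hx.1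

theorem UH.le_unt (h : UH N K c) : N ≤ h.unt := by
  intro x hx
  have hxK := h.le hx
  refine h.mem_unt.2 ⟨hxK, c, c, ?_⟩
  have h1 := UP.one h
  refine UP.congr ?_ (h.nm hxK) h1
  rw [one_mul]
  exact N.inv_mem hx

theorem UH.norm_unt (h : UH N K c) : K ≤ Subgroup.normalizer (h.unt : Set A) := by
  intro g hg
  refine GqAux.nm_of (fun m hm => ?_) (fun m hm => ?_)
  · obtain ⟨hmK, u, v, h1⟩ := h.mem_unt.1 hm
    exact h.mem_unt.2 ⟨K.mul_mem (K.mul_mem hg hmK) (K.inv_mem hg), _, _, h1.cj h hg⟩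
  · obtain ⟨hmK, u, v, h1⟩ := h.mem_unt.1 hm
    have hg' := K.inv_mem hg
    have h2 := h1.cj h hg'
    rw [inv_inv] at h2
    exact h.mem_unt.2 ⟨K.mul_mem (K.mul_mem hg' hmK) hg, _, _, h2⟩

end Pool.Agent.Lib.P0c8ca5.Un8
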