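import Mathlib
import Pool.Agent.Lib.P0c8ca5U.UntA

/-!
# Module UntB: criteria for units and their Brauer images

* `UH.mem_of_mul`: if `u * v = c` with `u` in `(k N x)^N` and `v` in `(k K)^N` then `x` is in `h.unt`.
* `UH.nilp_of_not_mem`: for `x` not in `h.unt` the products `u * v * c`, `u` in `(k N x)^N` and `v` in `(k N x⁻¹)^N`, are nilpotent.
* `UH.exists_cent`, `UH.unt_eq`: `h.unt = N (h.unt ⊓ C(Q))` for every p-subgroup `Q` of `N` with `HasBr Q c`.
-/

namespace Pool.Agent.Lib.P0c8ca5.Un8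

open MonoidAlgebra Bq Ps

variable {p : ℕ} {k : Type*} [Field k] {A : Type*} [Group A]
variable {N K : Subgroup A} {c : MonoidAlgebra k A}

/-- the component of a product whose first factor is homogeneous -/
theorem resS_mul_hom [Fintype A] {x y : A} (hx : x ∈ Subgroup.normalizer (N : Set A))
    {u : MonoidAlgebra k A} (hu : ∀ z, u.coeff z ≠ 0 → z * x⁻¹ ∈ N) (v : MonoidAlgebra k A) :
    resS (cos N (x * y)) (u * v) = u * resS (cos N y) v := by
  ext z
  rw [coeff_mul_fin]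
  have key : ∀ w, u.coeff w ≠ 0 → (w⁻¹ * z ∈ cos N y ↔ z ∈ cos N (x * y)) := by
    intro w hw
    have h1 := hu w hw
    rw [mem_cos, mem_cos, Subgroup.mem_normalizer_iff.1 hx (w⁻¹ * z * y⁻¹)]
    have e : x * (w⁻¹ * z * y⁻¹) * x⁻¹ = (w * x⁻¹)⁻¹ * (z * (x * y)⁻¹) := by group
    rw [e]
    exact N.mul_mem_cancel_left (N.inv_mem h1)
  by_cases hz : z ∈ cos N (x * y)
  · rw [coeff_resS_of_mem _ hz, coeff_mul_fin]
    refine Finset.sum_congr rfl fun w _ => ?_
    by_cases hw : u.coeff w = 0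
    · rw [hw, zero_mul, zero_mul]
    · rw [coeff_resS_of_mem _ ((key w hw).2 hz)]
  · rw [coeff_resS_of_notMem _ hz]
    symm
    refine Finset.sum_eq_zero fun w _ => ?_
    by_cases hw : u.coeff w = 0
    · rw [hw, zero_mul]
    · rw [coeff_resS_of_notMem _ (fun hh => hz ((key w hw).1 hh)), mul_zero]

/-- the components of an invariant element are invariant -/
theorem inv_comp' {x : A} (hx : x ∈ Subgroup.normalizer (N : Set A)) {a : MonoidAlgebra k A}
    (ha : InvBy N a) : InvBy N (resS (cos N x) a) := by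
  intro n hn z
  have key : n * z * n⁻¹ ∈ cos N x ↔ z ∈ cos N x := by
    rw [mem_cos, mem_cos]
    have h1 := (Subgroup.mem_normalizer_iff.1 hx _).1 (N.inv_mem hn)
    have e : n * z * n⁻¹ * x⁻¹ = n * (z * x⁻¹) * (x * n⁻¹ * x⁻¹) := by group
    rw [e, N.mul_mem_cancel_right h1, N.mul_mem_cancel_left hn]
  by_cases hz : z ∈ cos N x
  · rw [coeff_resS_of_mem _ hz, coeff_resS_of_mem _ (key.2 hz), ha n hn]
  · rw [coeff_resS_of_notMem _ hz, coeff_resS_of_notMem _ (fun h => hz (key.1 h))]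

theorem supp_comp' {a : MonoidAlgebra k A} {x z : A}
    (h : (resS (cos N x) a).coeff z ≠ 0) : z * x⁻¹ ∈ N := by
  by_contra h'
  exact h (coeff_resS_of_notMem _ h')

theorem resS_self_cos {a : MonoidAlgebra k A} {x : A} (ha : ∀ z, a.coeff z ≠ 0 → z * x⁻¹ ∈ N) :
    resS (cos N x) a = a := by
  ext z
  by_cases hz : z ∈ cos N x
  · rw [coeff_resS_of_mem _ hz]
  · rw [coeff_resS_of_notMem _ hz]
    by_contra h
    exact hz (ha z (fun h0 => h h0.symm))

/-- a one-sided inverse of a homogeneous element is enough -/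
theorem UH.mem_of_mul [Fintype A] (h : UH N K c) {x : A} (hx : x ∈ K) {u v : MonoidAlgebra k A}
    (hu : ∀ z, u.coeff z ≠ 0 → z * x⁻¹ ∈ N) (hui : InvBy N u) (hvi : InvBy N v)
    (huv : u * v = c) : x ∈ h.unt := by
  have hxi := K.inv_mem hx
  have hc1 : ∀ z, c.coeff z ≠ 0 → z * (1 : A)⁻¹ ∈ N := fun z hz => by
    rw [inv_one, mul_one]
    exact h.blk.suppIn z hz
  obtain ⟨v₁, hv₁⟩ : ∃ v₁, v₁ = resS (cos N x⁻¹) v := ⟨_, rfl⟩
  have hv₁i : InvBy N v₁ := by rw [hv₁]; exact inv_comp' (h.nm hxi) hvi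
  have hv₁s : ∀ z, v₁.coeff z ≠ 0 → z * x⁻¹⁻¹ ∈ N := by
    intro z hz
    rw [hv₁] at hz
    exact supp_comp' hz
  have huv₁ : u * v₁ = c := by
    have h1 := resS_mul_hom (y := x⁻¹) (h.nm hx) hu v
    rw [mul_inv_cancel, huv, resS_self_cos hc1, ← hv₁] at h1
    exact h1.symm
  have hvc : v₁ * c = c * v₁ := h.comm' hv₁i
  have huc : u * c = c * u := h.comm' hui
  have hsu : ∀ z, (u * c).coeff z ≠ 0 → z * x⁻¹ ∈ N := by
    have h1 := coset_mul (h.nm hx) hu hc1
    rwa [mul_one] at h1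
  have hsv : ∀ z, (v₁ * c).coeff z ≠ 0 → z * x ∈ N := by
    have h1 := coset_mul (h.nm hxi) hv₁s hc1
    rwa [mul_one, inv_inv] at h1
  have e1 : u * c * (v₁ * c) = c := by
    calc u * c * (v₁ * c) = u * (c * v₁) * c := by simp only [mul_assoc]
      _ = u * v₁ * (c * c) := by rw [← hvc]; simp only [mul_assoc]
      _ = c := by rw [huv₁, h.cc, h.cc]
  obtain ⟨w, hw⟩ : ∃ w, w = v₁ * c * (u * c) := ⟨_, rfl⟩
  have hww : w * w = w := by
    calc w * w = v₁ * c * (u * c * (v₁ * c)) * (u * c) := by rw [hw]; simp only [mul_assoc]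
      _ = v₁ * (c * c) * (u * c) := by rw [e1]; simp only [mul_assoc]
      _ = w := by rw [h.cc, hw]
  have hwc : w * c = w := by
    rw [hw]
    calc v₁ * c * (u * c) * c = v₁ * c * (u * (c * c)) := by simp only [mul_assoc]
      _ = v₁ * c * (u * c) := by rw [h.cc]
  have hwf : w ∈ fixAlg k N N := by
    refine mem_fixAlg.2 ⟨fun z hz => ?_, ?_⟩
    · have h1 := coset_mul (x := x⁻¹) (y := x) (h.nm hxi) (u := v₁ * c) (v := u * c)
        (fun z hz => by rw [inv_inv]; exact hsv z hz) hsu z (by rw [← hw]; exact hz)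
      rwa [inv_mul_cancel, inv_one, mul_one] at h1
    · rw [hw]
      exact invMul (invMul hv₁i h.blk.invBy) (invMul hui h.blk.invBy)
  have hwe : w = c := by
    rcases h.blk.mul_eq hwf hww with h0 | h0
    · exfalso
      rw [hwc] at h0
      apply h.blk.ne_zero
      calc c = c * c := h.cc.symm
        _ = u * c * (v₁ * c) * (u * c * (v₁ * c)) := by rw [e1]
        _ = u * c * (v₁ * c * (u * c)) * (v₁ * c) := by simp only [mul_assoc]
        _ = 0 := by rw [← hw, h0, mul_zero, zero_mul]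
    · rwa [hwc] at h0
  exact h.mem_unt.2 ⟨hx, u * c, v₁ * c,
    { su := hsu
      sv := hsv
      iu := invMul hui h.blk.invBy
      iv := invMul hv₁i h.blk.invBy
      uc := by rw [mul_assoc, h.cc]
      vc := by rw [mul_assoc, h.cc]
      uv := e1
      vu := by rw [← hw, hwe] }⟩

theorem UH.nilp_or_unit [Fintype A] (h : UH N K c) {u : MonoidAlgebra k A}
    (hu : u ∈ fixAlg k N N) (huc : u * c = u) :
    IsNilpotent u ∨ ∃ u' ∈ fixAlg k N N, u' * c = u' ∧ u * u' = c := by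
  have : IsArtinianRing (fixAlg k N N) := IsArtinianRing.of_finite k _
  rcases h.blk.primIdem.nilp_or_unit (⟨u, hu⟩ : fixAlg k N N) with h1 | ⟨w, hw⟩
  · left
    obtain ⟨n, hn⟩ := h1
    refine ⟨n, ?_⟩
    have h1 := congrArg Subtype.val hn
    have h2 : (((⟨u, hu⟩ : fixAlg k N N) * ⟨c, h.blk.mem⟩ : fixAlg k N N) :
        MonoidAlgebra k A) = u := huc
    rw [SubmonoidClass.coe_pow, h2] at h1
    exact h1
  · right
    refine ⟨w.1 * c, (fixAlg k N N).mul_mem w.2 h.blk.mem, by rw [mul_assoc, h.cc], ?_⟩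
    have h1 := congrArg Subtype.val hw
    rw [← mul_assoc]
    exact h1

theorem UH.nilp_of_not_mem [Fintype A] (h : UH N K c) {x : A} (hx : x ∈ K) (hxM : x ∉ h.unt)
    {u v : MonoidAlgebra k A} (hu : ∀ z, u.coeff z ≠ 0 → z * x⁻¹ ∈ N) (hui : InvBy N u)
    (hv : ∀ z, v.coeff z ≠ 0 → z * x ∈ N) (hvi : InvBy N v) : IsNilpotent (u * v * c) := by
  have h1 : u * v * c ∈ fixAlg k N N := by
    refine (fixAlg k N N).mul_mem (mem_fixAlg.2 ⟨fun z hz => ?_, invMul hui hvi⟩) h.blk.mem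
    have h2 := coset_mul (y := x⁻¹) (h.nm hx) hu
      (fun z hz => by rw [inv_inv]; exact hv z hz) z hz
    rwa [mul_inv_cancel, inv_one, mul_one] at h2
  rcases h.nilp_or_unit h1 (by rw [mul_assoc, h.cc]) with h2 | ⟨u', hu', -, h3⟩
  · exact h2
  · exfalso
    apply hxM
    refine h.mem_of_mul hx hu hui (v := v * c * u')
      (invMul (invMul hvi h.blk.invBy) (mem_fixAlg.1 hu').2) ?_
    have e : u * (v * c * u') = u * v * c * u' := by simp only [mul_assoc]
    rw [e, h3]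

theorem UP.exists_cent [Fact p.Prime] [CharP k p] [Fintype A] {Q : Subgroup A}
    (hQ : Q ≤ N) (hp : IsPGroup p Q) (hbr : HasBr Q c) {x : A} {u v : MonoidAlgebra k A}
    (h : UP N c x u v) : ∃ y ∈ Subgroup.centralizer (Q : Set A), u.coeff y ≠ 0 := by
  have h1 := resS_mul hp (h.iu.mono hQ) (h.iv.mono hQ)
  rw [h.uv] at h1
  obtain ⟨z, hz, hcz⟩ := hbr
  by_contra hcon
  push Not at hcon
  have h3 : resS (Subgroup.centralizer (Q : Set A) : Set A) u = 0 := by
    ext y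
    by_cases hy : y ∈ (Subgroup.centralizer (Q : Set A) : Set A)
    · rw [coeff_resS_of_mem _ hy, hcon y hy]; rfl
    · rw [coeff_resS_of_notMem _ hy]; rfl
  rw [h3, zero_mul] at h1
  have h4 := congrArg (fun b : MonoidAlgebra k A => b.coeff z) h1
  change (resS _ c).coeff z = (0 : MonoidAlgebra k A).coeff z at h4
  rw [coeff_resS_of_mem _ hz] at h4
  exact hcz h4

theorem UH.exists_cent [Fact p.Prime] [CharP k p] [Fintype A] (h : UH N K c) {Q : Subgroup A}
    (hQ : Q ≤ N) (hp : IsPGroup p Q) (hbr : HasBr Q c) {x : A} (hx : x ∈ h.unt) :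
    ∃ y ∈ Subgroup.centralizer (Q : Set A), y * x⁻¹ ∈ N := by
  obtain ⟨-, u, v, h1⟩ := h.mem_unt.1 hx
  obtain ⟨y, hy, huy⟩ := h1.exists_cent hQ hp hbr
  exact ⟨y, hy, h1.su y huy⟩

/-- `M = N C_M(Q)` -/
theorem UH.unt_eq [Fact p.Prime] [CharP k p] [Fintype A] (h : UH N K c) {Q : Subgroup A}
    (hQ : Q ≤ N) (hp : IsPGroup p Q) (hbr : HasBr Q c) :
    h.unt = N ⊔ (h.unt ⊓ Subgroup.centralizer (Q : Set A)) := by
  apply le_antisymm
  · intro x hx
    obtain ⟨y, hy, hyx⟩ := h.exists_cent hQ hp hbr hx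
    have hyM : y ∈ h.unt := by
      have h1 := h.unt.mul_mem (h.le_unt hyx) hx
      rwa [inv_mul_cancel_right] at h1
    have e : x = (y * x⁻¹)⁻¹ * y := by group
    rw [e]
    exact Subgroup.mul_mem _ (Subgroup.mem_sup_left (N.inv_mem hyx))
      (Subgroup.mem_sup_right ⟨hyM, hy⟩)
  · exact sup_le h.le_unt inf_le_left

end Pool.Agent.Lib.P0c8ca5.Un8
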