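import Mathlib
import Pool.Agent.Lib.P0c8ca5U.UntB

/-!
# Module UntC: the support theorem

`UH.supp_unt`: a central idempotent `b` of `kK` with `b * c = b` is supported in `h.unt`.

PROOF of `UH.nilp`: as in Y/SuppB.  `a` in `Z(kK)` below `c` that vanishes on `h.unt` is nilpotent.  Otherwise `a` acts injectively on
`L = a ^ n₀ * kK`; there is `w₀ ≠ 0` in `L` killed by the nilpotent elements of `Z(kN)`; the components `a_x` of `a` keep this set and
for every such `w` some `a_x * w ≠ 0`, `x` not in `h.unt`.  Iterate; by the pigeonhole principle a partial product `u = a_x * v` has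
degree `1`, so it lies in `Z(kN) c` and is not nilpotent, so a unit, so `x` is in `h.unt` (`mem_of_mul`): a contradiction.
-/

namespace Pool.Agent.Lib.P0c8ca5.Un8

open MonoidAlgebra Bq Ps

variable {p : ℕ} {k : Type*} [Field k] {A : Type*} [Group A]
variable {N K : Subgroup A} {c : MonoidAlgebra k A}

open Classical in
/-- an element is the sum of its components -/
theorem sum_comp' [Fintype A] (N : Subgroup A) (a : MonoidAlgebra k A) :
    a = ∑ q : Quotient (QuotientGroup.rightRel N), resS (cos N q.out) a := by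
  ext z
  have key : ∀ q : Quotient (QuotientGroup.rightRel N),
      z ∈ cos N q.out ↔ (Quotient.mk (QuotientGroup.rightRel N) z) = q := by
    intro q
    rw [mem_cos]
    conv_rhs => rw [← Quotient.out_eq q]
    rw [Quotient.eq, QuotientGroup.rightRel_apply]
    constructor
    · intro h
      have h1 := N.inv_mem h
      have e : (z * q.out⁻¹)⁻¹ = q.out * z⁻¹ := by group
      rwa [e] at h1
    · intro h
      have h1 := N.inv_mem h
      have e : (q.out * z⁻¹)⁻¹ = z * q.out⁻¹ := by group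
      rwa [e] at h1
  rw [coeff_sum, Finsupp.finsetSum_apply,
    Finset.sum_eq_single (Quotient.mk (QuotientGroup.rightRel N) z)]
  · rw [coeff_resS_of_mem _ ((key _).2 rfl)]
  · intro q _ hq
    exact coeff_resS_of_notMem _ (fun h => hq ((key q).1 h).symm)
  · intro h; exact absurd (Finset.mem_univ _) h

theorem supp_pow' {M : Subgroup A} {a : MonoidAlgebra k A} (ha : SuppIn M a) (n : ℕ) :
    SuppIn M (a ^ n) := by
  induction n with
  | zero => rw [pow_zero]; exact (mem_fixAlg.1 (fixAlg k M M).one_mem).1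
  | succ n ih => rw [pow_succ]; exact ih.mul ha

theorem UH.nilp [Fintype A] (h : UH N K c) {a : MonoidAlgebra k A}
    (ha : a ∈ fixAlg k K K) (hac : a * c = a) (hsupp : ∀ x ∈ h.unt, a.coeff x = 0) :
    IsNilpotent a := by
  classical
  obtain ⟨has, hai⟩ := mem_fixAlg.1 ha
  by_contra hnil
  have hacomm : ∀ u : MonoidAlgebra k A, SuppIn K u → u * a = a * u := fun u hu =>
    commute_of hu hai
  obtain ⟨n₀, hn₀⟩ := Yy.SuppBAux.exists_stat a
  have hpc : ∀ u : MonoidAlgebra k A, SuppIn K u → u * a ^ n₀ = a ^ n₀ * u := by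
    intro u hu
    exact ((show Commute u a from hacomm u hu).pow_right n₀).eq
  let L : MonoidAlgebra k A → Prop := fun w => ∃ r, SuppIn K r ∧ w = a ^ n₀ * r
  have hLm : ∀ z w, SuppIn K z → L w → L (z * w) := by
    rintro z w hz ⟨r, hr, rfl⟩
    exact ⟨z * r, hz.mul hr, by rw [← mul_assoc, hpc z hz, mul_assoc]⟩
  obtain ⟨w₀, hw₀L, hw₀0, hw₀z⟩ := Yy.SuppBAux.exists_w (N := N) (L := L)
    (fun z hz w hw => hLm z w ((mem_fixAlg.1 hz).1.mono h.le) hw)
    (w₀ := a ^ n₀) ⟨1, (mem_fixAlg.1 (fixAlg k K K).one_mem).1, (mul_one _).symm⟩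
    (fun h => hnil ⟨n₀, h⟩)
  let W : Set (MonoidAlgebra k A) := {w | L w ∧ w ≠ 0 ∧
    ∀ z ∈ fixAlg k N N, IsNilpotent z → z * w = 0}
  have hstep : ∀ w ∈ W, ∃ x, x ∈ K ∧ x ∉ h.unt ∧ resS (cos N x) a * w ∈ W := by
    rintro w ⟨hwL, hw0, hwz⟩
    have h1 : a * w ≠ 0 := by
      intro h
      obtain ⟨r, -, rfl⟩ := hwL
      exact hw0 (hn₀ r h)
    have h2 : ∃ q : Quotient (QuotientGroup.rightRel N), resS (cos N q.out) a * w ≠ 0 := by
      by_contra hall
      push Not at hall
      apply h1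
      rw [sum_comp' N a, Finset.sum_mul]
      exact Finset.sum_eq_zero (fun q _ => hall q)
    obtain ⟨q, hq⟩ := h2
    have hxK : q.out ∈ K := by
      by_contra hx
      apply hq
      rw [BrNeAux.res_zero h.le has hx, zero_mul]
    refine ⟨q.out, hxK, ?_, ?_, hq, ?_⟩
    · intro hx
      apply hq
      have h3 : resS (cos N q.out) a = 0 := by
        ext z
        by_cases hz : z ∈ cos N q.out
        · rw [coeff_resS_of_mem _ hz]
          apply hsupp
          have h4 := h.unt.mul_mem (h.le_unt hz) hx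
          rwa [inv_mul_cancel_right] at h4
        · exact coeff_resS_of_notMem _ hz
      rw [h3, zero_mul]
    · exact hLm _ w (coset_supp h.le hxK (fun z hz => supp_comp' hz)) hwL
    · intro z hz hzn
      rw [← mul_assoc, commute_of (mem_fixAlg.1 hz).1
        (inv_comp' (h.nm hxK) (hai.mono h.le)), mul_assoc, hwz z hz hzn, mul_zero]
  choose! X hXK hX hX' using hstep
  let st : ℕ → MonoidAlgebra k A × A := fun n =>
    Nat.rec (w₀, 1) (fun _ s => (resS (cos N (X s.1)) a * s.1, X s.1 * s.2)) n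
  have st0 : st 0 = (w₀, 1) := rfl
  have sts : ∀ n, st (n + 1) = (resS (cos N (X (st n).1)) a * (st n).1, X (st n).1 * (st n).2) :=
    fun n => rfl
  have hW : ∀ n, (st n).1 ∈ W := by
    intro n
    induction n with
    | zero => exact ⟨hw₀L, hw₀0, hw₀z⟩
    | succ n ih => rw [sts]; exact hX' _ ih
  have hcc1 : SuppIn N c := h.blk.suppIn
  have hcx : ∀ x ∈ K, resS (cos N x) a * c = resS (cos N x) a := by
    intro x hx
    have h1 : resS (cos N x) a * c = c * resS (cos N x) a :=
      h.comm (coset_supp h.le hx (fun z hz => supp_comp' hz))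
    have h2 : c * a = a := by rw [← h.comm has, hac]
    rw [h1, ← resS_mul_cos hcc1 a x, h2]
  have key : ∀ i j, i ≤ j → ∃ u : MonoidAlgebra k A,
      (∀ z, u.coeff z ≠ 0 → z * ((st j).2 * ((st i).2)⁻¹)⁻¹ ∈ N) ∧ InvBy N u ∧
      (st j).1 = u * (st i).1 ∧ (i < j → u * c = u ∧ ∃ x v, x ∈ K ∧ x ∉ h.unt ∧ InvBy N v ∧
        u = resS (cos N x) a * v) := by
    intro i j hij
    induction j, hij using Nat.le_induction with
    | base =>
      refine ⟨1, fun z hz => ?_, Yy.SuppBAux.invOne, (one_mul _).symm,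
        fun h => absurd h (lt_irrefl _)⟩
      rw [mul_inv_cancel, inv_one, mul_one]
      exact Yy.SuppBAux.suppOne z hz
    | succ j hij ih =>
      obtain ⟨u, hu1, hu2, hu3, -⟩ := ih
      have hXj := hXK _ (hW j)
      refine ⟨resS (cos N (X (st j).1)) a * u, ?_, invMul (inv_comp' (h.nm hXj) (hai.mono h.le)) hu2,
        ?_, fun _ => ⟨?_, X (st j).1, u, hXj, hX _ (hW j), hu2, rfl⟩⟩
      · have h1 := coset_mul (h.nm hXj) (fun z hz => supp_comp' (a := a) hz) hu1
        rw [sts]
        rwa [← mul_assoc] at h1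
      · rw [sts, mul_assoc, ← hu3]
      · rw [mul_assoc, h.comm' hu2, ← mul_assoc, hcx _ hXj]
  obtain ⟨i', j', hne, heq⟩ := Finite.exists_ne_map_eq_of_infinite (fun n => (st n).2)
  obtain ⟨i, j, hij, hg⟩ : ∃ i j, i < j ∧ (st i).2 = (st j).2 := by
    rcases lt_or_gt_of_ne hne with h | h
    · exact ⟨i', j', h, heq⟩
    · exact ⟨j', i', h, heq.symm⟩
  obtain ⟨u, hu1, hu2, hu3, hu4⟩ := key i j hij.le
  obtain ⟨huc, x, v, hxK, hx, hv, huv⟩ := hu4 hij
  have hus : SuppIn N u := by
    intro z hz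
    have h1 := hu1 z hz
    rwa [hg, mul_inv_cancel, inv_one, mul_one] at h1
  have hum : u ∈ fixAlg k N N := mem_fixAlg.2 ⟨hus, hu2⟩
  rcases h.nilp_or_unit hum huc with h1 | ⟨u', hu', -, h1⟩
  · apply (hW j).2.1
    rw [hu3]
    exact (hW i).2.2 u hum h1
  · refine hx (h.mem_of_mul hxK (u := resS (cos N x) a) (v := v * u')
      (fun z hz => supp_comp' hz) (inv_comp' (h.nm hxK) (hai.mono h.le))
      (invMul hv (mem_fixAlg.1 hu').2) ?_)
    rw [← mul_assoc, ← huv, h1]

/-- the support theorem -/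
theorem UH.supp_unt [Fact p.Prime] [CharP k p] [Fintype A] (h : UH N K c)
    {b : MonoidAlgebra k A} (hb : b ∈ fixAlg k K K) (hbb : b * b = b) (hbc : b * c = b) :
    SuppIn h.unt b := by
  classical
  obtain ⟨hbs, hbi⟩ := mem_fixAlg.1 hb
  obtain ⟨b', hb'⟩ : ∃ b', b' = resS (h.unt : Set A) b := ⟨_, rfl⟩
  have hb's : SuppIn h.unt b' := by rw [hb']; exact resS_suppIn
  have hb'K : SuppIn K b' := hb's.mono h.unt_le
  have hb'i : InvBy K b' := by
    rw [hb']
    exact resS_invBy h.norm_unt hbi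
  have hcs : SuppIn h.unt c := h.blk.suppIn.mono h.le_unt
  have hcos : cos h.unt (1 : A) = (h.unt : Set A) := by
    ext z
    rw [mem_cos, inv_one, mul_one]
    exact Iff.rfl
  have hb'c : b' * c = b' := by
    have h1 := resS_mul_cos hcs b 1
    have h2 : c * b = b := by rw [← h.comm hbs, hbc]
    rw [hcos, h2, ← hb', ← h.comm hb'K] at h1
    exact h1.symm
  have ha : b - b' ∈ fixAlg k K K :=
    (fixAlg k K K).sub_mem hb (mem_fixAlg.2 ⟨hb'K, hb'i⟩)
  have hac : (b - b') * c = b - b' := by rw [sub_mul, hbc, hb'c]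
  have hsupp : ∀ x ∈ h.unt, (b - b').coeff x = 0 := by
    intro x hx
    rw [coeff_sub, Finsupp.sub_apply, hb', coeff_resS_of_mem _ hx, sub_self]
  obtain ⟨m, hm⟩ := h.nilp ha hac hsupp
  have hchar : CharP (MonoidAlgebra k A) p :=
    charP_of_injective_algebraMap (algebraMap k (MonoidAlgebra k A)).injective p
  have hp1 : 1 < p := (Fact.out : p.Prime).one_lt
  have h1 : (b - b') ^ p ^ m = 0 := by
    have h2 : m ≤ p ^ m := (Nat.lt_pow_self hp1).le
    obtain ⟨d, hd⟩ := Nat.exists_eq_add_of_le h2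
    rw [hd, pow_add, hm, zero_mul]
  have h2 : b ^ p ^ m = b := by
    have h3 : ∀ j : ℕ, b ^ (j + 1) = b := by
      intro j
      induction j with
      | zero => simp
      | succ j ih => rw [pow_succ, ih, hbb]
    obtain ⟨j, hj⟩ := Nat.exists_eq_succ_of_ne_zero (pow_ne_zero m (Fact.out : p.Prime).ne_zero)
    rw [hj]
    exact h3 j
  have hc' : Commute b b' := (commute_of hb'K hbi).symm
  rw [sub_pow_char_pow_of_commute _ _ hc', h2, sub_eq_zero] at h1
  rw [h1]
  exact supp_pow' hb's _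

end Pool.Agent.Lib.P0c8ca5.Un8
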