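import Mathlib
import Pool.Agent.Lib.P0c8ca5U.UntC

/-!
# Module UntD: Brauer subgroups in a factor, the normalizer of a factor

`V = E R` with `[E, R] = 1`, `E ⊓ R ≤ Z`, `Z` of order prime to `p`.
* `fac_elt`: an element `u` of order `p` of `V` has an `E`-part `f`, `f ^ p = 1`, with the same centralizer condition.
* `exists_fac_br`: a family of such factors with `⋂ R ≤ Z`: if `HasBr P c` for a nontrivial p-subgroup `P` of `V` then `HasBr Q c`
  for a nontrivial p-subgroup `Q` of some factor.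
* `UH.unt_le_normalizer`: `h.unt` normalizes the factor.
-/

namespace Pool.Agent.Lib.P0c8ca5.Un8

open MonoidAlgebra Bq Ps

variable {p : ℕ} {k : Type*} [Field k] {A : Type*} [Group A]

/-- `V = E R`, `[E, R] = 1`, `E ⊓ R ≤ Z` -/
structure Fac (V E R Z : Subgroup A) : Prop where
  leE : E ≤ V
  leR : R ≤ V
  mul : ∀ x ∈ V, ∃ e ∈ E, ∃ r ∈ R, x = e * r
  comm : ∀ e ∈ E, ∀ r ∈ R, e * r = r * e
  inf : E ⊓ R ≤ Z

theorem coprime_exp [Fact p.Prime] [Finite A] {Z : Subgroup A} (hZ : ¬ p ∣ Nat.card Z) :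
    ∃ n : ℕ, n % p = 1 % p ∧ ∀ z ∈ Z, z ^ n = 1 := by
  have hp : p.Prime := Fact.out
  have hc : Nat.Coprime (Nat.card Z) p := (Nat.Prime.coprime_iff_not_dvd hp).2 hZ |>.symm
  obtain ⟨j, hj⟩ := Nat.exists_mul_mod_eq_one_of_coprime hc hp.one_lt
  refine ⟨Nat.card Z * j, ?_, fun z hz => ?_⟩
  · rw [hj.2, Nat.mod_eq_of_lt hp.one_lt]
  · have h1 : (⟨z, hz⟩ : Z) ^ Nat.card Z = 1 := pow_card_eq_one'
    have h2 : z ^ Nat.card Z = 1 := congrArg Subtype.val h1
    rw [pow_mul, h2, one_pow]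

theorem pow_mod_one [Fact p.Prime] {u : A} (hu : u ^ p = 1) {n : ℕ} (hn : n % p = 1 % p) :
    u ^ n = u := by
  have h1 : u ^ n = u ^ (n % p) := by
    conv_lhs => rw [← Nat.div_add_mod n p, pow_add, pow_mul, hu, one_pow, one_mul]
  rw [h1, hn, Nat.mod_eq_of_lt (Fact.out : p.Prime).one_lt, pow_one]

/-- the `E`-part of an element of order `p` -/
theorem fac_elt [Fact p.Prime] [Finite A] {V E R Z : Subgroup A} (h : Fac V E R Z)
    (hZ : ¬ p ∣ Nat.card Z) {u : A} (hu : u ∈ V) (hup : u ^ p = 1) :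
    ∃ f ∈ E, f ^ p = 1 ∧ (f = 1 → u ∈ R) ∧ ∀ x ∈ V, x * u = u * x → x * f = f * x := by
  obtain ⟨e, he, r, hr, rfl⟩ := h.mul u hu
  obtain ⟨n, hn, hnZ⟩ := coprime_exp (A := A) hZ
  have hcer : Commute e r := h.comm e he r hr
  have h1 : e ^ p * r ^ p = 1 := by rw [← hcer.mul_pow, hup]
  have h2 : e ^ p ∈ Z := by
    refine h.inf ⟨E.pow_mem he p, ?_⟩
    rw [eq_inv_of_mul_eq_one_left h1]
    exact R.inv_mem (R.pow_mem hr p)
  have hf : (e ^ n) ^ p = 1 := by
    rw [← pow_mul, mul_comm, pow_mul]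
    exact hnZ _ h2
  have hur : e * r = e ^ n * r ^ n := by
    rw [← hcer.mul_pow]
    exact (pow_mod_one hup hn).symm
  refine ⟨e ^ n, E.pow_mem he n, hf, fun h3 => ?_, fun x hx hxu => ?_⟩
  · rw [hur, h3, one_mul]
    exact R.pow_mem hr n
  · obtain ⟨a, ha, b, hb, rfl⟩ := h.mul x hx
    have hfE := E.pow_mem he n
    have hgR := R.pow_mem hr n
    have hab := h.comm a ha b hb
    have hag := h.comm a ha _ hgR
    have hfb := h.comm _ hfE b hb
    have hfg := h.comm _ hfE _ hgR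
    rw [hur] at hxu
    clear hur
    generalize e ^ n = f at hfE hfb hfg hf hxu ⊢
    generalize r ^ n = g at hgR hag hfg hxu
    -- `a f a⁻¹ f⁻¹` lies in `E ⊓ R`
    have h4 : a * f * a⁻¹ * f⁻¹ = (b * g * b⁻¹ * g⁻¹)⁻¹ := by
      have e1 : a * b * (f * g) = (a * f) * (b * g) := by
        calc a * b * (f * g) = a * (b * f) * g := by group
          _ = a * (f * b) * g := by rw [hfb]
          _ = (a * f) * (b * g) := by group
      have e2 : f * g * (a * b) = (f * a) * (g * b) := by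
        calc f * g * (a * b) = f * (g * a) * b := by group
          _ = f * (a * g) * b := by rw [hag]
          _ = (f * a) * (g * b) := by group
      rw [e1, e2] at hxu
      have e3 : (f * a)⁻¹ * (a * f) = g * b * (b * g)⁻¹ := by
        rw [inv_mul_eq_iff_eq_mul, ← mul_assoc, eq_mul_inv_iff_mul_eq]
        exact hxu
      have e4 : a * f * a⁻¹ * f⁻¹ = (f * a) * ((f * a)⁻¹ * (a * f)) * (f * a)⁻¹ := by group
      have hGR : g * b * (b * g)⁻¹ ∈ R := R.mul_mem (R.mul_mem hgR hb) (R.inv_mem (R.mul_mem hb hgR))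
      have hFE : f * a ∈ E := E.mul_mem hfE ha
      have e5 := h.comm _ hFE _ hGR
      rw [e4, e3, e5, mul_inv_cancel_right]
      group
    have h5 : a * f * a⁻¹ * f⁻¹ ∈ Z := by
      refine h.inf ⟨E.mul_mem (E.mul_mem (E.mul_mem ha hfE) (E.inv_mem ha)) (E.inv_mem hfE), ?_⟩
      rw [h4]
      exact R.inv_mem (R.mul_mem (R.mul_mem (R.mul_mem hb hgR) (R.inv_mem hb)) (R.inv_mem hgR))
    have h6 : a * f * a⁻¹ * f⁻¹ ∈ R := by
      rw [h4]
      exact R.inv_mem (R.mul_mem (R.mul_mem (R.mul_mem hb hgR) (R.inv_mem hb)) (R.inv_mem hgR))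
    obtain ⟨z, hz⟩ : ∃ z, z = a * f * a⁻¹ * f⁻¹ := ⟨_, rfl⟩
    rw [← hz] at h5 h6
    have h7 : a * f * a⁻¹ = z * f := by rw [hz, inv_mul_cancel_right]
    have h8 : Commute z f := (h.comm f hfE z h6).symm
    have h9 : z ^ p = 1 := by
      have e1 : (a * f * a⁻¹) ^ p = 1 := by rw [conj_pow, hf, mul_one, mul_inv_cancel]
      rw [h7, h8.mul_pow, hf, mul_one] at e1
      exact e1
    have h10 : z = 1 := by
      rw [← pow_mod_one h9 hn]
      exact hnZ z h5
    have h11 : a * f = f * a := by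
      rw [h10, one_mul] at h7
      exact mul_inv_eq_iff_eq_mul.1 h7
    calc a * b * f = a * (b * f) := by group
      _ = a * (f * b) := by rw [hfb]
      _ = (a * f) * b := by group
      _ = f * a * b := by rw [h11]
      _ = f * (a * b) := by group

theorem HasBr.mono {P Q : Subgroup A} (hPQ : P ≤ Q) {c : MonoidAlgebra k A} (h : HasBr Q c) :
    HasBr P c := by
  obtain ⟨x, hx, hcx⟩ := h
  exact ⟨x, Subgroup.centralizer_le hPQ hx, hcx⟩

/-- a Brauer subgroup inside a factor -/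
theorem exists_fac_br [Fact p.Prime] [Finite A] {V Z : Subgroup A} {ι : Type*}
    {E R : ι → Subgroup A} (h : ∀ i, Fac V (E i) (R i) Z) (hZ : ¬ p ∣ Nat.card Z)
    (hR : ∀ u ∈ V, (∀ i, u ∈ R i) → u ∈ Z) {c : MonoidAlgebra k A} (hc : SuppIn V c)
    {P : Subgroup A} (hPV : P ≤ V) (hP : IsPGroup p P) (hne : P ≠ ⊥) (hbr : HasBr P c) :
    ∃ i, ∃ Q ≤ E i, IsPGroup p Q ∧ Q ≠ ⊥ ∧ HasBr Q c := by
  have hp : p.Prime := Fact.out
  have hnt : Nontrivial P := (Subgroup.nontrivial_iff_ne_bot P).2 hne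
  obtain ⟨m, hm, hcard⟩ := (IsPGroup.nontrivial_iff_card hP).1 hnt
  obtain ⟨u, hu⟩ := exists_prime_orderOf_dvd_card' (G := P) p
    (by rw [hcard]; exact dvd_pow_self p hm.ne')
  have hup : (u : A) ^ p = 1 := by
    have h1 : u ^ p = 1 := by rw [← hu]; exact pow_orderOf_eq_one u
    exact congrArg Subtype.val h1
  have hu1 : (u : A) ≠ 1 := by
    intro h1
    have h2 : u = 1 := Subtype.ext h1
    rw [h2, orderOf_one] at hu
    exact hp.one_lt.ne hu
  have huV : (u : A) ∈ V := hPV u.2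
  choose f hf using fun i => fac_elt (h i) hZ huV hup
  obtain ⟨i, hi⟩ : ∃ i, f i ≠ 1 := by
    by_contra hall
    push Not at hall
    have h1 : (u : A) ∈ Z := hR u huV (fun i => (hf i).2.2.1 (hall i))
    obtain ⟨n, hn, hnZ⟩ := coprime_exp (A := A) hZ
    apply hu1
    rw [← pow_mod_one hup hn]
    exact hnZ _ h1
  obtain ⟨x, hx, hcx⟩ := hbr
  have hxf : x * f i = f i * x := by
    refine (hf i).2.2.2 x (hc x hcx) ?_
    exact (Subgroup.mem_centralizer_iff.1 hx u u.2).symm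
  refine ⟨i, Subgroup.zpowers (f i), ?_, ?_, ?_, x, ?_, hcx⟩
  · rw [Subgroup.zpowers_le]; exact (hf i).1
  · apply IsPGroup.of_card (n := 1)
    rw [Nat.card_zpowers, pow_one]
    exact orderOf_eq_prime (hf i).2.1 hi
  · intro h1
    exact hi (Subgroup.zpowers_eq_bot.1 h1)
  · rw [Subgroup.mem_centralizer_iff]
    intro z hz
    obtain ⟨n, rfl⟩ := Subgroup.mem_zpowers_iff.1 hz
    have h2 : Commute (f i) x := hxf.symm
    exact (h2.zpow_left n).eq

variable {N K : Subgroup A} {c : MonoidAlgebra k A}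

/-- the elements with a unit normalize the factors with a Brauer subgroup -/
theorem UH.unt_le_normalizer [Fact p.Prime] [CharP k p] [Fintype A] (h : UH N K c)
    {E Q : Subgroup A} (hEN : E ≤ N) (hNE : N ≤ Subgroup.normalizer (E : Set A)) (hQE : Q ≤ E)
    (hQ : IsPGroup p Q) (hbr : HasBr Q c)
    (hE : ∀ g ∈ h.unt, g ∈ Subgroup.centralizer (Q : Set A) →
      g ∈ Subgroup.normalizer (E : Set A)) :
    h.unt ≤ Subgroup.normalizer (E : Set A) := by
  rw [h.unt_eq (hQE.trans hEN) hQ hbr]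
  exact sup_le hNE (fun g hg => hE g hg.1 hg.2)

end Pool.Agent.Lib.P0c8ca5.Un8
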