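import Mathlib
import Pool.Agent.Lib.P0c8ca5G.Defs

/-!
# Module DefW: the symbol relative to a unit

* `Omw N ρ x y e t`: `Y X = t ρ(e) X Y` for some intertwiners `X`, `Y` of `x`, `y`; here `e = [y, x] w` with an `N`-invariant unit `w`
  over `[y, x]⁻¹`, so that `e` is in `kN` although `[y, x]` need not be in `N`.
* `omw`, `omwX`: this scalar.
* `dlw p N D f x y w`: the value of the pair `(x, y)` on the level of `N`.
-/

set_option autoImplicit false

namespace Pool.Agent.Lib.P0c8ca5.Un8

open MonoidAlgebra Ps Bq Zz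

variable {p : ℕ} {k : Type*} [Field k] {A : Type*} [Group A]

/-- `Y X = t ρ(e) X Y` for some intertwiners `X`, `Y` of `x`, `y` -/
def Omw (N : Subgroup A) {V : Type*} [AddCommGroup V] [Module k V] (ρ : Representation k N V)
    (x y : A) (e : MonoidAlgebra k A) (t : k) : Prop :=
  ∃ (X Y : V ≃ₗ[k] V), Gg.Itw N ρ x X ∧ Gg.Itw N ρ y Y ∧ ∀ v, Y (X v) = t • act ρ e (X (Y v))

open Classical in
/-- the symbol of `x` and `y` relative to `e` -/
noncomputable def omw (N : Subgroup A) {V : Type*} [AddCommGroup V] [Module k V]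
    (ρ : Representation k N V) (x y : A) (e : MonoidAlgebra k A) : k :=
  if h : ∃ t : k, Omw N ρ x y e t then h.choose else 0

/-- the symbol for a class of irreducible representations -/
noncomputable def omwX (N : Subgroup A) (f : MonoidAlgebra k A) (c : IrX N f) (x y : A)
    (e : MonoidAlgebra k A) : k :=
  omw N (Quotient.out c).ρ x y e

open Classical in
/-- the value of the pair `(x, y)` on the level of `N`, relative to the unit `w` over `[y, x]⁻¹` -/
noncomputable def dlw (p : ℕ) [Fact p.Prime] [Fintype A] (N : Subgroup A)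
    (D : Finset (Subgroup A)) (f : MonoidAlgebra k A) (x y : A) (w : MonoidAlgebra k A) :
    WittVector p k :=
  ∑ σ ∈ (Ch D).filter (fun σ => x ∈ stab ⊤ σ ∧ y ∈ stab ⊤ σ),
    ((-1) ^ σ.card * ((stab N σ).relIndex N : ℤ)) •
      ∑ᶠ c : IrX (stab N σ) (cS (σ.sup id) f),
        WittVector.teichmuller p (omwX (stab N σ) (cS (σ.sup id) f) c x y
          (single (y * x * y⁻¹ * x⁻¹) 1 * cS (σ.sup id) w))

end Pool.Agent.Lib.P0c8ca5.Un8
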