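import Mathlib
import Pool.Agent.Lib.P0c8ca5R.CardDZ
import Pool.Agent.Lib.P0c8ca5R.PartD
import Pool.Agent.Lib.P0c8ca5G.Defs

/-!
# Module Kr: tensor products of operators on `n` copies of a space

`kr a B` is the operator `a ⊗ B` from `n` copies of `W` to `n'` copies of `W'`.
* `kr_comp`, `kr_one`, `kr_smul_left`, `kr_smul_right`, `kr_eq_zero`, `kr_right_inj`.
* `kr_cent`: a map `T` from `n` copies of `W` to `n` copies of `W'` that commutes with all `kr a 1` is `kr 1 B`.
* `kr_sub`: a subspace of `n` copies of `W` stable under all `kr a 1` is `n` copies of a subspace of `W`.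
* `exists_act`: density: for an irreducible representation every operator is the action of an element of the group
  algebra supported in the group.
-/

namespace Pool.Agent.Lib.P0c8ca5.Un8

open MonoidAlgebra Bq Ps

section kr

variable {k : Type*} [Field k] {n n' n'' : ℕ} {W W' W'' : Type*} [AddCommGroup W] [Module k W]
  [AddCommGroup W'] [Module k W'] [AddCommGroup W''] [Module k W'']

/-- the operator `a ⊗ B` -/
noncomputable def kr (a : (Fin n → k) →ₗ[k] (Fin n' → k)) (B : W →ₗ[k] W') :
    (Fin n → W) →ₗ[k] (Fin n' → W') where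
  toFun f := fun i => ∑ j, a (Pi.single j 1) i • B (f j)
  map_add' f g := by
    funext i
    simp only [Pi.add_apply, map_add, smul_add, Finset.sum_add_distrib]
  map_smul' c f := by
    funext i
    simp only [Pi.smul_apply, map_smul, RingHom.id_apply, Finset.smul_sum]
    exact Finset.sum_congr rfl fun j _ => smul_comm _ _ _

theorem kr_apply (a : (Fin n → k) →ₗ[k] (Fin n' → k)) (B : W →ₗ[k] W') (f : Fin n → W)
    (i : Fin n') : kr a B f i = ∑ j, a (Pi.single j 1) i • B (f j) := rfl

theorem lin_expand (a : (Fin n → k) →ₗ[k] (Fin n' → k)) (v : Fin n → k) (i : Fin n') :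
    a v i = ∑ j, v j * a (Pi.single j 1) i := by
  conv_lhs => rw [← Finset.univ_sum_single v, map_sum, Finset.sum_apply]
  refine Finset.sum_congr rfl fun j _ => ?_
  have h : (Pi.single j (v j) : Fin n → k) = v j • Pi.single j 1 := by
    rw [← Pi.single_smul, smul_eq_mul, mul_one]
  rw [h, map_smul, Pi.smul_apply, smul_eq_mul]

theorem kr_comp (a' : (Fin n' → k) →ₗ[k] (Fin n'' → k)) (B' : W' →ₗ[k] W'')
    (a : (Fin n → k) →ₗ[k] (Fin n' → k)) (B : W →ₗ[k] W') (f : Fin n → W) :
    kr a' B' (kr a B f) = kr (a' ∘ₗ a) (B' ∘ₗ B) f := by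
  funext i
  simp only [kr_apply, map_sum, map_smul, LinearMap.comp_apply, Finset.smul_sum, smul_smul]
  rw [Finset.sum_comm]
  refine Finset.sum_congr rfl fun j _ => ?_
  rw [← Finset.sum_smul]
  congr 1
  rw [lin_expand a' (a (Pi.single j 1)) i]
  exact Finset.sum_congr rfl fun l _ => mul_comm _ _

theorem kr_one (f : Fin n → W) : kr (1 : Module.End k (Fin n → k)) (1 : Module.End k W) f = f := by
  funext i
  rw [kr_apply, Finset.sum_eq_single i]
  · rw [Module.End.one_apply, Pi.single_eq_same, one_smul]; rfl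
  · intro j _ hj
    rw [Module.End.one_apply, Pi.single_eq_of_ne (Ne.symm hj), zero_smul]
  · intro h; exact absurd (Finset.mem_univ _) h

theorem kr_smul_left (s : k) (a : (Fin n → k) →ₗ[k] (Fin n' → k)) (B : W →ₗ[k] W') :
    kr (s • a) B = s • kr a B := by
  ext f i
  simp only [LinearMap.coe_comp, Function.comp_apply, LinearMap.coe_single, LinearMap.smul_apply,
    Pi.smul_apply, kr_apply, smul_eq_mul, mul_smul, Finset.smul_sum]

theorem kr_smul_right (s : k) (a : (Fin n → k) →ₗ[k] (Fin n' → k)) (B : W →ₗ[k] W') :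
    kr a (s • B) = s • kr a B := by
  ext f i
  simp only [LinearMap.coe_comp, Function.comp_apply, LinearMap.coe_single, LinearMap.smul_apply,
    Pi.smul_apply, kr_apply, Finset.smul_sum]
  exact Finset.sum_congr rfl fun j _ => smul_comm _ _ _

theorem kr_sub_right (a : (Fin n → k) →ₗ[k] (Fin n' → k)) (B B' : W →ₗ[k] W') :
    kr a (B - B') = kr a B - kr a B' := by
  ext f i
  simp only [LinearMap.coe_comp, Function.comp_apply, LinearMap.coe_single, LinearMap.sub_apply,
    Pi.sub_apply, kr_apply, smul_sub, Finset.sum_sub_distrib]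

theorem kr_single (a : (Fin n → k) →ₗ[k] (Fin n' → k)) (B : W →ₗ[k] W') (j : Fin n) (w : W)
    (i : Fin n') : kr a B (Pi.single j w) i = a (Pi.single j 1) i • B w := by
  rw [kr_apply, Finset.sum_eq_single j]
  · rw [Pi.single_eq_same]
  · intro l _ hl
    rw [Pi.single_eq_of_ne hl, map_zero, smul_zero]
  · intro h; exact absurd (Finset.mem_univ _) h

theorem kr_eq_zero {a : (Fin n → k) →ₗ[k] (Fin n' → k)} {B : W →ₗ[k] W'}
    (h : kr a B = 0) : a = 0 ∨ B = 0 := by
  by_cases hB : B = 0
  · exact Or.inr hB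
  · left
    obtain ⟨w, hw⟩ : ∃ w, B w ≠ 0 := by
      by_contra hall
      push Not at hall
      exact hB (LinearMap.ext hall)
    refine LinearMap.pi_ext' fun j => LinearMap.ext_ring ?_
    funext i
    have h1 := congrFun (LinearMap.congr_fun h (Pi.single j w)) i
    rw [kr_single] at h1
    change _ = (0 : W') at h1
    rcases smul_eq_zero.1 h1 with h2 | h2
    · exact h2
    · exact absurd h2 hw

theorem kr_right_inj {a : (Fin n → k) →ₗ[k] (Fin n' → k)} (ha : a ≠ 0) {B B' : W →ₗ[k] W'}
    (h : kr a B = kr a B') : B = B' := by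
  have h1 : kr a (B - B') = 0 := by rw [kr_sub_right, h, sub_self]
  rcases kr_eq_zero h1 with h2 | h2
  · exact absurd h2 ha
  · exact sub_eq_zero.1 h2

/-- the elementary operator -/
noncomputable def Ee (i j : Fin n) : Module.End k (Fin n → k) :=
  LinearMap.single k (fun _ => k) i ∘ₗ LinearMap.proj j

theorem kr_Ee (i j : Fin n) (f : Fin n → W) :
    kr (Ee (k := k) i j) (1 : Module.End k W) f = Pi.single i (f j) := by
  funext l
  rw [kr_apply, Finset.sum_eq_single j]
  · change (Pi.single i (Pi.single (M := fun _ : Fin n => k) j 1 j : k) : Fin n → k) l • f j = _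
    rw [Pi.single_eq_same]
    by_cases hl : l = i
    · subst hl
      rw [Pi.single_eq_same, Pi.single_eq_same, one_smul]
    · rw [Pi.single_eq_of_ne hl, Pi.single_eq_of_ne hl, zero_smul]
  · intro m _ hm
    change (Pi.single i (Pi.single (M := fun _ : Fin n => k) m 1 j : k) : Fin n → k) l • f m = _
    rw [Pi.single_eq_of_ne (Ne.symm hm), Pi.single_zero, Pi.zero_apply, zero_smul]
  · intro h; exact absurd (Finset.mem_univ _) h

/-- maps commuting with all `a ⊗ 1` -/
theorem kr_cent (T : (Fin n → W) →ₗ[k] (Fin n → W'))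
    (hT : ∀ (a : Module.End k (Fin n → k)) (f : Fin n → W),
      T (kr a (1 : Module.End k W) f) = kr a (1 : Module.End k W') (T f)) :
    ∃ B : W →ₗ[k] W', T = kr (1 : Module.End k (Fin n → k)) B := by
  rcases Nat.eq_zero_or_pos n with hn | hn
  · subst hn
    exact ⟨0, LinearMap.ext fun f => funext fun i => i.elim0⟩
  · obtain ⟨i₀, -⟩ : ∃ i₀ : Fin n, True := ⟨⟨0, hn⟩, trivial⟩
    refine ⟨LinearMap.proj i₀ ∘ₗ T ∘ₗ LinearMap.single k (fun _ => W) i₀, ?_⟩
    refine LinearMap.pi_ext' fun j => LinearMap.ext fun w => ?_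
    change T (Pi.single j w) = kr _ _ (Pi.single j w)
    have h1 : T (Pi.single j w) = Pi.single j (T (Pi.single i₀ w) i₀) := by
      have h2 := hT (Ee j i₀) (Pi.single i₀ w)
      rw [kr_Ee, kr_Ee, Pi.single_eq_same] at h2
      exact h2
    funext l
    rw [h1, kr_single]
    change _ = (Pi.single j 1 : Fin n → k) l • T (Pi.single i₀ w) i₀
    by_cases hl : l = j
    · subst hl
      rw [Pi.single_eq_same, Pi.single_eq_same, one_smul]
    · rw [Pi.single_eq_of_ne hl, Pi.single_eq_of_ne hl, zero_smul]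

/-- subspaces stable under all `a ⊗ 1` -/
theorem kr_sub (U : Submodule k (Fin n → W))
    (hU : ∀ (a : Module.End k (Fin n → k)), ∀ f ∈ U, kr a (1 : Module.End k W) f ∈ U) :
    ∃ W₀ : Submodule k W, ∀ f, f ∈ U ↔ ∀ i, f i ∈ W₀ := by
  rcases Nat.eq_zero_or_pos n with hn | hn
  · subst hn
    refine ⟨⊥, fun f => ⟨fun _ i => i.elim0, fun _ => ?_⟩⟩
    rw [Subsingleton.elim f 0]
    exact U.zero_mem
  · obtain ⟨i₀, -⟩ : ∃ i₀ : Fin n, True := ⟨⟨0, hn⟩, trivial⟩
    refine ⟨U.comap (LinearMap.single k (fun _ => W) i₀), fun f => ⟨fun hf i => ?_, fun hf => ?_⟩⟩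
    · have h1 := hU (Ee i₀ i) f hf
      rw [kr_Ee] at h1
      exact h1
    · rw [← Finset.univ_sum_single f]
      refine U.sum_mem fun i _ => ?_
      have h1 := hU (Ee i i₀) _ (hf i)
      rw [kr_Ee] at h1
      change Pi.single i ((Pi.single i₀ (f i) : Fin n → W) i₀) ∈ U at h1
      rwa [Pi.single_eq_same] at h1

end kr

section dens

variable {p : ℕ} {k : Type*} [Field k] {A : Type*} [Group A]

/-- density -/
theorem exists_act [IsAlgClosed k] [Finite A] {N : Subgroup A} {n : ℕ} {ρ : Rp k N n}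
    (hρ : Irr' ρ) (T : (Fin n → k) →ₗ[k] (Fin n → k)) :
    ∃ u : MonoidAlgebra k A, SuppIn N u ∧ act ρ u = T := by
  classical
  obtain ⟨a, -, ha⟩ := ChBAux.density (ι := Unit) (fun _ => n) (fun _ => ρ)
    (fun _ => irr_iff.2 hρ) (fun i j hij => absurd (Subsingleton.elim i j) hij) () T
  refine ⟨Rk.CardDZAux.up N a, Rk.CardDZAux.up_suppIn N a, ?_⟩
  rw [Rk.CardDZAux.act_up]
  exact ha

theorem act_add' [Finite A] {N : Subgroup A} {V : Type*} [AddCommGroup V] [Module k V]
    (ρ : Representation k N V) (a b : MonoidAlgebra k A) :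
    act ρ (a + b) = act ρ a + act ρ b := by
  have : Fintype N := Fintype.ofFinite N
  ext v
  rw [LinearMap.add_apply, act_apply, act_apply, act_apply, ← Finset.sum_add_distrib]
  refine Finset.sum_congr rfl (fun x _ => ?_)
  rw [coeff_add, Finsupp.add_apply, add_smul]

/-- a map that commutes with the group commutes with the group algebra -/
theorem act_hom [Finite A] {N : Subgroup A} {V V' : Type*} [AddCommGroup V] [Module k V]
    [AddCommGroup V'] [Module k V'] {ρ : Representation k N V} {ρ' : Representation k N V'}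
    {T : V →ₗ[k] V'} (hT : ∀ g v, T (ρ g v) = ρ' g (T v)) (u : MonoidAlgebra k A) (v : V) :
    T (act ρ u v) = act ρ' u (T v) := by
  have : Fintype N := Fintype.ofFinite N
  rw [act_apply, act_apply, map_sum]
  refine Finset.sum_congr rfl fun x _ => ?_
  rw [map_smul, hT]

end dens

end Pool.Agent.Lib.P0c8ca5.Un8
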