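import Mathlib
import Pool.Agent.Lib.P0c8ca5U.UntD
import Pool.Agent.Lib.P0c8ca5U.Kr
import Pool.Agent.Lib.P0c8ca5C.Ext

/-!
# Module CmA: residues of central elements and the induction principle for `(kM)^N`

* `QT p N Q T`: `Q ≤ N` is a p-group and `C(Q) ≤ T ≤ N(Q)` (`T` is the stabilizer of a chain with last member `Q`).
* `CR M N c φ`: `φ` is a simple module of the algebra `(kM)^N` on which `c` acts as `1`.
* `IsRes N c ζ s`: `(ζ - s c) c` is nilpotent; every `ζ ∈ Z(kN)` has a residue `s`, it acts as `s` on every `CR`, and `cS Q ζ` acts as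
  `s` on every irreducible representation of `N ⊓ T` in `cS Q c`.
* `UH.ind`: the elements of `(kM)^N c` are sums of elements `ζ * w` with `ζ ∈ Z(kN)` and `w` a unit over some `g ∈ M ⊓ T`.
-/

namespace Pool.Agent.Lib.P0c8ca5.Un8

open MonoidAlgebra Bq Ps

variable {p : ℕ} {k : Type*} [Field k] {A : Type*} [Group A]
variable {N K : Subgroup A} {c : MonoidAlgebra k A} {Q T : Subgroup A}

/-- `Q ≤ N` is a p-group and `C(Q) ≤ T ≤ N(Q)` -/
structure QT (p : ℕ) (N Q T : Subgroup A) : Prop where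
  QN : Q ≤ N
  pg : IsPGroup p Q
  cT : Subgroup.centralizer (Q : Set A) ≤ T
  nT : T ≤ Subgroup.normalizer (Q : Set A)

/-- a simple module of `(kM)^N` on which `c` acts as `1` -/
structure CR (M N : Subgroup A) (c : MonoidAlgebra k A) {W : Type*} [AddCommGroup W] [Module k W]
    (φ : MonoidAlgebra k A → Module.End k W) : Prop where
  mul : ∀ a ∈ fixAlg k M N, ∀ b ∈ fixAlg k M N, φ (a * b) = φ a * φ b
  add : ∀ a ∈ fixAlg k M N, ∀ b ∈ fixAlg k M N, φ (a + b) = φ a + φ b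
  smul : ∀ (s : k), ∀ a ∈ fixAlg k M N, φ (s • a) = s • φ a
  one : φ c = 1
  nontriv : Nontrivial W
  sub : ∀ U : Submodule k W, (∀ a ∈ fixAlg k M N, ∀ w ∈ U, φ a w ∈ U) → U = ⊥ ∨ U = ⊤

/-- `s` is the residue of `ζ` -/
def IsRes (c ζ : MonoidAlgebra k A) (s : k) : Prop := ∃ n : ℕ, (ζ * c - s • c) ^ (n + 1) = 0

section br

theorem cS_mul [Fact p.Prime] [CharP k p] [Finite A] (q : QT p N Q T) {a b : MonoidAlgebra k A}
    (ha : InvBy N a) (hb : InvBy N b) : cS Q (a * b) = cS Q a * cS Q b :=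
  resS_mul q.pg (ha.mono q.QN) (hb.mono q.QN)

theorem supp_cS (q : QT p N Q T) {X : Subgroup A} {a : MonoidAlgebra k A} (ha : SuppIn X a) :
    SuppIn (X ⊓ T) (cS Q a) := by
  intro z hz
  by_cases hzc : z ∈ (Subgroup.centralizer (Q : Set A) : Set A)
  · rw [coeff_resS_of_mem _ hzc] at hz
    exact ⟨ha z hz, q.cT hzc⟩
  · exact absurd (coeff_resS_of_notMem _ hzc) hz

theorem supp_cS_hom (q : QT p N Q T) {x : A} (hx : x ∈ T)
    {a : MonoidAlgebra k A} (ha : ∀ z, a.coeff z ≠ 0 → z * x⁻¹ ∈ N) :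
    ∀ z, (cS Q a).coeff z ≠ 0 → z * x⁻¹ ∈ N ⊓ T := by
  intro z hz
  by_cases hzc : z ∈ (Subgroup.centralizer (Q : Set A) : Set A)
  · rw [coeff_resS_of_mem _ hzc] at hz
    exact ⟨ha z hz, T.mul_mem (q.cT hzc) (T.inv_mem hx)⟩
  · exact absurd (coeff_resS_of_notMem _ hzc) hz

theorem cS_cj (q : QT p N Q T) {x : A} (hx : x ∈ T) (a : MonoidAlgebra k A) :
    cS Q (cj x a) = cj x (cS Q a) := br_cj (q.nT hx) a

theorem cS_inv (q : QT p N Q T) {a : MonoidAlgebra k A} (ha : InvBy N a) :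
    InvBy (N ⊓ T) (cS Q a) := by
  rw [invBy_iff_cj] at ha ⊢
  intro g hg
  rw [← cS_cj q hg.2, ha g hg.1]

/-- `cS Q a` commutes with `k (N ⊓ T)` -/
theorem cS_comm (q : QT p N Q T) {a : MonoidAlgebra k A} (ha : InvBy N a)
    {u : MonoidAlgebra k A} (hu : SuppIn (N ⊓ T) u) : u * cS Q a = cS Q a * u :=
  commute_of hu (cS_inv q ha)

end br

section res

theorem UH.exists_res [IsAlgClosed k] [Fintype A] (h : UH N K c) {ζ : MonoidAlgebra k A}
    (hζ : ζ ∈ fixAlg k N N) : ∃ s : k, IsRes c ζ s := by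
  have : IsArtinianRing (fixAlg k N N) := IsArtinianRing.of_finite k _
  obtain ⟨l, hl⟩ := h.blk.primIdem.exists_char (k := k)
  refine ⟨l ⟨ζ, hζ⟩, ?_⟩
  obtain ⟨x, hx⟩ : ∃ x : fixAlg k N N, x = ⟨ζ, hζ⟩ - algebraMap k _ (l ⟨ζ, hζ⟩) := ⟨_, rfl⟩
  have hlx : l x = 0 := by
    rw [hx, map_sub, AlgHom.commutes]
    exact sub_self _
  have hxc : ((x * ⟨c, h.blk.mem⟩ : fixAlg k N N) : MonoidAlgebra k A)
      = ζ * c - l ⟨ζ, hζ⟩ • c := by
    rw [hx, sub_mul]
    change ζ * c - (algebraMap k (MonoidAlgebra k A) (l ⟨ζ, hζ⟩)) * c = _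
    rw [← Algebra.smul_def]
  rcases h.blk.primIdem.nilp_or_unit x with ⟨n, hn⟩ | ⟨w, hw⟩
  · refine ⟨n, ?_⟩
    rw [← hxc, ← SubmonoidClass.coe_pow, pow_succ, hn, zero_mul]
    rfl
  · exfalso
    have h1 := congrArg l hw
    rw [map_mul, map_mul, hlx, zero_mul, zero_mul, hl] at h1
    exact zero_ne_one h1

theorem res_cj (h : UH N K c) {x : A} (hx : x ∈ K) {ζ : MonoidAlgebra k A} {s : k}
    (hs : IsRes c ζ s) : IsRes c (cj x ζ) s := by
  obtain ⟨n, hn⟩ := hs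
  have hc : cj x c = c := invBy_iff_cj.1 h.inv x hx
  refine ⟨n, ?_⟩
  have h1 : cj x ζ * c - s • c = cj x (ζ * c - s • c) := by
    rw [sub_eq_add_neg, sub_eq_add_neg, ← neg_smul, cj_add, cj_mul, cj_smul, hc, neg_smul]
  have h2 : ∀ (m : ℕ) (a : MonoidAlgebra k A), cj x a ^ (m + 1) = cj x (a ^ (m + 1)) := by
    intro m a
    induction m with
    | zero => rw [pow_one, pow_one]
    | succ m ih => rw [pow_succ, ih, pow_succ _ (m + 1), cj_mul]
  rw [h1, h2, hn, cj_zero]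

end res

section scal

variable {W : Type*} [AddCommGroup W] [Module k W] {φ : MonoidAlgebra k A → Module.End k W}
variable {M : Subgroup A}

theorem CR.pow (hφ : CR M N c φ) {a : MonoidAlgebra k A} (ha : a ∈ fixAlg k M N) (n : ℕ) :
    φ (a ^ (n + 1)) = φ a ^ (n + 1) := by
  induction n with
  | zero => rw [pow_one, pow_one]
  | succ n ih => rw [pow_succ, hφ.mul _ ((fixAlg k M N).pow_mem ha _) _ ha, ih, ← pow_succ]

/-- Schur -/
theorem CR.schur [IsAlgClosed k] [Module.Finite k W] (hφ : CR M N c φ) {T : Module.End k W}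
    (hT : ∀ a ∈ fixAlg k M N, ∀ w, T (φ a w) = φ a (T w)) : ∃ t : k, T = t • 1 := by
  have := hφ.nontriv
  obtain ⟨t, ht⟩ := Module.End.exists_eigenvalue T
  refine ⟨t, ?_⟩
  rcases hφ.sub (Module.End.eigenspace T t) (fun a ha w hw => by
    rw [Module.End.mem_eigenspace_iff] at hw ⊢
    rw [hT a ha, hw, map_smul]) with h | h
  · exact absurd h ht
  · ext w
    have h1 : w ∈ Module.End.eigenspace T t := by rw [h]; exact Submodule.mem_top
    rw [Module.End.mem_eigenspace_iff] at h1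
    rw [h1]
    rfl

theorem scalar_eq {V : Type*} [AddCommGroup V] [Module k V] [Nontrivial V] {t s : k} {n : ℕ}
    (h : ((t • 1 : Module.End k V) - s • 1) ^ (n + 1) = 0) : t = s := by
  rw [← sub_smul, smul_pow, one_pow] at h
  obtain ⟨v, hv⟩ := exists_ne (0 : V)
  have h1 := LinearMap.congr_fun h v
  change (t - s) ^ (n + 1) • v = 0 at h1
  rcases smul_eq_zero.1 h1 with h2 | h2
  · exact sub_eq_zero.1 (pow_eq_zero_iff (Nat.succ_ne_zero n) |>.1 h2)
  · exact absurd h2 hv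

theorem CR.phi_res [IsAlgClosed k] [Module.Finite k W] (h : UH N K c) (hφ : CR h.unt N c φ)
    {ζ : MonoidAlgebra k A} (hζ : ζ ∈ fixAlg k N N) {s : k} (hs : IsRes c ζ s) :
    φ ζ = s • 1 := by
  have := hφ.nontriv
  have hNM : ∀ {a : MonoidAlgebra k A}, a ∈ fixAlg k N N → a ∈ fixAlg k h.unt N := fun ha =>
    mem_fixAlg.2 ⟨(mem_fixAlg.1 ha).1.mono h.le_unt, (mem_fixAlg.1 ha).2⟩
  have hζM := hNM hζ
  have hcM := hNM h.blk.mem
  obtain ⟨t, ht⟩ := hφ.schur (T := φ ζ) (fun a ha w => by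
    rw [← Module.End.mul_apply, ← Module.End.mul_apply, ← hφ.mul _ hζM _ ha,
      ← hφ.mul _ ha _ hζM, commute_of (mem_fixAlg.1 hζ).1 (mem_fixAlg.1 ha).2])
  obtain ⟨n, hn⟩ := hs
  have h1 : φ (ζ * c - s • c) = t • 1 - s • 1 := by
    have e1 : ζ * c - s • c = ζ * c + (-s) • c := by rw [neg_smul, sub_eq_add_neg]
    rw [e1, hφ.add _ ((fixAlg k h.unt N).mul_mem hζM hcM) _ ((fixAlg k h.unt N).smul_mem hcM _),
      hφ.mul _ hζM _ hcM, hφ.smul _ _ hcM, hφ.one, mul_one, ht, neg_smul, sub_eq_add_neg]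
  have h2 : φ (0 : MonoidAlgebra k A) = 0 := by
    have h3 := hφ.smul 0 c hcM
    rwa [zero_smul, zero_smul] at h3
  have h3 := hφ.pow (a := ζ * c - s • c)
    ((fixAlg k h.unt N).sub_mem ((fixAlg k h.unt N).mul_mem hζM hcM)
      ((fixAlg k h.unt N).smul_mem hcM _)) n
  rw [hn, h2, h1] at h3
  rw [ht, scalar_eq h3.symm]

theorem act_pow' [Finite A] {N : Subgroup A} {V : Type*} [AddCommGroup V] [Module k V]
    (ρ : Representation k N V) {a : MonoidAlgebra k A} (ha : SuppIn N a) (n : ℕ) :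
    act ρ (a ^ (n + 1)) = act ρ a ^ (n + 1) := by
  induction n with
  | zero => rw [pow_one, pow_one]
  | succ n ih => rw [pow_succ, act_mul _ (supp_pow' ha _), ih, ← pow_succ]

theorem act_zero'' [Finite A] {N : Subgroup A} {V : Type*} [AddCommGroup V] [Module k V]
    (ρ : Representation k N V) : act ρ (0 : MonoidAlgebra k A) = 0 := by
  have : Fintype N := Fintype.ofFinite N
  ext v
  rw [act_apply]
  exact Finset.sum_eq_zero fun x _ => zero_smul _ _

theorem act_res [Fact p.Prime] [CharP k p] [IsAlgClosed k] [Fintype A] (h : UH N K c)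
    (q : QT p N Q T) {n : ℕ} {θ : Rp k (N ⊓ T) n} (hθ : Irr' θ) (hb : act θ (cS Q c) = 1)
    {ζ : MonoidAlgebra k A} (hζ : ζ ∈ fixAlg k N N) {s : k} (hs : IsRes c ζ s) :
    act θ (cS Q ζ) = s • 1 := by
  have := hθ.nontriv
  obtain ⟨hζs, hζi⟩ := mem_fixAlg.1 hζ
  obtain ⟨t, ht⟩ : ∃ t : k, act θ (cS Q ζ) = t • 1 := by
    obtain ⟨t, ht⟩ := Cy.ExtAux.schur_end hθ (act θ (cS Q ζ))
      (fun g v => act_comm θ (cS_inv q hζi) g v)
    exact ⟨t, LinearMap.ext ht⟩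
  obtain ⟨m, hm⟩ := hs
  have hcc : InvBy N c := h.blk.invBy
  have h1 : cS Q (ζ * c - s • c) = cS Q ζ * cS Q c - s • cS Q c := by
    rw [← cS_mul q hζi hcc, sub_eq_add_neg, ← neg_smul]
    change resS _ _ = _
    rw [resS_add, resS_smul, neg_smul, ← sub_eq_add_neg]
  have hs1 : SuppIn N (ζ * c - s • c) :=
    (mem_fixAlg.1 ((fixAlg k N N).sub_mem ((fixAlg k N N).mul_mem hζ h.blk.mem)
      ((fixAlg k N N).smul_mem h.blk.mem s))).1
  have hi1 : InvBy N (ζ * c - s • c) :=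
    (mem_fixAlg.1 ((fixAlg k N N).sub_mem ((fixAlg k N N).mul_mem hζ h.blk.mem)
      ((fixAlg k N N).smul_mem h.blk.mem s))).2
  have hpow : ∀ m : ℕ, cS Q ((ζ * c - s • c) ^ (m + 1)) = (cS Q (ζ * c - s • c)) ^ (m + 1) ∧
      InvBy N ((ζ * c - s • c) ^ (m + 1)) := by
    intro m
    induction m with
    | zero => rw [pow_one, pow_one]; exact ⟨rfl, hi1⟩
    | succ m ih =>
      rw [pow_succ, cS_mul q ih.2 hi1, ih.1, ← pow_succ]
      exact ⟨rfl, invMul ih.2 hi1⟩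
  have h2 := act_pow' θ (supp_cS q hs1) m
  have h3 : cS Q (0 : MonoidAlgebra k A) = 0 := resS_zero _
  rw [← (hpow m).1, hm, h3, act_zero''] at h2
  have h4 : act θ (cS Q (ζ * c - s • c)) = t • 1 - s • 1 := by
    have e1 : cS Q ζ * cS Q c - s • cS Q c = cS Q ζ * cS Q c + (-s) • cS Q c := by
      rw [neg_smul, sub_eq_add_neg]
    rw [h1, e1, act_add', act_mul _ (supp_cS q hζs), LnBAux.act_smul', ht, hb, mul_one]
    ext v
    simp [sub_eq_add_neg]
  rw [h4] at h2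
  rw [ht, scalar_eq h2.symm]

end scal

section ind

theorem UH.exists_T [Fact p.Prime] [CharP k p] [Fintype A] (h : UH N K c) (q : QT p N Q T)
    (hbr : HasBr Q c) {x : A} (hx : x ∈ h.unt) : ∃ y ∈ h.unt ⊓ T, x * y⁻¹ ∈ N := by
  obtain ⟨y, hy, hyx⟩ := h.exists_cent q.QN q.pg hbr hx
  refine ⟨y, ⟨?_, q.cT hy⟩, ?_⟩
  · have h1 := h.unt.mul_mem (h.le_unt hyx) hx
    rwa [inv_mul_cancel_right] at h1
  · have h1 := N.inv_mem hyx
    have e : (y * x⁻¹)⁻¹ = x * y⁻¹ := by group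
    rwa [e] at h1

/-- the induction principle -/
theorem UH.ind [Fact p.Prime] [CharP k p] [Fintype A] (h : UH N K c) (q : QT p N Q T)
    (hbr : HasBr Q c) (P : MonoidAlgebra k A → Prop) (h0 : P 0)
    (hadd : ∀ a ∈ fixAlg k h.unt N, ∀ b ∈ fixAlg k h.unt N, P a → P b → P (a + b))
    (hun : ∀ ζ ∈ fixAlg k N N, ∀ g ∈ h.unt ⊓ T, ∀ w v, UP N c g w v → P (ζ * w)) :
    ∀ a ∈ fixAlg k h.unt N, P (a * c) := by
  classical
  intro a ha
  obtain ⟨has, hai⟩ := mem_fixAlg.1 ha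
  have key : ∀ q' : Quotient (QuotientGroup.rightRel N),
      resS (cos N q'.out) a * c ∈ fixAlg k h.unt N ∧ P (resS (cos N q'.out) a * c) := by
    intro q'
    by_cases hx : q'.out ∈ h.unt
    · obtain ⟨y, hy, hyx⟩ := h.exists_T q hbr hx
      obtain ⟨hxK, w, v, hwv⟩ := h.mem_unt.1 hx
      have hcomp : ∀ z, (resS (cos N q'.out) a).coeff z ≠ 0 → z * (q'.out)⁻¹ ∈ N :=
        fun z hz => supp_comp' hz
      have hci := inv_comp' (h.nm hxK) hai
      have hζ : resS (cos N q'.out) a * v ∈ fixAlg k N N := by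
        refine mem_fixAlg.2 ⟨fun z hz => ?_, invMul hci hwv.iv⟩
        have h1 := coset_mul (y := (q'.out)⁻¹) (h.nm hxK) hcomp
          (fun z hz => by rw [inv_inv]; exact hwv.sv z hz) z hz
        rwa [mul_inv_cancel, inv_one, mul_one] at h1
      have h2 : resS (cos N q'.out) a * c = resS (cos N q'.out) a * v * w := by
        rw [mul_assoc, hwv.vu]
      have h3 : UP N c y w v := hwv.congr hyx (h.nm (h.unt_le hy.1))
      refine ⟨(fixAlg k h.unt N).mul_mem (mem_fixAlg.2 ⟨?_, hci⟩)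
        (mem_fixAlg.2 ⟨h.blk.suppIn.mono h.le_unt, h.blk.invBy⟩), ?_⟩
      · exact coset_supp h.le_unt hx hcomp
      · rw [h2]
        exact hun _ hζ y hy w v h3
    · rw [BrNeAux.res_zero h.le_unt has hx, zero_mul]
      exact ⟨(fixAlg k h.unt N).zero_mem, h0⟩
  have hsum : ∀ s : Finset (Quotient (QuotientGroup.rightRel N)),
      (∑ q' ∈ s, resS (cos N q'.out) a * c) ∈ fixAlg k h.unt N ∧
      P (∑ q' ∈ s, resS (cos N q'.out) a * c) := by
    intro s
    induction s using Finset.induction_on with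
    | empty => rw [Finset.sum_empty]; exact ⟨(fixAlg k h.unt N).zero_mem, h0⟩
    | insert q' s hq' ih =>
      rw [Finset.sum_insert hq']
      exact ⟨(fixAlg k h.unt N).add_mem (key q').1 ih.1,
        hadd _ (key q').1 _ ih.1 (key q').2 ih.2⟩
  have h1 := sum_comp' N a
  have h2 : a * c = ∑ q' : Quotient (QuotientGroup.rightRel N), resS (cos N q'.out) a * c := by
    conv_lhs => rw [h1]
    rw [Finset.sum_mul]
  rw [h2]
  exact (hsum _).2

end ind

end Pool.Agent.Lib.P0c8ca5.Un8
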