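import Mathlib
import Pool.Agent.Lib.P0c8ca5U.CmA

/-!
# Module CmB: the product of an irreducible representation of `N ⊓ T` and a simple module of `(kM)^N`

`op Q θ φ g w v = θ(g * cS Q v) ⊗ φ(w)` for a pair of inverse units `w`, `v` over `g`; it does not depend on the pair (`op_indep`),
it is multiplicative (`op_mul`).  `tp`: the representation of `M ⊓ T`.  `tp_act`: `cS Q (a * c)` acts as `1 ⊗ φ a`.  `tp_irr`.
-/

namespace Pool.Agent.Lib.P0c8ca5.Un8

open MonoidAlgebra Bq Ps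

variable {p : ℕ} {k : Type*} [Field k] {A : Type*} [Group A]
variable {N K : Subgroup A} {c : MonoidAlgebra k A} {Q T : Subgroup A}
variable {n : ℕ} {W : Type*} [AddCommGroup W] [Module k W]

/-- `θ(g * cS Q v) ⊗ φ(w)` -/
noncomputable def op (Q : Subgroup A) {T' : Subgroup A} (θ : Rp k T' n)
    (φ : MonoidAlgebra k A → Module.End k W) (g : A) (w v : MonoidAlgebra k A) :
    Module.End k (Fin n → W) :=
  kr (act θ (single g 1 * cS Q v)) (φ w)

theorem supp_left (h : UH N K c) (q : QT p N Q T) {g : A} (hg : g ∈ K ⊓ T)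
    {v : MonoidAlgebra k A} (hv : ∀ z, v.coeff z ≠ 0 → z * g ∈ N) :
    SuppIn (N ⊓ T) (single g 1 * cS Q v) := by
  intro z hz
  rw [coeff_single_mul_apply, one_mul] at hz
  by_cases hzc : g⁻¹ * z ∈ (Subgroup.centralizer (Q : Set A) : Set A)
  · rw [coeff_resS_of_mem _ hzc] at hz
    have h1 := (Subgroup.mem_normalizer_iff.1 (h.nm hg.1) _).1 (hv _ hz)
    have e : g * (g⁻¹ * z * g) * g⁻¹ = z := by group
    rw [e] at h1
    have h2 := T.mul_mem hg.2 (q.cT hzc)
    rw [mul_inv_cancel_left] at h2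
    exact ⟨h1, h2⟩
  · exact absurd (coeff_resS_of_notMem _ hzc) hz

variable {φ : MonoidAlgebra k A → Module.End k W} {θ : Rp k (N ⊓ T) n}

theorem mem_MN (h : UH N K c) {a : MonoidAlgebra k A} (ha : a ∈ fixAlg k N N) :
    a ∈ fixAlg k h.unt N :=
  mem_fixAlg.2 ⟨(mem_fixAlg.1 ha).1.mono h.le_unt, (mem_fixAlg.1 ha).2⟩

theorem UP.mem (h : UH N K c) {g : A} (hg : g ∈ h.unt) {w v : MonoidAlgebra k A}
    (hw : UP N c g w v) : w ∈ fixAlg k h.unt N ∧ v ∈ fixAlg k h.unt N := by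
  refine ⟨mem_fixAlg.2 ⟨coset_supp h.le_unt hg hw.su, hw.iu⟩, mem_fixAlg.2 ⟨?_, hw.iv⟩⟩
  exact coset_supp h.le_unt (h.unt.inv_mem hg) (fun z hz => by rw [inv_inv]; exact hw.sv z hz)

theorem op_indep [Fact p.Prime] [CharP k p] [IsAlgClosed k] [Fintype A] [Module.Finite k W]
    (h : UH N K c) (q : QT p N Q T) (hθ : Irr' θ) (hb : act θ (cS Q c) = 1)
    (hφ : CR h.unt N c φ) {g : A} (hg : g ∈ h.unt ⊓ T) {w v w' v' : MonoidAlgebra k A}
    (h1 : UP N c g w v) (h2 : UP N c g w' v') : op Q θ φ g w v = op Q θ φ g w' v' := by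
  have hgK : g ∈ K ⊓ T := ⟨h.unt_le hg.1, hg.2⟩
  have hζ : w' * v ∈ fixAlg k N N := by
    refine mem_fixAlg.2 ⟨fun z hz => ?_, invMul h2.iu h1.iv⟩
    have h3 := coset_mul (y := g⁻¹) (h.nm hgK.1) h2.su
      (fun z hz => by rw [inv_inv]; exact h1.sv z hz) z hz
    rwa [mul_inv_cancel, inv_one, mul_one] at h3
  obtain ⟨s, hs⟩ := h.exists_res hζ
  have e1 : w' = w' * v * w := by rw [mul_assoc, h1.vu, h2.uc]
  have e2 : v = v' * (w' * v) := by
    rw [← mul_assoc, h2.vu, ← h.comm' h1.iv, h1.vc]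
  have f1 : φ w' = s • φ w := by
    rw [e1, hφ.mul _ (mem_MN h hζ) _ (UP.mem h hg.1 h1).1, hφ.phi_res h hζ hs, smul_mul_assoc,
      one_mul]
  have f2 : act θ (single g 1 * cS Q v) = s • act θ (single g 1 * cS Q v') := by
    have e3 : single g 1 * cS Q v = single g 1 * cS Q v' * cS Q (w' * v) := by
      rw [mul_assoc, ← cS_mul q h2.iv (mem_fixAlg.1 hζ).2, ← e2]
    rw [e3, act_mul _ (supp_left h q hgK h2.sv), act_res h q hθ hb hζ hs, mul_smul_comm, mul_one]
  rw [op, op, f1, f2, kr_smul_left, kr_smul_right]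

theorem op_mul [Fact p.Prime] [CharP k p] [Fintype A] (h : UH N K c) (q : QT p N Q T)
    (hφ : CR h.unt N c φ) {g g' : A} (hg : g ∈ h.unt ⊓ T) (hg' : g' ∈ h.unt ⊓ T)
    {w v w' v' : MonoidAlgebra k A} (h1 : UP N c g w v) (h2 : UP N c g' w' v') :
    op Q θ φ g w v * op Q θ φ g' w' v' = op Q θ φ (g * g') (w * w') (v' * v) := by
  have hgK : g ∈ K ⊓ T := ⟨h.unt_le hg.1, hg.2⟩
  have hgK' : g' ∈ K ⊓ T := ⟨h.unt_le hg'.1, hg'.2⟩
  ext1
  refine LinearMap.ext fun x => ?_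
  change op Q θ φ g w v (op Q θ φ g' w' v' _) = _
  rw [op, op, op, kr_comp]
  have e1 : single g (1 : k) * cS Q v * (single g' 1 * cS Q v')
      = single (g * g') 1 * cS Q (v' * v) := by
    have e2 : cS Q v * (single g' (1 : k) * cS Q v') = (single g' 1 * cS Q v') * cS Q v :=
      (cS_comm q h1.iv (supp_left h q hgK' h2.sv)).symm
    rw [mul_assoc, e2, cS_mul q h2.iv h1.iv]
    have e3 : (single (g * g') (1 : k) : MonoidAlgebra k A) = single g 1 * single g' 1 := by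
      rw [single_mul_single, one_mul]
    rw [e3]
    simp only [mul_assoc]
  have e2 : act θ (single g 1 * cS Q v) ∘ₗ act θ (single g' 1 * cS Q v')
      = act θ (single (g * g') 1 * cS Q (v' * v)) := by
    rw [← e1, act_mul _ (supp_left h q hgK h1.sv)]
    rfl
  have e3 : φ w ∘ₗ φ w' = φ (w * w') := by
    rw [hφ.mul _ (UP.mem h hg.1 h1).1 _ (UP.mem h hg'.1 h2).1]
    rfl
  rw [e2, e3]
  rfl

open Classical in
/-- a chosen pair of inverse units -/
noncomputable def ui (N : Subgroup A) (c : MonoidAlgebra k A) (g : A) :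
    MonoidAlgebra k A × MonoidAlgebra k A :=
  if h : ∃ z : MonoidAlgebra k A × MonoidAlgebra k A, UP N c g z.1 z.2 then h.choose else (0, 0)

theorem ui_spec (h : UH N K c) {g : A} (hg : g ∈ h.unt) :
    UP N c g (ui N c g).1 (ui N c g).2 := by
  obtain ⟨-, w, v, h1⟩ := h.mem_unt.1 hg
  have h2 : ∃ z : MonoidAlgebra k A × MonoidAlgebra k A, UP N c g z.1 z.2 := ⟨(w, v), h1⟩
  have h3 : ui N c g = h2.choose := dif_pos h2
  rw [h3]
  exact h2.choose_spec

theorem sg_one_mul (a : MonoidAlgebra k A) : single (1 : A) (1 : k) * a = a := by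
  rw [← MonoidAlgebra.one_def, one_mul]

/-- the product representation -/
noncomputable def tp [Fact p.Prime] [CharP k p] [IsAlgClosed k] [Fintype A] [Module.Finite k W]
    (h : UH N K c) (q : QT p N Q T) (hθ : Irr' θ) (hb : act θ (cS Q c) = 1)
    (hφ : CR h.unt N c φ) : Representation k ↥(h.unt ⊓ T) (Fin n → W) where
  toFun g := op Q θ φ g (ui N c (g : A)).1 (ui N c (g : A)).2
  map_one' := by
    have h1 : UP N c ((1 : ↥(h.unt ⊓ T)) : A) c c := UP.one h
    refine (op_indep h q hθ hb hφ (1 : ↥(h.unt ⊓ T)).2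
      (ui_spec h (1 : ↥(h.unt ⊓ T)).2.1) h1).trans ?_
    ext1
    refine LinearMap.ext fun x => ?_
    change op Q θ φ _ c c _ = _
    rw [op, hφ.one]
    have e : single (((1 : ↥(h.unt ⊓ T)) : A)) (1 : k) * cS Q c = cS Q c := sg_one_mul _
    rw [e, hb, kr_one]
    rfl
  map_mul' g g' := by
    rw [op_mul h q hφ g.2 g'.2 (ui_spec h g.2.1) (ui_spec h g'.2.1)]
    exact op_indep h q hθ hb hφ (g * g').2 (ui_spec h (g * g').2.1)
      (UP.mul h (h.unt_le g.2.1) (h.unt_le g'.2.1) (ui_spec h g.2.1) (ui_spec h g'.2.1))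

section tp

variable [Fact p.Prime] [CharP k p] [IsAlgClosed k] [Fintype A] [Module.Finite k W]
  (h : UH N K c) (q : QT p N Q T) (hθ : Irr' θ) (hb : act θ (cS Q c) = 1)
  (hφ : CR h.unt N c φ)

theorem tp_apply {g : A} (hg : g ∈ h.unt ⊓ T) {w v : MonoidAlgebra k A} (h1 : UP N c g w v) :
    tp h q hθ hb hφ ⟨g, hg⟩ = op Q θ φ g w v :=
  op_indep h q hθ hb hφ hg (ui_spec h hg.1) h1

theorem tp_N {g : A} (hg : g ∈ N ⊓ T) :
    tp h q hθ hb hφ ⟨g, h.le_unt hg.1, hg.2⟩ = kr (θ ⟨g, hg⟩) (1 : Module.End k W) := by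
  have h1 : UP N c g c c := by
    refine UP.congr ?_ (h.nm (h.le hg.1)) (UP.one h)
    rw [one_mul]
    exact N.inv_mem hg.1
  rw [tp_apply h q hθ hb hφ _ h1, op, hφ.one]
  congr 1
  have h2 : SuppIn (N ⊓ T) (single g (1 : k)) := supp_sg hg
  rw [act_mul _ h2, hb, mul_one, LnBAux.act_sg θ hg]

theorem act_kr (u : MonoidAlgebra k A) (hu : SuppIn (N ⊓ T) u) :
    act (tp h q hθ hb hφ) u = kr (act θ u) (1 : Module.End k W) := by
  classical
  have : Fintype ↥(N ⊓ T) := Fintype.ofFinite _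
  have : Fintype ↥(h.unt ⊓ T) := Fintype.ofFinite _
  refine LinearMap.ext fun f => funext fun i => ?_
  have hle : N ⊓ T ≤ h.unt ⊓ T := inf_le_inf_right _ h.le_unt
  have h1 : act (tp h q hθ hb hφ) u f = ∑ g : ↥(N ⊓ T), u.coeff (g : A) • kr (θ g) (1 : Module.End k W) f := by
    rw [act_apply]
    symm
    apply Fintype.sum_of_injective (fun g : ↥(N ⊓ T) => Subgroup.inclusion hle g)
      (Subgroup.inclusion_injective hle)
    · intro x hx
      have h2 : u.coeff (x : A) = 0 := by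
        by_contra h3
        exact hx ⟨⟨x, hu x h3⟩, rfl⟩
      rw [h2, zero_smul]
    · intro g
      have h2 := tp_N h q hθ hb hφ g.2
      change _ = u.coeff (g : A) • tp h q hθ hb hφ ⟨g, _⟩ f
      rw [h2]
  rw [h1, Finset.sum_apply, kr_apply]
  have h2 : ∀ j, act θ u (Pi.single j 1) i = ∑ g : ↥(N ⊓ T), u.coeff (g : A) • θ g (Pi.single j 1) i := by
    intro j
    rw [act_apply, Finset.sum_apply]
    rfl
  simp only [h2, Pi.smul_apply, kr_apply, Finset.smul_sum, Finset.sum_smul, smul_assoc]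
  rw [Finset.sum_comm]

end tp

end Pool.Agent.Lib.P0c8ca5.Un8
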