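import Mathlib
import Pool.Agent.Lib.P0c8ca5U.CmB

/-!
# Module CmC: irreducibility of the product, intertwiners of products

* `tp_act`: `cS Q (a * c)` acts on the product as `1 ⊗ φ a`.
* `tp_irr`: the product is irreducible.
* `act_itw`: an intertwiner `X` of `x` satisfies `X ρ(u) = ρ'(cj x u) X` for `u` in the group algebra.
* `tp_itw`: every intertwiner of products is the product of intertwiners; `kr_itw`: the converse.
-/

namespace Pool.Agent.Lib.P0c8ca5.Un8

open MonoidAlgebra Bq Ps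

variable {p : ℕ} {k : Type*} [Field k] {A : Type*} [Group A]
variable {N K : Subgroup A} {c : MonoidAlgebra k A} {Q T : Subgroup A}
variable {n n' : ℕ} {W W' : Type*} [AddCommGroup W] [Module k W] [AddCommGroup W'] [Module k W']

theorem kr_add_right (a : (Fin n → k) →ₗ[k] (Fin n' → k)) (B B' : W →ₗ[k] W') :
    kr a (B + B') = kr a B + kr a B' := by
  ext f i
  simp only [LinearMap.coe_comp, Function.comp_apply, LinearMap.coe_single, LinearMap.add_apply,
    Pi.add_apply, kr_apply, smul_add, Finset.sum_add_distrib]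

theorem kr_zero_right (a : (Fin n → k) →ₗ[k] (Fin n' → k)) : kr a (0 : W →ₗ[k] W') = 0 := by
  have h := kr_smul_right (0 : k) a (0 : W →ₗ[k] W')
  rwa [zero_smul, zero_smul] at h

theorem kr_mul (a b : Module.End k (Fin n → k)) (B B' : Module.End k W) :
    kr a B * kr b B' = kr (a * b) (B * B') := by
  refine LinearMap.ext fun f => ?_
  exact kr_comp a B b B' f

/-- an invariant subspace is stable under the group algebra -/
theorem act_mem [Finite A] {N : Subgroup A} {V : Type*} [AddCommGroup V] [Module k V]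
    {ρ : Representation k N V} {U : Submodule k V} (hU : ∀ g, ∀ w ∈ U, ρ g w ∈ U)
    (u : MonoidAlgebra k A) {w : V} (hw : w ∈ U) : act ρ u w ∈ U := by
  have : Fintype N := Fintype.ofFinite N
  rw [act_apply]
  exact U.sum_mem fun x _ => U.smul_mem _ (hU x w hw)

/-- the action of a group algebra element under an intertwiner of `x` -/
theorem act_itw [Finite A] {N : Subgroup A} {V V' : Type*} [AddCommGroup V] [Module k V]
    [AddCommGroup V'] [Module k V'] {ρ : Representation k N V} {ρ' : Representation k N V'}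
    {x : A} (hx : x ∈ Subgroup.normalizer (N : Set A)) {X : V →ₗ[k] V'}
    (hX : ∀ g g' : N, (g' : A) = x * g * x⁻¹ → ∀ v, X (ρ g v) = ρ' g' (X v))
    (u : MonoidAlgebra k A) (v : V) : X (act ρ u v) = act ρ' (cj x u) (X v) := by
  have : Fintype N := Fintype.ofFinite N
  rw [act_apply, act_apply, map_sum]
  have hmem : ∀ g : N, x * g * x⁻¹ ∈ N := fun g => (Subgroup.mem_normalizer_iff.1 hx _).1 g.2
  refine Fintype.sum_bijective (fun g : N => (⟨x * g * x⁻¹, hmem g⟩ : N)) ?_ _ _ (fun g => ?_)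
  · rw [Nat.bijective_iff_injective_and_card]
    refine ⟨fun g g' hgg => ?_, rfl⟩
    have h1 := congrArg Subtype.val hgg
    change x * g * x⁻¹ = x * g' * x⁻¹ at h1
    exact Subtype.ext (mul_left_cancel (mul_right_cancel h1))
  · rw [map_smul, hX g ⟨x * g * x⁻¹, hmem g⟩ rfl, coeff_cj]
    congr 2
    change (g : A) = x⁻¹ * (x * g * x⁻¹) * x
    group

variable {φ : MonoidAlgebra k A → Module.End k W} {θ : Rp k (N ⊓ T) n}
  {φ' : MonoidAlgebra k A → Module.End k W'} {θ' : Rp k (N ⊓ T) n'}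

theorem CR.zero {M : Subgroup A} (hφ : CR M N c φ) : φ 0 = 0 := by
  have h3 := hφ.smul 0 0 (fixAlg k M N).zero_mem
  rwa [zero_smul, zero_smul] at h3

theorem hasBr_of [Finite A] {T' : Subgroup A} {θ : Rp k T' n} (hθ : Irr' θ)
    (hb : act θ (cS Q c) = 1) : HasBr Q c := by
  by_contra hcon
  have h1 : cS Q c = 0 := by
    ext y
    by_cases hy : y ∈ (Subgroup.centralizer (Q : Set A) : Set A)
    · rw [coeff_resS_of_mem _ hy]
      by_contra h2
      exact hcon ⟨y, hy, h2⟩
    · rw [coeff_resS_of_notMem _ hy]; rfl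
  rw [h1, act_zero''] at hb
  have := hθ.nontriv
  obtain ⟨v, hv⟩ := exists_ne (0 : Fin n → k)
  exact hv (LinearMap.congr_fun hb v).symm

section tp

variable [Fact p.Prime] [CharP k p] [IsAlgClosed k] [Fintype A] [Module.Finite k W]
  [Module.Finite k W']
  (h : UH N K c) (q : QT p N Q T) (hθ : Irr' θ) (hb : act θ (cS Q c) = 1)
  (hφ : CR h.unt N c φ) (hθ' : Irr' θ') (hb' : act θ' (cS Q c) = 1)
  (hφ' : CR h.unt N c φ')

theorem tp_unit {g : A} (hg : g ∈ h.unt ⊓ T) {w v : MonoidAlgebra k A} (h1 : UP N c g w v) :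
    act (tp h q hθ hb hφ) (cS Q w) = kr 1 (φ w) := by
  have hgK : g ∈ K ⊓ T := ⟨h.unt_le hg.1, hg.2⟩
  have hgi : g⁻¹ ∈ K ⊓ T := Subgroup.inv_mem _ hgK
  have e1 : cS Q w = single g (1 : k) * (single g⁻¹ 1 * cS Q w) := by
    rw [← mul_assoc, single_mul_single, mul_inv_cancel, one_mul]
    exact (sg_one_mul _).symm
  have s1 : SuppIn (h.unt ⊓ T) (single g (1 : k)) := supp_sg hg
  have s2 : SuppIn (N ⊓ T) (single g⁻¹ (1 : k) * cS Q w) := supp_left h q hgi h1.su
  have s3 : SuppIn (N ⊓ T) (single g (1 : k) * cS Q v) := supp_left h q hgK h1.sv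
  have e2 : single g (1 : k) * cS Q v * (single g⁻¹ (1 : k) * cS Q w) = cS Q c := by
    have e3 : cS Q v * (single g⁻¹ (1 : k) * cS Q w) = (single g⁻¹ (1 : k) * cS Q w) * cS Q v :=
      (cS_comm q h1.iv s2).symm
    have e4 : single g (1 : k) * single g⁻¹ 1 = (1 : MonoidAlgebra k A) := by
      rw [single_mul_single, mul_inv_cancel, one_mul]; rfl
    rw [mul_assoc, e3, mul_assoc, ← cS_mul q h1.iu h1.iv, h1.uv, ← mul_assoc, e4, one_mul]
  have e5 : act (tp h q hθ hb hφ) (single g (1 : k)) = op Q θ φ g w v := by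
    rw [LnBAux.act_sg _ hg, tp_apply h q hθ hb hφ hg h1]
  rw [e1, act_mul _ s1, act_kr h q hθ hb hφ _ s2, e5, op, kr_mul, ← act_mul _ s3, e2, hb, mul_one]

/-- the action of `(kM)^N` on the product -/
theorem tp_act : ∀ a ∈ fixAlg k h.unt N, act (tp h q hθ hb hφ) (cS Q (a * c)) = kr 1 (φ a) := by
  have hcM : c ∈ fixAlg k h.unt N := mem_MN h h.blk.mem
  have key := h.ind q (hasBr_of hθ hb)
    (fun a => act (tp h q hθ hb hφ) (cS Q a) = kr 1 (φ a)) ?_ ?_ ?_
  · intro a ha
    rw [key a ha, hφ.mul _ ha _ hcM, hφ.one, mul_one]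
  · change act _ (resS _ 0) = _
    rw [resS_zero, act_zero'', hφ.zero, kr_zero_right]
  · intro a ha b hb' h1 h2
    change act _ (resS _ (a + b)) = _
    rw [resS_add, act_add', h1, h2, hφ.add _ ha _ hb', kr_add_right]
  · intro ζ hζ g hg w v hwv
    obtain ⟨s, hs⟩ := h.exists_res hζ
    have s1 : SuppIn (N ⊓ T) (cS Q ζ) := supp_cS q (mem_fixAlg.1 hζ).1
    have hle : N ⊓ T ≤ h.unt ⊓ T := inf_le_inf_right _ h.le_unt
    change act _ (cS Q (ζ * w)) = _
    rw [cS_mul q (mem_fixAlg.1 hζ).2 hwv.iu, act_mul _ (s1.mono hle), act_kr h q hθ hb hφ _ s1,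
      act_res h q hθ hb hζ hs, tp_unit h q hθ hb hφ hg hwv, kr_mul,
      hφ.mul _ (mem_MN h hζ) _ (UP.mem h hg.1 hwv).1, hφ.phi_res h hζ hs, mul_one, smul_mul_assoc,
      one_mul, kr_smul_right, kr_smul_left]

theorem tp_irr : Irr' (tp h q hθ hb hφ) where
  nontriv := by
    have h1 := hθ.nontriv
    have h2 := hφ.nontriv
    obtain ⟨w, hw⟩ := exists_ne (0 : W)
    obtain ⟨v, hv⟩ := exists_ne (0 : Fin n → k)
    obtain ⟨i, -⟩ := Function.ne_iff.1 hv
    refine ⟨⟨Pi.single i w, 0, fun h3 => hw ?_⟩⟩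
    have h4 := congrFun h3 i
    rwa [Pi.single_eq_same] at h4
  sub := fun U hU => by
    have hact : ∀ (u : MonoidAlgebra k A), ∀ f ∈ U, act (tp h q hθ hb hφ) u f ∈ U :=
      fun u f hf => act_mem hU u hf
    obtain ⟨W₀, hW₀⟩ := kr_sub U (fun a f hf => by
      obtain ⟨u, hu, rfl⟩ := exists_act hθ a
      rw [← act_kr h q hθ hb hφ u hu]
      exact hact u f hf)
    have h1 := hθ.nontriv
    obtain ⟨v, hv⟩ := exists_ne (0 : Fin n → k)
    obtain ⟨i₀, -⟩ := Function.ne_iff.1 hv
    have h2 : ∀ a ∈ fixAlg k h.unt N, ∀ w ∈ W₀, φ a w ∈ W₀ := by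
      intro a ha w hw
      have h3 : (Pi.single i₀ w : Fin n → W) ∈ U := by
        rw [hW₀]
        intro i
        by_cases hi : i = i₀
        · subst hi; rw [Pi.single_eq_same]; exact hw
        · rw [Pi.single_eq_of_ne hi]; exact W₀.zero_mem
      have h4 := hact (cS Q (a * c)) _ h3
      rw [tp_act h q hθ hb hφ a ha, hW₀] at h4
      have h5 := h4 i₀
      rw [kr_single] at h5
      change (Pi.single i₀ 1 : Fin n → k) i₀ • φ a w ∈ W₀ at h5
      rwa [Pi.single_eq_same, one_smul] at h5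
    rcases hφ.sub W₀ h2 with h3 | h3
    · left
      rw [eq_bot_iff]
      intro f hf
      rw [hW₀, h3] at hf
      rw [Submodule.mem_bot]
      funext i
      exact (Submodule.mem_bot k).1 (hf i)
    · right
      rw [eq_top_iff]
      intro f _
      rw [hW₀, h3]
      exact fun i => Submodule.mem_top

end tp

end Pool.Agent.Lib.P0c8ca5.Un8
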