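import Mathlib
import Pool.Agent.Lib.P0c8ca5U.CmC

/-!
# Module CmD: intertwiners of products

* `ItS`, `ItC`: `XS` intertwines `θ` with the conjugate of `θ'` by `x`; the same for `(kM)^N`.
* `tp_itw`: every intertwiner of products is the product of intertwiners; `krE_itw`: the converse.
-/

namespace Pool.Agent.Lib.P0c8ca5.Un8

open MonoidAlgebra Bq Ps

variable {p : ℕ} {k : Type*} [Field k] {A : Type*} [Group A]
variable {N K : Subgroup A} {c : MonoidAlgebra k A} {Q T : Subgroup A}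
variable {n n' : ℕ} {W W' : Type*} [AddCommGroup W] [Module k W] [AddCommGroup W'] [Module k W']

/-- `X` intertwines `ρ` with the conjugate of `ρ'` by `x` -/
def ItS (N : Subgroup A) {V V' : Type*} [AddCommGroup V] [Module k V] [AddCommGroup V']
    [Module k V'] (ρ : Representation k N V) (ρ' : Representation k N V') (x : A)
    (X : V →ₗ[k] V') : Prop :=
  ∀ g g' : N, (g' : A) = x * g * x⁻¹ → ∀ v, X (ρ g v) = ρ' g' (X v)

/-- the same for modules of `(kM)^N` -/
def ItC (M N : Subgroup A) (φ : MonoidAlgebra k A → Module.End k W)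
    (φ' : MonoidAlgebra k A → Module.End k W') (x : A) (X : W →ₗ[k] W') : Prop :=
  ∀ a ∈ fixAlg k M N, ∀ w, X (φ a w) = φ' (cj x a) (X w)

/-- the tensor product of two isomorphisms -/
noncomputable def krE (XS : (Fin n → k) ≃ₗ[k] (Fin n' → k)) (XW : W ≃ₗ[k] W') :
    (Fin n → W) ≃ₗ[k] (Fin n' → W') :=
  LinearEquiv.ofLinearMap (kr XS.toLinearMap XW.toLinearMap)
    (kr XS.symm.toLinearMap XW.symm.toLinearMap)
    (by
      refine LinearMap.ext fun f => ?_
      change kr _ _ (kr _ _ f) = f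
      rw [kr_comp]
      have e1 : XS.toLinearMap ∘ₗ XS.symm.toLinearMap = 1 := by
        refine LinearMap.ext fun v => ?_
        exact XS.apply_symm_apply _
      have e2 : XW.toLinearMap ∘ₗ XW.symm.toLinearMap = 1 := by
        refine LinearMap.ext fun v => ?_
        exact XW.apply_symm_apply _
      rw [e1, e2, kr_one])
    (by
      refine LinearMap.ext fun f => ?_
      change kr _ _ (kr _ _ f) = f
      rw [kr_comp]
      have e1 : XS.symm.toLinearMap ∘ₗ XS.toLinearMap = 1 := by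
        refine LinearMap.ext fun v => ?_
        exact XS.symm_apply_apply _
      have e2 : XW.symm.toLinearMap ∘ₗ XW.toLinearMap = 1 := by
        refine LinearMap.ext fun v => ?_
        exact XW.symm_apply_apply _
      rw [e1, e2, kr_one])

theorem krE_apply (XS : (Fin n → k) ≃ₗ[k] (Fin n' → k)) (XW : W ≃ₗ[k] W') (f : Fin n → W) :
    krE XS XW f = kr XS.toLinearMap XW.toLinearMap f := rfl

/-- an intertwiner of irreducible representations is bijective -/
theorem ItS.bijective {N : Subgroup A} {V V' : Type*} [AddCommGroup V] [Module k V]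
    [AddCommGroup V'] [Module k V'] {ρ : Representation k N V} {ρ' : Representation k N V'} {x : A}
    (hx : x ∈ Subgroup.normalizer (N : Set A)) (hρ : Irr' ρ) (hρ' : Irr' ρ') {X : V →ₗ[k] V'}
    (h : ItS N ρ ρ' x X) (h0 : X ≠ 0) : Function.Bijective X := by
  refine ⟨hρ.injective X h0 (fun g v hv => ?_), hρ'.surjective X h0 (fun g v => ?_)⟩
  · rw [h g ⟨x * g * x⁻¹, (Subgroup.mem_normalizer_iff.1 hx _).1 g.2⟩ rfl, hv, map_zero]
  · have hg : x⁻¹ * (g : A) * x ∈ N := by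
      apply (Subgroup.mem_normalizer_iff.1 hx _).2
      have e : x * (x⁻¹ * (g : A) * x) * x⁻¹ = g := by group
      rw [e]; exact g.2
    refine ⟨ρ ⟨_, hg⟩ v, ?_⟩
    rw [h ⟨_, hg⟩ g (by change (g : A) = x * (x⁻¹ * g * x) * x⁻¹; group)]

theorem cj_sg (x g : A) : cj x (single g (1 : k)) = single (x * g * x⁻¹) 1 := by
  classical
  ext z
  rw [coeff_cj, coeff_single, coeff_single]
  by_cases hz : z = x * g * x⁻¹
  · have e : x⁻¹ * z * x = g := by rw [hz]; group
    rw [e, hz, Finsupp.single_eq_same, Finsupp.single_eq_same]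
  · rw [Finsupp.single_eq_of_ne, Finsupp.single_eq_of_ne hz]
    intro h
    apply hz
    rw [← h]
    group

theorem kr_e1 (a : (Fin n → k) →ₗ[k] (Fin n' → k)) (w : W) (v : Fin n → k) :
    kr a (1 : Module.End k W) (fun i => v i • w) = fun i => a v i • w := by
  funext i
  rw [kr_apply, lin_expand a v i, Finset.sum_smul]
  refine Finset.sum_congr rfl fun j _ => ?_
  rw [Module.End.one_apply, smul_smul, mul_comm]

theorem kr_l1 (a : (Fin n → k) →ₗ[k] (Fin n' → k)) (l : W →ₗ[k] k) (f : Fin n → W) :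
    (fun i => l (kr a (1 : Module.End k W) f i)) = a (fun i => l (f i)) := by
  funext i
  rw [kr_apply, map_sum, lin_expand a _ i]
  refine Finset.sum_congr rfl fun j _ => ?_
  rw [map_smul, Module.End.one_apply, smul_eq_mul, mul_comm]

variable {φ : MonoidAlgebra k A → Module.End k W} {θ : Rp k (N ⊓ T) n}
  {φ' : MonoidAlgebra k A → Module.End k W'} {θ' : Rp k (N ⊓ T) n'}

theorem nm_NT (h : UH N K c) {x : A} (hx : x ∈ K ⊓ T) :
    x ∈ Subgroup.normalizer ((N ⊓ T : Subgroup A) : Set A) := by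
  refine GqAux.nm_of (fun m hm => ?_) (fun m hm => ?_)
  · exact ⟨GqAux.nm_mem (h.nm hx.1) hm.1, T.mul_mem (T.mul_mem hx.2 hm.2) (T.inv_mem hx.2)⟩
  · exact ⟨GqAux.nm_mem' (h.nm hx.1) hm.1, T.mul_mem (T.mul_mem (T.inv_mem hx.2) hm.2) hx.2⟩

theorem nm_MT (h : UH N K c) {x : A} (hx : x ∈ K ⊓ T) :
    x ∈ Subgroup.normalizer ((h.unt ⊓ T : Subgroup A) : Set A) := by
  refine GqAux.nm_of (fun m hm => ?_) (fun m hm => ?_)
  · exact ⟨GqAux.nm_mem (h.norm_unt hx.1) hm.1,
      T.mul_mem (T.mul_mem hx.2 hm.2) (T.inv_mem hx.2)⟩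
  · exact ⟨GqAux.nm_mem' (h.norm_unt hx.1) hm.1,
      T.mul_mem (T.mul_mem (T.inv_mem hx.2) hm.2) hx.2⟩

section tp

variable [Fact p.Prime] [CharP k p] [IsAlgClosed k] [Fintype A] [Module.Finite k W]
  [Module.Finite k W']
  (h : UH N K c) (q : QT p N Q T) (hθ : Irr' θ) (hb : act θ (cS Q c) = 1)
  (hφ : CR h.unt N c φ) (hθ' : Irr' θ') (hb' : act θ' (cS Q c) = 1)
  (hφ' : CR h.unt N c φ')

theorem tp_itw {x : A} (hx : x ∈ K ⊓ T) (X : (Fin n → W) ≃ₗ[k] (Fin n' → W'))
    (hX : ItS (h.unt ⊓ T) (tp h q hθ hb hφ) (tp h q hθ' hb' hφ') x X.toLinearMap) :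
    ∃ (XS : (Fin n → k) ≃ₗ[k] (Fin n' → k)) (XW : W ≃ₗ[k] W'),
      ItS (N ⊓ T) θ θ' x XS.toLinearMap ∧ ItC h.unt N φ φ' x XW.toLinearMap ∧
      ∀ f, X f = krE XS XW f := by
  have hxN := nm_NT (T := T) h hx
  have hxM := nm_MT (T := T) h hx
  have h1 := hθ.nontriv
  have h2 := hφ.nontriv
  obtain ⟨w, hw⟩ := exists_ne (0 : W)
  obtain ⟨v, hv⟩ := exists_ne (0 : Fin n → k)
  obtain ⟨i₀, hi₀⟩ := Function.ne_iff.1 hv
  have hle : N ⊓ T ≤ h.unt ⊓ T := inf_le_inf_right _ h.le_unt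
  let e : (Fin n → k) →ₗ[k] (Fin n → W) :=
    { toFun := fun v i => v i • w
      map_add' := fun a b => by funext i; exact add_smul _ _ _
      map_smul' := fun s a => by funext i; exact mul_smul _ _ _ }
  have hev : X (e v) ≠ 0 := by
    rw [Ne, LinearEquiv.map_eq_zero_iff]
    intro h3
    have h4 := congrFun h3 i₀
    rcases smul_eq_zero.1 h4 with h5 | h5
    · exact hi₀ h5
    · exact hw h5
  obtain ⟨j₀, hj₀⟩ := Function.ne_iff.1 hev
  obtain ⟨l, hl⟩ : ∃ l : W' →ₗ[k] k, l (X (e v) j₀) ≠ 0 := by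
    by_contra hcon
    push Not at hcon
    exact hj₀ ((Module.forall_dual_apply_eq_zero_iff k _).1 hcon)
  let XS₀ : (Fin n → k) →ₗ[k] (Fin n' → k) :=
    LinearMap.pi (fun i => l ∘ₗ LinearMap.proj i ∘ₗ X.toLinearMap ∘ₗ e)
  have hXS₀ : ∀ u, XS₀ u = fun i => l (X (e u) i) := fun u => rfl
  have hit : ItS (N ⊓ T) θ θ' x XS₀ := by
    intro g g' hgg u
    have h3 : e (θ g u) = tp h q hθ hb hφ ⟨g, h.le_unt g.2.1, g.2.2⟩ (e u) := by
      rw [tp_N h q hθ hb hφ g.2]
      exact (kr_e1 (θ g) w u).symm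
    have h4 := hX ⟨g, h.le_unt g.2.1, g.2.2⟩ ⟨g', h.le_unt g'.2.1, g'.2.2⟩ hgg (e u)
    rw [tp_N h q hθ' hb' hφ' g'.2] at h4
    rw [hXS₀, hXS₀, h3]
    change (fun i => l (X.toLinearMap _ i)) = _
    rw [h4]
    exact kr_l1 (θ' g') l (X (e u))
  have hne : XS₀ ≠ 0 := by
    intro h3
    have h4 := congrFun (LinearMap.congr_fun h3 v) j₀
    exact hl h4
  obtain ⟨XS, hXS⟩ : ∃ XS : (Fin n → k) ≃ₗ[k] (Fin n' → k), ∀ u, XS u = XS₀ u :=
    ⟨LinearEquiv.ofBijective XS₀ (hit.bijective hxN hθ hθ' hne), fun u => rfl⟩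
  have hitS : ItS (N ⊓ T) θ θ' x XS.toLinearMap := by
    intro g g' hgg u
    change XS _ = θ' g' (XS u)
    rw [hXS, hXS]
    exact hit g g' hgg u
  let Tm : (Fin n → W) →ₗ[k] (Fin n → W') :=
    kr XS.symm.toLinearMap (1 : Module.End k W') ∘ₗ X.toLinearMap
  have hTm : ∀ f, Tm f = kr XS.symm.toLinearMap (1 : Module.End k W') (X f) := fun f => rfl
  have hcu : ∀ u : MonoidAlgebra k A, SuppIn (N ⊓ T) u → SuppIn (N ⊓ T) (cj x u) :=
    fun u hu => hu.cj hxN
  obtain ⟨B, hB⟩ := kr_cent Tm (fun a f => by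
    obtain ⟨u, hu, rfl⟩ := exists_act hθ a
    rw [hTm, hTm, ← act_kr h q hθ hb hφ u hu]
    have h3 := act_itw hxM hX u f
    change X _ = _ at h3
    rw [h3, act_kr h q hθ' hb' hφ' _ (hcu u hu)]
    change kr _ _ (kr _ _ (X f)) = kr _ _ (kr _ _ (X f))
    rw [kr_comp, kr_comp]
    have h4 : XS.symm.toLinearMap ∘ₗ act θ' (cj x u) = act θ u ∘ₗ XS.symm.toLinearMap := by
      refine LinearMap.ext fun s => ?_
      obtain ⟨s', rfl⟩ := XS.surjective s
      change XS.symm (act θ' (cj x u) (XS s')) = act θ u (XS.symm (XS s'))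
      have h5 := act_itw hxN hitS u s'
      change XS _ = act θ' (cj x u) (XS s') at h5
      rw [← h5, LinearEquiv.symm_apply_apply, LinearEquiv.symm_apply_apply]
    rw [h4])
  have hXB : ∀ f, X f = kr XS.toLinearMap B f := by
    intro f
    have h3 := hTm f
    rw [hB] at h3
    have h4 : kr XS.toLinearMap (1 : Module.End k W') (kr (1 : Module.End k (Fin n → k)) B f)
        = kr XS.toLinearMap (1 : Module.End k W')
          (kr XS.symm.toLinearMap (1 : Module.End k W') (X f)) := by rw [h3]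
    rw [kr_comp, kr_comp] at h4
    have e1 : XS.toLinearMap ∘ₗ XS.symm.toLinearMap = 1 :=
      LinearMap.ext fun s => XS.apply_symm_apply s
    have e2 : (1 : Module.End k W') ∘ₗ (1 : Module.End k W') = 1 := rfl
    rw [e1, e2, kr_one] at h4
    exact h4.symm
  have hBinj : Function.Injective B := by
    rw [← LinearMap.ker_eq_bot, eq_bot_iff]
    intro u hu
    rw [LinearMap.mem_ker] at hu
    have h3 : X (Pi.single i₀ u) = 0 := by
      rw [hXB]
      funext i
      rw [kr_single, hu, smul_zero]; rfl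
    rw [LinearEquiv.map_eq_zero_iff] at h3
    have h4 := congrFun h3 i₀
    rw [Pi.single_eq_same] at h4
    rw [Submodule.mem_bot]
    exact h4
  have hBsurj : Function.Surjective B := by
    intro w'
    obtain ⟨f, hf⟩ := X.surjective (kr XS.toLinearMap (1 : Module.End k W') (Pi.single i₀ w'))
    have h3 : Tm f = Pi.single i₀ w' := by
      rw [hTm, hf, kr_comp]
      have e1 : XS.symm.toLinearMap ∘ₗ XS.toLinearMap = 1 :=
        LinearMap.ext fun s => XS.symm_apply_apply s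
      have e2 : (1 : Module.End k W') ∘ₗ (1 : Module.End k W') = 1 := rfl
      rw [e1, e2, kr_one]
    refine ⟨f i₀, ?_⟩
    have h4 := congrFun h3 i₀
    rw [hB, Pi.single_eq_same, kr_apply, Finset.sum_eq_single i₀] at h4
    · rw [Module.End.one_apply, Pi.single_eq_same, one_smul] at h4
      exact h4
    · intro j _ hj
      rw [Module.End.one_apply, Pi.single_eq_of_ne (Ne.symm hj), zero_smul]
    · intro h5; exact absurd (Finset.mem_univ _) h5
  let XW : W ≃ₗ[k] W' := LinearEquiv.ofBijective B ⟨hBinj, hBsurj⟩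
  have hXW : XW.toLinearMap = B := rfl
  refine ⟨XS, XW, hitS, ?_, fun f => ?_⟩
  · intro a ha u
    rw [hXW]
    have hXne : XS.toLinearMap ≠ 0 := by
      intro h3
      have h4 := LinearMap.congr_fun h3 v
      exact hv ((LinearEquiv.map_eq_zero_iff XS).1 h4)
    have hca : cj x a ∈ fixAlg k h.unt N := cj_mem_fixAlg ha (h.norm_unt hx.1) (h.nm hx.1)
    have hcc : cj x c = c := invBy_iff_cj.1 h.inv x hx.1
    have h3 : kr XS.toLinearMap (B ∘ₗ φ a) = kr XS.toLinearMap (φ' (cj x a) ∘ₗ B) := by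
      refine LinearMap.ext fun f => ?_
      have h4 := act_itw hxM hX (cS Q (a * c)) f
      change X _ = _ at h4
      rw [tp_act h q hθ hb hφ a ha, ← cS_cj q hx.2, cj_mul, hcc,
        tp_act h q hθ' hb' hφ' _ hca, hXB] at h4
      change _ = kr _ _ (X f) at h4
      rw [hXB, kr_comp, kr_comp] at h4
      exact h4
    exact LinearMap.congr_fun (kr_right_inj hXne h3) u
  · rw [hXB, krE_apply, hXW]

theorem krE_itw {x : A} (hx : x ∈ K ⊓ T) (XS : (Fin n → k) ≃ₗ[k] (Fin n' → k)) (XW : W ≃ₗ[k] W')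
    (h1 : ItS (N ⊓ T) θ θ' x XS.toLinearMap) (h2 : ItC h.unt N φ φ' x XW.toLinearMap) :
    ItS (h.unt ⊓ T) (tp h q hθ hb hφ) (tp h q hθ' hb' hφ') x (krE XS XW).toLinearMap := by
  intro g g' hgg f
  obtain ⟨-, w, v, hwv⟩ := h.mem_unt.1 g.2.1
  have hwv' : UP N c g' (cj x w) (cj x v) := by
    rw [hgg]
    exact hwv.cj h hx.1
  have e1 : tp h q hθ hb hφ g = op Q θ φ g w v := tp_apply h q hθ hb hφ g.2 hwv
  have e2 : tp h q hθ' hb' hφ' g' = op Q θ' φ' g' (cj x w) (cj x v) :=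
    tp_apply h q hθ' hb' hφ' g'.2 hwv'
  rw [e1, e2]
  change kr _ _ (kr _ _ f) = kr _ _ (kr _ _ f)
  rw [kr_comp, kr_comp]
  have e3 : XS.toLinearMap ∘ₗ act θ (single (g : A) 1 * cS Q v)
      = act θ' (single (g' : A) 1 * cS Q (cj x v)) ∘ₗ XS.toLinearMap := by
    refine LinearMap.ext fun s => ?_
    have h3 := act_itw (nm_NT (T := T) h hx) h1 (single (g : A) 1 * cS Q v) s
    change XS (act θ _ s) = act θ' _ (XS s)
    change XS _ = act θ' _ (XS s) at h3
    rw [h3, cj_mul, ← cS_cj q hx.2]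
    congr 3
    rw [hgg]
    exact cj_sg x g
  have e4 : XW.toLinearMap ∘ₗ φ w = φ' (cj x w) ∘ₗ XW.toLinearMap :=
    LinearMap.ext fun s => h2 w (UP.mem h g.2.1 hwv).1 s
  rw [e3, e4]

end tp

end Pool.Agent.Lib.P0c8ca5.Un8
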