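import Mathlib
import Pool.Agent.Lib.P0c8ca5U.CmD

/-!
# Module CmE: every irreducible representation of `M ⊓ T` in `cS Q c` is a product

`exists_tp`.  Let `θ` be an irreducible subrepresentation of the restriction to `N ⊓ T`, `H` the space of the `(N ⊓ T)`-maps from `θ` to
`ρ`; `(kM)^N` acts on `H` by `a f = ρ(cS Q a) ∘ f`; `H₀` is a minimal stable subspace.  The evaluation `θ ⊗ H₀ → ρ` is an
intertwiner, so it is an isomorphism.
-/

namespace Pool.Agent.Lib.P0c8ca5.Un8

open MonoidAlgebra Bq Ps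

variable {p : ℕ} {k : Type*} [Field k] {A : Type*} [Group A]
variable {N K : Subgroup A} {c : MonoidAlgebra k A} {Q T : Subgroup A}

/-- postcomposition with the action of `cS Q a` -/
noncomputable def pc (Q : Subgroup A) {T' : Subgroup A} {S V : Type*} [AddCommGroup S] [Module k S]
    [AddCommGroup V] [Module k V] (ρ : Representation k T' V) (a : MonoidAlgebra k A) :
    Module.End k (S →ₗ[k] V) where
  toFun f := act ρ (cS Q a) ∘ₗ f
  map_add' f g := LinearMap.comp_add _ _ _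
  map_smul' s f := LinearMap.comp_smul _ _ _

theorem pc_apply (Q : Subgroup A) {T' : Subgroup A} {S V : Type*} [AddCommGroup S] [Module k S]
    [AddCommGroup V] [Module k V] (ρ : Representation k T' V) (a : MonoidAlgebra k A)
    (f : S →ₗ[k] V) (s : S) : pc Q ρ a f s = act ρ (cS Q a) (f s) := rfl

open Classical in
/-- the restriction of `pc` to a stable subspace, in coordinates -/
noncomputable def rc (C : Subalgebra k (MonoidAlgebra k A)) {X : Type*} [AddCommGroup X]
    [Module k X] (Φ : MonoidAlgebra k A → Module.End k X) (H₀ : Submodule k X) {m : ℕ}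
    (E : H₀ ≃ₗ[k] (Fin m → k)) (hst : ∀ a ∈ C, ∀ f ∈ H₀, Φ a f ∈ H₀) (a : MonoidAlgebra k A) :
    Module.End k (Fin m → k) :=
  if ha : a ∈ C then E.toLinearMap ∘ₗ (Φ a).restrict (hst a ha) ∘ₗ E.symm.toLinearMap else 0

theorem rc_apply (C : Subalgebra k (MonoidAlgebra k A)) {X : Type*} [AddCommGroup X]
    [Module k X] (Φ : MonoidAlgebra k A → Module.End k X) (H₀ : Submodule k X) {m : ℕ}
    (E : H₀ ≃ₗ[k] (Fin m → k)) (hst : ∀ a ∈ C, ∀ f ∈ H₀, Φ a f ∈ H₀) {a : MonoidAlgebra k A}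
    (ha : a ∈ C) (w : Fin m → k) :
    ((E.symm (rc C Φ H₀ E hst a w) : H₀) : X) = Φ a (E.symm w : H₀) := by
  rw [rc, dif_pos ha]
  change ((E.symm (E ((Φ a).restrict (hst a ha) (E.symm w))) : H₀) : X) = _
  rw [LinearEquiv.symm_apply_apply]
  rfl

theorem rc_apply' (C : Subalgebra k (MonoidAlgebra k A)) {X : Type*} [AddCommGroup X]
    [Module k X] (Φ : MonoidAlgebra k A → Module.End k X) (H₀ : Submodule k X) {m : ℕ}
    (E : H₀ ≃ₗ[k] (Fin m → k)) (hst : ∀ a ∈ C, ∀ f ∈ H₀, Φ a f ∈ H₀) {w w' : Fin m → k}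
    (hw : ((E.symm w : H₀) : X) = (E.symm w' : H₀)) : w = w' :=
  E.symm.injective (Subtype.ext hw)

theorem exists_CR {C M : Subgroup A} {X : Type*} [AddCommGroup X]
    [Module k X] [Module.Finite k X] (Φ : MonoidAlgebra k A → Module.End k X)
    (hmul : ∀ a ∈ fixAlg k M C, ∀ b ∈ fixAlg k M C, Φ (a * b) = Φ a * Φ b)
    (hadd : ∀ a ∈ fixAlg k M C, ∀ b ∈ fixAlg k M C, Φ (a + b) = Φ a + Φ b)
    (hsmul : ∀ (s : k), ∀ a ∈ fixAlg k M C, Φ (s • a) = s • Φ a)
    (hc : c ∈ fixAlg k M C)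
    (H : Submodule k X) (hH : H ≠ ⊥) (hHst : ∀ a ∈ fixAlg k M C, ∀ f ∈ H, Φ a f ∈ H)
    (hone : ∀ f ∈ H, Φ c f = f) :
    ∃ (H₀ : Submodule k X) (_ : H₀ ≤ H) (m : ℕ) (E : H₀ ≃ₗ[k] (Fin m → k))
      (φ : MonoidAlgebra k A → Module.End k (Fin m → k)), H₀ ≠ ⊥ ∧ CR M C c φ ∧
      ∀ a ∈ fixAlg k M C, ∀ w, ((E.symm (φ a w) : H₀) : X) = Φ a (E.symm w : H₀) := by
  classical
  let P : Set (Submodule k X) := {S | S ≠ ⊥ ∧ S ≤ H ∧ ∀ a ∈ fixAlg k M C, ∀ f ∈ S, Φ a f ∈ S}
  have hne : P.Nonempty := ⟨H, hH, le_rfl, hHst⟩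
  obtain ⟨H₀, hH₀, hmin⟩ := (wellFounded_lt (α := Submodule k X)).has_min P hne
  obtain ⟨h1, h2, h3⟩ := hH₀
  have hnt : Nontrivial H₀ := (Submodule.nontrivial_iff_ne_bot).2 h1
  let E : H₀ ≃ₗ[k] (Fin (Module.finrank k H₀) → k) := (Module.finBasis k H₀).equivFun
  refine ⟨H₀, h2, _, E, rc (fixAlg k M C) Φ H₀ E h3, h1, ?_, fun a ha w =>
    rc_apply _ Φ H₀ E h3 ha w⟩
  have hinj : ∀ {w w' : Fin (Module.finrank k H₀) → k},
      ((E.symm w : H₀) : X) = (E.symm w' : H₀) → w = w' := fun hw => rc_apply' (fixAlg k M C) Φ H₀ E h3 hw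
  have hap := fun {a : MonoidAlgebra k A} (ha : a ∈ fixAlg k M C) w => rc_apply (fixAlg k M C) Φ H₀ E h3 ha w
  refine ⟨fun a ha b hb => ?_, fun a ha b hb => ?_, fun s a ha => ?_, ?_, ?_, ?_⟩
  · refine LinearMap.ext fun w => hinj ?_
    rw [hap ((fixAlg k M C).mul_mem ha hb), hmul a ha b hb, Module.End.mul_apply,
      Module.End.mul_apply, hap ha, hap hb]
  · refine LinearMap.ext fun w => hinj ?_
    rw [hap ((fixAlg k M C).add_mem ha hb), hadd a ha b hb, LinearMap.add_apply,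
      LinearMap.add_apply, map_add, Submodule.coe_add, hap ha, hap hb]
  · refine LinearMap.ext fun w => hinj ?_
    rw [hap ((fixAlg k M C).smul_mem ha s), hsmul s a ha, LinearMap.smul_apply,
      LinearMap.smul_apply, map_smul, Submodule.coe_smul, hap ha]
  · refine LinearMap.ext fun w => hinj ?_
    rw [hap hc, hone _ (h2 (E.symm w).2)]
    rfl
  · exact E.symm.toEquiv.nontrivial
  · intro U hU
    have hU' : ∀ a ∈ fixAlg k M C, ∀ f ∈ (U.comap E.toLinearMap).map H₀.subtype,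
        Φ a f ∈ (U.comap E.toLinearMap).map H₀.subtype := by
      rintro a ha _ ⟨f, hf, rfl⟩
      have h4 := hU a ha (E f) hf
      have h5 := hap ha (E f)
      rw [LinearEquiv.symm_apply_apply] at h5
      refine ⟨E.symm (rc (fixAlg k M C) Φ H₀ E h3 a (E f)), ?_, h5⟩
      change E (E.symm _) ∈ U
      rwa [LinearEquiv.apply_symm_apply]
    by_cases hbot : (U.comap E.toLinearMap).map H₀.subtype = ⊥
    · left
      rw [eq_bot_iff]
      intro w hw
      have h4 : ((E.symm w : H₀) : X) ∈ (U.comap E.toLinearMap).map H₀.subtype :=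
        ⟨E.symm w, by change E (E.symm w) ∈ U; rwa [LinearEquiv.apply_symm_apply], rfl⟩
      rw [hbot, Submodule.mem_bot] at h4
      rw [Submodule.mem_bot]
      have h5 : E.symm w = 0 := Subtype.ext h4
      rw [LinearEquiv.map_eq_zero_iff] at h5
      exact h5
    · right
      have hle : (U.comap E.toLinearMap).map H₀.subtype ≤ H₀ := by
        rintro _ ⟨f, -, rfl⟩
        exact f.2
      have h4 := hmin _ (⟨hbot, hle.trans h2, hU'⟩ : _ ∈ P)
      have h5 : (U.comap E.toLinearMap).map H₀.subtype = H₀ := by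
        rcases hle.lt_or_eq with h6 | h6
        · exact absurd h6 h4
        · exact h6
      rw [eq_top_iff]
      intro w _
      have h6 : ((E.symm w : H₀) : X) ∈ (U.comap E.toLinearMap).map H₀.subtype := by
        rw [h5]; exact (E.symm w).2
      obtain ⟨f, hf, hfe⟩ := h6
      have h7 : f = E.symm w := Subtype.ext hfe
      rw [h7] at hf
      change E (E.symm w) ∈ U at hf
      rwa [LinearEquiv.apply_symm_apply] at hf

section

variable [Fact p.Prime] [CharP k p] [IsAlgClosed k] [Fintype A]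

theorem exists_tp (h : UH N K c) (q : QT p N Q T) {d : ℕ} {ρ : Rp k (h.unt ⊓ T) d}
    (hρ : Irr' ρ) (hb : act ρ (cS Q c) = 1) :
    ∃ (n : ℕ) (θ : Rp k (N ⊓ T) n) (hθ : Irr' θ) (hbθ : act θ (cS Q c) = 1) (m : ℕ)
      (φ : MonoidAlgebra k A → Module.End k (Fin m → k)) (hφ : CR h.unt N c φ),
      Iso (tp h q hθ hbθ hφ) ρ := by
  classical
  have hle : N ⊓ T ≤ h.unt ⊓ T := inf_le_inf_right _ h.le_unt
  have := hρ.nontriv
  obtain ⟨U, hU, n, θ, E, hUirr, hθ, hE⟩ :=
    exists_irr_sub_fin (ρ.comp (Subgroup.inclusion hle))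
  obtain ⟨j, hj⟩ : ∃ j : (Fin n → k) →ₗ[k] (Fin d → k), j = U.subtype ∘ₗ E.symm.toLinearMap :=
    ⟨_, rfl⟩
  have hjinj : Function.Injective j := by
    rw [hj]
    exact U.injective_subtype.comp E.symm.injective
  have hjeq : ∀ (g : ↥(N ⊓ T)) s, j (θ g s) = ρ (Subgroup.inclusion hle g) (j s) := by
    intro g s
    obtain ⟨u, rfl⟩ := E.surjective s
    rw [hE, hj]
    change ((E.symm (E (subRep _ U hU g u)) : U) : Fin d → k)
      = ρ (Subgroup.inclusion hle g) ((E.symm (E u) : U) : Fin d → k)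
    rw [LinearEquiv.symm_apply_apply, LinearEquiv.symm_apply_apply]
    rfl
  -- the action of the group algebra of `N ⊓ T` under equivariant maps
  have hact : ∀ (f : (Fin n → k) →ₗ[k] (Fin d → k)),
      (∀ (g : ↥(N ⊓ T)) s, f (θ g s) = ρ (Subgroup.inclusion hle g) (f s)) →
      ∀ u : MonoidAlgebra k A, SuppIn (N ⊓ T) u → ∀ s, f (act θ u s) = act ρ u (f s) := by
    intro f hf u hu s
    have : Fintype ↥(N ⊓ T) := Fintype.ofFinite _
    have : Fintype ↥(h.unt ⊓ T) := Fintype.ofFinite _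
    rw [act_apply, act_apply, map_sum]
    apply Fintype.sum_of_injective (fun g : ↥(N ⊓ T) => Subgroup.inclusion hle g)
      (Subgroup.inclusion_injective hle)
    · intro x hx
      have h2 : u.coeff (x : A) = 0 := by
        by_contra h3
        exact hx ⟨⟨x, hu x h3⟩, rfl⟩
      rw [h2, zero_smul]
    · intro g
      rw [map_smul, hf]
      rfl
  have hcs : SuppIn (N ⊓ T) (cS Q c) := supp_cS q h.blk.suppIn
  have hbθ : act θ (cS Q c) = 1 := by
    refine LinearMap.ext fun s => hjinj ?_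
    rw [hact j hjeq _ hcs, hb]
    rfl
  -- the space of equivariant maps
  let H : Submodule k ((Fin n → k) →ₗ[k] (Fin d → k)) :=
    { carrier := {f | ∀ (g : ↥(N ⊓ T)) s, f (θ g s) = ρ (Subgroup.inclusion hle g) (f s)}
      add_mem' := by
        intro f f' hf hf' g s
        rw [LinearMap.add_apply, LinearMap.add_apply, hf, hf', map_add]
      zero_mem' := by
        intro g s
        rw [LinearMap.zero_apply, LinearMap.zero_apply, map_zero]
      smul_mem' := by
        intro t f hf g s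
        rw [LinearMap.smul_apply, LinearMap.smul_apply, hf, map_smul] }
  have hjH : j ∈ H := hjeq
  have hHne : H ≠ ⊥ := by
    intro h0
    rw [h0, Submodule.mem_bot] at hjH
    have h1 := hθ.nontriv
    obtain ⟨v, hv⟩ := exists_ne (0 : Fin n → k)
    apply hv
    apply hjinj
    rw [hjH]
    rfl
  have hcsM : ∀ a : MonoidAlgebra k A, SuppIn h.unt a → SuppIn (h.unt ⊓ T) (cS Q a) :=
    fun a ha => supp_cS q ha
  obtain ⟨H₀, hH₀, m, E₀, φ, hH₀ne, hφ, hφE⟩ := exists_CR (c := c) (C := N) (M := h.unt)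
    (pc (S := Fin n → k) Q ρ)
    (fun a ha b hb' => by
      refine LinearMap.ext fun f => LinearMap.ext fun s => ?_
      rw [pc_apply, cS_mul q (mem_fixAlg.1 ha).2 (mem_fixAlg.1 hb').2,
        act_mul _ (hcsM a (mem_fixAlg.1 ha).1)]
      rfl)
    (fun a ha b hb' => by
      refine LinearMap.ext fun f => LinearMap.ext fun s => ?_
      rw [pc_apply]
      change act ρ (resS _ (a + b)) _ = _
      rw [resS_add, act_add']
      rfl)
    (fun t a ha => by
      refine LinearMap.ext fun f => LinearMap.ext fun s => ?_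
      rw [pc_apply]
      change act ρ (resS _ (t • a)) _ = _
      rw [resS_smul, LnBAux.act_smul']
      rfl)
    (mem_MN h h.blk.mem) H hHne
    (fun a ha f hf => by
      intro g s
      rw [pc_apply, pc_apply, hf]
      have hinv : InvBy (N ⊓ T) (cS Q a) := cS_inv q (mem_fixAlg.1 ha).2
      have h1 : single (g : A) (1 : k) * cS Q a = cS Q a * single (g : A) 1 :=
        commute_of (supp_sg g.2) hinv
      have hgM : (g : A) ∈ h.unt ⊓ T := hle g.2
      have h2 := act_mul ρ (a := single (g : A) (1 : k)) (b := cS Q a) (supp_sg hgM)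
      have h3 := act_mul ρ (a := cS Q a) (b := single (g : A) (1 : k))
        (hcsM a (mem_fixAlg.1 ha).1)
      rw [h1, h3, LnBAux.act_sg ρ hgM] at h2
      exact LinearMap.congr_fun h2 (f s))
    (fun f hf => by
      refine LinearMap.ext fun s => ?_
      rw [pc_apply, hb]
      rfl)
  refine ⟨n, θ, hθ, hbθ, m, φ, hφ, ?_⟩
  -- the evaluation
  let ev : (Fin n → (Fin m → k)) →ₗ[k] (Fin d → k) :=
    { toFun := fun f => ∑ i, (E₀.symm (f i) : (Fin n → k) →ₗ[k] (Fin d → k)) (Pi.single i 1)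
      map_add' := fun f f' => by
        simp only [Pi.add_apply, map_add, Submodule.coe_add, LinearMap.add_apply,
          Finset.sum_add_distrib]
      map_smul' := fun t f => by
        simp only [Pi.smul_apply, map_smul, Submodule.coe_smul, LinearMap.smul_apply,
          RingHom.id_apply, Finset.smul_sum] }
  have hev : ∀ f, ev f = ∑ i, (E₀.symm (f i) : (Fin n → k) →ₗ[k] (Fin d → k)) (Pi.single i 1) :=
    fun f => rfl
  have hkr : ∀ (a : Module.End k (Fin n → k)) (B : Module.End k (Fin m → k))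
      (f : Fin n → (Fin m → k)), ev (kr a B f)
        = ∑ j, (E₀.symm (B (f j)) : (Fin n → k) →ₗ[k] (Fin d → k)) (a (Pi.single j 1)) := by
    intro a B f
    rw [hev]
    simp only [kr_apply, map_sum, map_smul, Submodule.coe_sum, Submodule.coe_smul,
      LinearMap.sum_apply, LinearMap.smul_apply]
    rw [Finset.sum_comm]
    refine Finset.sum_congr rfl fun j _ => ?_
    have h1 : a (Pi.single j 1) = ∑ i, a (Pi.single j 1) i • (Pi.single i 1 : Fin n → k) := by
      conv_lhs => rw [← Finset.univ_sum_single (a (Pi.single j 1))]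
      refine Finset.sum_congr rfl fun i _ => ?_
      rw [← Pi.single_smul, smul_eq_mul, mul_one]
    conv_rhs => rw [h1, map_sum]
    refine Finset.sum_congr rfl fun i _ => ?_
    rw [map_smul]
  have hItS : ItS (h.unt ⊓ T) (tp h q hθ hbθ hφ) ρ 1 ev := by
    intro g g' hgg f
    have hg' : g' = g := Subtype.ext (by rw [hgg]; group)
    subst hg'
    obtain ⟨-, w, v, hwv⟩ := h.mem_unt.1 g'.2.1
    have hgK : (g' : A) ∈ K ⊓ T := ⟨h.unt_le g'.2.1, g'.2.2⟩
    have hsv : SuppIn (N ⊓ T) (single (g' : A) 1 * cS Q v) := supp_left h q hgK hwv.sv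
    have hwM := (UP.mem h g'.2.1 hwv).1
    have e1 : tp h q hθ hbθ hφ g' = op Q θ φ g' w v := tp_apply h q hθ hbθ hφ g'.2 hwv
    rw [e1, op, hkr, hev, map_sum]
    refine Finset.sum_congr rfl fun j _ => ?_
    rw [hφE w hwM, pc_apply]
    have hfH : ((E₀.symm (f j) : H₀) : (Fin n → k) →ₗ[k] (Fin d → k)) ∈ H := hH₀ (E₀.symm (f j)).2
    rw [hact _ hfH _ hsv, ← Module.End.mul_apply (act ρ (cS Q w)),
      ← act_mul _ (hcsM w (mem_fixAlg.1 hwM).1)]
    have e2 : cS Q w * (single (g' : A) 1 * cS Q v) = single (g' : A) 1 * cS Q c := by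
      have e3 : (single (g' : A) (1 : k) * cS Q v) * cS Q w = cS Q w * (single (g' : A) 1 * cS Q v) :=
        cS_comm q hwv.iu hsv
      rw [← e3, mul_assoc, ← cS_mul q hwv.iv hwv.iu, hwv.vu]
    rw [e2, act_mul _ (supp_sg g'.2), hb, mul_one, LnBAux.act_sg ρ g'.2]
  have hevne : ev ≠ 0 := by
    intro h0
    obtain ⟨f₀, hf₀, hf₀ne⟩ := (Submodule.ne_bot_iff _).1 hH₀ne
    apply hf₀ne
    refine LinearMap.pi_ext' fun i => LinearMap.ext_ring ?_
    have h1 := LinearMap.congr_fun h0 (Pi.single i (E₀ ⟨f₀, hf₀⟩))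
    rw [hev, Finset.sum_eq_single i] at h1
    · rw [Pi.single_eq_same, LinearEquiv.symm_apply_apply] at h1
      exact h1
    · intro l _ hl
      rw [Pi.single_eq_of_ne hl, map_zero]
      rfl
    · intro h2; exact absurd (Finset.mem_univ _) h2
  have hbij := hItS.bijective (Subgroup.one_mem _) (tp_irr h q hθ hbθ hφ) hρ hevne
  refine ⟨LinearEquiv.ofBijective ev hbij, fun g f => ?_⟩
  exact hItS g g (by group) f

end

end Pool.Agent.Lib.P0c8ca5.Un8
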