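import Mathlib
import Pool.Agent.Lib.P0c8ca5U.CmE
import Pool.Agent.Lib.P0c8ca5U.DefW

/-!
# Module CmF: the symbol of a product is the product of the symbols

* `OmC`, `omC`: the symbol of a simple module of `(kM)^N` relative to a unit `w` over `[y, x]`.
* `omg_unique'`, `omw_unique`, `omC_unique`: the symbols are well defined.
* `omw_exists`, `omC_exists`: they exist if there are intertwiners.
* `om_tp`: `om (tp ..) x y = omw θ x y ([y, x] cS Q v) * omC φ x y w`.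
-/

namespace Pool.Agent.Lib.P0c8ca5.Un8

open MonoidAlgebra Bq Ps

variable {p : ℕ} {k : Type*} [Field k] {A : Type*} [Group A]
variable {N K : Subgroup A} {c : MonoidAlgebra k A} {Q T : Subgroup A}
variable {n n' : ℕ} {W W' : Type*} [AddCommGroup W] [Module k W] [AddCommGroup W'] [Module k W']

/-- `Y X = t φ(w) X Y` for some intertwiners `X`, `Y` of `x`, `y` -/
def OmC (M N : Subgroup A) (φ : MonoidAlgebra k A → Module.End k W) (x y : A)
    (w : MonoidAlgebra k A) (t : k) : Prop :=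
  ∃ (X Y : W ≃ₗ[k] W), ItC M N φ φ x X.toLinearMap ∧ ItC M N φ φ y Y.toLinearMap ∧
    ∀ u, Y (X u) = t • φ w (X (Y u))

open Classical in
/-- the symbol of a simple module of `(kM)^N` -/
noncomputable def omC (M N : Subgroup A) (φ : MonoidAlgebra k A → Module.End k W) (x y : A)
    (w : MonoidAlgebra k A) : k :=
  if h : ∃ t : k, OmC M N φ x y w t then h.choose else 0

theorem itw_itS {N : Subgroup A} {V : Type*} [AddCommGroup V] [Module k V]
    {ρ : Representation k N V} {x : A} {X : V ≃ₗ[k] V} :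
    Gg.Itw N ρ x X ↔ ItS N ρ ρ x X.toLinearMap := Iff.rfl

section uniq

variable {V : Type*} [AddCommGroup V] [Module k V] [Module.Finite k V]

/-- intertwiners of an irreducible representation are unique up to scalars -/
theorem itS_unique [IsAlgClosed k] {N : Subgroup A} {ρ : Representation k N V} (hρ : Irr' ρ)
    {x : A} {X X' : V ≃ₗ[k] V} (hx : x ∈ Subgroup.normalizer (N : Set A))
    (h : ItS N ρ ρ x X.toLinearMap) (h' : ItS N ρ ρ x X'.toLinearMap) :
    ∃ s : k, ∀ v, X' v = s • X v := by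
  have hmem : ∀ g : N, x * g * x⁻¹ ∈ N := fun g => (Subgroup.mem_normalizer_iff.1 hx _).1 g.2
  obtain ⟨s, hs⟩ := Cy.ExtAux.schur_end hρ (X.symm.toLinearMap ∘ₗ X'.toLinearMap) (fun g v => by
    have h1 := h g ⟨_, hmem g⟩ rfl (X.symm (X' v))
    have h2 := h' g ⟨_, hmem g⟩ rfl v
    change X (ρ g _) = ρ _ (X _) at h1
    change X' (ρ g v) = ρ _ (X' v) at h2
    change X.symm (X' (ρ g v)) = ρ g (X.symm (X' v))
    rw [LinearEquiv.apply_symm_apply] at h1
    rw [h2, ← h1, LinearEquiv.symm_apply_apply])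
  refine ⟨s, fun v => ?_⟩
  have h1 := congrArg X (hs v)
  change X (X.symm (X' v)) = X (s • v) at h1
  rwa [LinearEquiv.apply_symm_apply, map_smul] at h1

theorem itC_unique [IsAlgClosed k] [Module.Finite k W] {M : Subgroup A}
    {φ : MonoidAlgebra k A → Module.End k W} (hφ : CR M N c φ) {x : A} {X X' : W ≃ₗ[k] W}
    (h : ItC M N φ φ x X.toLinearMap) (h' : ItC M N φ φ x X'.toLinearMap) :
    ∃ s : k, ∀ v, X' v = s • X v := by
  obtain ⟨s, hs⟩ := hφ.schur (T := X.symm.toLinearMap ∘ₗ X'.toLinearMap) (fun a ha v => by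
    have h1 := h a ha (X.symm (X' v))
    have h2 := h' a ha v
    change X (φ a _) = φ _ (X _) at h1
    change X' (φ a v) = φ _ (X' v) at h2
    change X.symm (X' (φ a v)) = φ a (X.symm (X' v))
    rw [LinearEquiv.apply_symm_apply] at h1
    rw [h2, ← h1, LinearEquiv.symm_apply_apply])
  refine ⟨s, fun v => ?_⟩
  have h1 := congrArg X (LinearMap.congr_fun hs v)
  change X (X.symm (X' v)) = X (s • v) at h1
  rwa [LinearEquiv.apply_symm_apply, map_smul] at h1

/-- the scalar in `Y X = t a X Y` does not depend on the choices -/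
theorem scal_uniq [Nontrivial V] {a : Module.End k V} (ha : Function.Injective a)
    {X Y X' Y' : V ≃ₗ[k] V} {s s' c d : k} (h : ∀ v, Y (X v) = s • a (X (Y v)))
    (h' : ∀ v, Y' (X' v) = s' • a (X' (Y' v))) (hX : ∀ v, X' v = c • X v)
    (hY : ∀ v, Y' v = d • Y v) : s = s' := by
  obtain ⟨v, hv⟩ := exists_ne (0 : V)
  have hc : c ≠ 0 := by
    rintro rfl
    have := hX v
    rw [zero_smul, LinearEquiv.map_eq_zero_iff] at this
    exact hv this
  have hd : d ≠ 0 := by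
    rintro rfl
    have := hY v
    rw [zero_smul, LinearEquiv.map_eq_zero_iff] at this
    exact hv this
  have h1 := h' v
  rw [hY, hX, hX, hY, map_smul, h v] at h1
  simp only [map_smul, smul_smul] at h1
  have h2 : a (X (Y v)) ≠ 0 := by
    intro h3
    have h4 : X (Y v) = 0 := ha (by rw [h3, map_zero])
    rw [LinearEquiv.map_eq_zero_iff, LinearEquiv.map_eq_zero_iff] at h4
    exact hv h4
  have h3 := smul_left_injective k h2 h1
  have h4 : d * c * (s - s') = 0 := by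
    linear_combination h3
  rcases mul_eq_zero.1 h4 with h5 | h5
  · exact absurd h5 (mul_ne_zero hd hc)
  · exact sub_eq_zero.1 h5

theorem omg_unique' [IsAlgClosed k] {N : Subgroup A} {ρ : Representation k N V} (hρ : Irr' ρ)
    {x y : A} (hx : x ∈ Subgroup.normalizer (N : Set A))
    (hy : y ∈ Subgroup.normalizer (N : Set A)) {s s' : k} (h : Gg.Omg N ρ x y s)
    (h' : Gg.Omg N ρ x y s') : s = s' := by
  have := hρ.nontriv
  obtain ⟨X, Y, z, hX, hY, hz, h1⟩ := h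
  obtain ⟨X', Y', z', hX', hY', hz', h1'⟩ := h'
  have hzz : z' = z := Subtype.ext (by rw [hz, hz'])
  subst hzz
  obtain ⟨c, hc⟩ := itS_unique hρ hx hX hX'
  obtain ⟨d, hd⟩ := itS_unique hρ hy hY hY'
  refine scal_uniq (a := ρ z') (fun u v huv => ?_) h1 h1' hc hd
  have h2 := congrArg (ρ z'⁻¹) huv
  rw [← Module.End.mul_apply, ← Module.End.mul_apply, ← map_mul, inv_mul_cancel, map_one] at h2
  exact h2

theorem om_eq' [IsAlgClosed k] {N : Subgroup A} {ρ : Representation k N V} (hρ : Irr' ρ)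
    {x y : A} (hx : x ∈ Subgroup.normalizer (N : Set A))
    (hy : y ∈ Subgroup.normalizer (N : Set A)) {s : k} (h : Gg.Omg N ρ x y s) :
    Gg.om N ρ x y = s := by
  classical
  have h1 : ∃ s : k, Gg.Omg N ρ x y s := ⟨s, h⟩
  have h2 : Gg.om N ρ x y = h1.choose := dif_pos h1
  rw [h2]
  exact omg_unique' hρ hx hy h1.choose_spec h

theorem omw_eq [IsAlgClosed k] {N : Subgroup A} {ρ : Representation k N V} (hρ : Irr' ρ)
    {x y : A} (hx : x ∈ Subgroup.normalizer (N : Set A))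
    (hy : y ∈ Subgroup.normalizer (N : Set A)) {e : MonoidAlgebra k A}
    (he : Function.Injective (act ρ e)) {t : k} (h : Omw N ρ x y e t) : omw N ρ x y e = t := by
  classical
  have := hρ.nontriv
  have h1 : ∃ t : k, Omw N ρ x y e t := ⟨t, h⟩
  have h2 : omw N ρ x y e = h1.choose := dif_pos h1
  rw [h2]
  obtain ⟨X, Y, hX, hY, h3⟩ := h1.choose_spec
  obtain ⟨X', Y', hX', hY', h3'⟩ := h
  obtain ⟨c, hc⟩ := itS_unique hρ hx hX hX'
  obtain ⟨d, hd⟩ := itS_unique hρ hy hY hY'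
  exact scal_uniq he h3 h3' hc hd

theorem omC_eq [IsAlgClosed k] [Module.Finite k W] {M : Subgroup A}
    {φ : MonoidAlgebra k A → Module.End k W} (hφ : CR M N c φ) {x y : A}
    {w : MonoidAlgebra k A} (hw : Function.Injective (φ w)) {t : k} (h : OmC M N φ x y w t) :
    omC M N φ x y w = t := by
  classical
  have := hφ.nontriv
  have h1 : ∃ t : k, OmC M N φ x y w t := ⟨t, h⟩
  have h2 : omC M N φ x y w = h1.choose := dif_pos h1
  rw [h2]
  obtain ⟨X, Y, hX, hY, h3⟩ := h1.choose_spec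
  obtain ⟨X', Y', hX', hY', h3'⟩ := h
  obtain ⟨c, hc⟩ := itC_unique hφ hX hX'
  obtain ⟨d, hd⟩ := itC_unique hφ hY hY'
  exact scal_uniq hw h3 h3' hc hd

end uniq

section exist

/-- two bijective maps that differ by a scalar -/
theorem scal_of {V : Type*} [AddCommGroup V] [Module k V] [Nontrivial V] {X Y : V ≃ₗ[k] V}
    {a : Module.End k V} {B : V ≃ₗ[k] V}
    (hB : ∀ v, B v = a (X (Y v))) {s : k} (hs : ∀ v, Y (X v) = s • B v) :
    ∃ t : k, t ≠ 0 ∧ ∀ v, Y (X v) = t • a (X (Y v)) := by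
  refine ⟨s, ?_, fun v => by rw [hs, hB]⟩
  rintro rfl
  obtain ⟨v, hv⟩ := exists_ne (0 : V)
  have h1 := hs v
  rw [zero_smul, LinearEquiv.map_eq_zero_iff, LinearEquiv.map_eq_zero_iff] at h1
  exact hv h1

/-- the conjugation by a homogeneous element -/
theorem unit_conj {g : A} {w z : MonoidAlgebra k A} (hg : g ∈ Subgroup.normalizer (N : Set A))
    (hw : ∀ y, w.coeff y ≠ 0 → y * g⁻¹ ∈ N) (hz : InvBy N z) : w * z = cj g z * w := by
  have e1 : w = single g (1 : k) * (single g⁻¹ 1 * w) := by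
    rw [← mul_assoc, single_mul_single, mul_inv_cancel, one_mul]
    exact (sg_one_mul _).symm
  have s1 : SuppIn N (single g⁻¹ (1 : k) * w) := by
    intro y hy
    rw [coeff_single_mul_apply, one_mul, inv_inv] at hy
    have h1 := (Subgroup.mem_normalizer_iff.1 (inv_mem hg) _).1 (hw _ hy)
    have e : g⁻¹ * (g * y * g⁻¹) * g⁻¹⁻¹ = y := by group
    rwa [e] at h1
  have e2 : single g⁻¹ (1 : k) * w * z = z * (single g⁻¹ 1 * w) := commute_of s1 hz
  have e3 : single g (1 : k) * z = cj g z * single g 1 := by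
    ext y
    rw [coeff_single_mul_apply, coeff_mul_single_apply, coeff_cj, one_mul, mul_one]
    congr 1
    group
  calc w * z = single g (1 : k) * (single g⁻¹ 1 * w * z) := by
        conv_lhs => rw [e1]
        simp only [mul_assoc]
    _ = single g (1 : k) * z * (single g⁻¹ 1 * w) := by rw [e2]; simp only [mul_assoc]
    _ = cj g z * (single g 1 * (single g⁻¹ 1 * w)) := by rw [e3]; simp only [mul_assoc]
    _ = cj g z * w := by rw [← e1]

variable [Fact p.Prime] [CharP k p] [IsAlgClosed k] [Fintype A]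

theorem act_e_inv (h : UH N K c) (q : QT p N Q T) {θ : Rp k (N ⊓ T) n}
    (hb : act θ (cS Q c) = 1) {g : A} (hg : g ∈ h.unt ⊓ T) {w v : MonoidAlgebra k A}
    (hwv : UP N c g w v) :
    act θ (single g 1 * cS Q v) * act θ (single g⁻¹ 1 * cS Q w) = 1 ∧
    act θ (single g⁻¹ 1 * cS Q w) * act θ (single g 1 * cS Q v) = 1 := by
  have key : ∀ {g : A} (hg : g ∈ h.unt ⊓ T) {w v : MonoidAlgebra k A} (hwv : UP N c g w v),
      act θ (single g 1 * cS Q v) * act θ (single g⁻¹ 1 * cS Q w) = 1 := by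
    intro g hg w v hwv
    have hgK : g ∈ K ⊓ T := ⟨h.unt_le hg.1, hg.2⟩
    have s2 : SuppIn (N ⊓ T) (single g⁻¹ (1 : k) * cS Q w) :=
      supp_left h q (Subgroup.inv_mem _ hgK) hwv.su
    have s3 : SuppIn (N ⊓ T) (single g (1 : k) * cS Q v) := supp_left h q hgK hwv.sv
    have e2 : single g (1 : k) * cS Q v * (single g⁻¹ (1 : k) * cS Q w) = cS Q c := by
      have e3 : cS Q v * (single g⁻¹ (1 : k) * cS Q w)
          = (single g⁻¹ (1 : k) * cS Q w) * cS Q v := (cS_comm q hwv.iv s2).symm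
      have e4 : single g (1 : k) * single g⁻¹ 1 = (1 : MonoidAlgebra k A) := by
        rw [single_mul_single, mul_inv_cancel, one_mul]; rfl
      rw [mul_assoc, e3, mul_assoc, ← cS_mul q hwv.iu hwv.iv, hwv.uv, ← mul_assoc, e4, one_mul]
    rw [← act_mul _ s3, e2, hb]
  refine ⟨key hg hwv, ?_⟩
  have h1 := key (Subgroup.inv_mem _ hg) hwv.symm
  rwa [inv_inv] at h1

theorem omw_exists (h : UH N K c) (q : QT p N Q T) {θ : Rp k (N ⊓ T) n} (hθ : Irr' θ)
    (hb : act θ (cS Q c) = 1) {x y : A} (hx : x ∈ K ⊓ T) (hy : y ∈ K ⊓ T)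
    (hg : y * x * y⁻¹ * x⁻¹ ∈ h.unt ⊓ T) {w v : MonoidAlgebra k A}
    (hwv : UP N c (y * x * y⁻¹ * x⁻¹) w v) {X Y : (Fin n → k) ≃ₗ[k] (Fin n → k)}
    (hX : ItS (N ⊓ T) θ θ x X.toLinearMap) (hY : ItS (N ⊓ T) θ θ y Y.toLinearMap) :
    ∃ t : k, t ≠ 0 ∧
      ∀ u, Y (X u) = t • act θ (single (y * x * y⁻¹ * x⁻¹) 1 * cS Q v) (X (Y u)) := by
  have := hθ.nontriv
  obtain ⟨g, hgdef⟩ : ∃ g, g = y * x * y⁻¹ * x⁻¹ := ⟨_, rfl⟩
  rw [← hgdef] at hg hwv ⊢
  obtain ⟨i1, i2⟩ := act_e_inv h q hb hg hwv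
  have hgK : g ∈ K ⊓ T := ⟨h.unt_le hg.1, hg.2⟩
  have hinj : Function.Injective (act θ (single g 1 * cS Q v)) := by
    intro a b hab
    have h1 := congrArg (act θ (single g⁻¹ 1 * cS Q w)) hab
    rw [← Module.End.mul_apply, ← Module.End.mul_apply, i2] at h1
    exact h1
  let a : (Fin n → k) ≃ₗ[k] (Fin n → k) :=
    LinearEquiv.ofLinearMap (act θ (single g 1 * cS Q v)) (act θ (single g⁻¹ 1 * cS Q w)) i1 i2
  have ha : ∀ u, a u = act θ (single g 1 * cS Q v) u := fun u => rfl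
  have hxn := nm_NT (T := T) h hx
  have hyn := nm_NT (T := T) h hy
  have hgn := nm_NT (T := T) h hgK
  have h1 : ItS (N ⊓ T) θ θ (y * x) (X.trans Y).toLinearMap := by
    intro m m' hm u
    have hxm : x * m * x⁻¹ ∈ N ⊓ T := (Subgroup.mem_normalizer_iff.1 hxn _).1 m.2
    change Y (X (θ m u)) = θ m' (Y (X u))
    have h2 := hX m ⟨_, hxm⟩ rfl u
    change X (θ m u) = θ _ (X u) at h2
    have h3 := hY ⟨_, hxm⟩ m' (by rw [hm]; change y * x * m * (y * x)⁻¹ = y * (x * m * x⁻¹) * y⁻¹; group) (X u)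
    change Y (θ _ (X u)) = θ m' (Y (X u)) at h3
    rw [h2, h3]
  have h2 : ItS (N ⊓ T) θ θ (y * x) ((Y.trans X).trans a).toLinearMap := by
    intro m m' hm u
    have hym : y * m * y⁻¹ ∈ N ⊓ T := (Subgroup.mem_normalizer_iff.1 hyn _).1 m.2
    have hxym : x * (y * m * y⁻¹) * x⁻¹ ∈ N ⊓ T := (Subgroup.mem_normalizer_iff.1 hxn _).1 hym
    change a (X (Y (θ m u))) = θ m' (a (X (Y u)))
    have h3 := hY m ⟨_, hym⟩ rfl u
    change Y (θ m u) = θ _ (Y u) at h3
    have h4 := hX ⟨_, hym⟩ ⟨_, hxym⟩ rfl (Y u)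
    change X (θ _ (Y u)) = θ _ (X (Y u)) at h4
    rw [h3, h4, ha, ha]
    have s3 : SuppIn (N ⊓ T) (single g (1 : k) * cS Q v) := supp_left h q hgK hwv.sv
    have e1 : single g (1 : k) * cS Q v * single (x * (y * m * y⁻¹) * x⁻¹) 1
        = single (m' : A) 1 * (single g 1 * cS Q v) := by
      have e2 : single (x * (y * (m : A) * y⁻¹) * x⁻¹) (1 : k) * cS Q v
          = cS Q v * single (x * (y * m * y⁻¹) * x⁻¹) 1 := cS_comm q hwv.iv (supp_sg hxym)
      have e3 : single (m' : A) (1 : k) * (single g 1 * cS Q v)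
          = single ((m' : A) * g) 1 * cS Q v := by
        rw [← mul_assoc (single (m' : A) (1 : k)), single_mul_single, one_mul]
      have e4 : single g (1 : k) * (single (x * (y * (m : A) * y⁻¹) * x⁻¹) 1 * cS Q v)
          = single (g * (x * (y * (m : A) * y⁻¹) * x⁻¹)) 1 * cS Q v := by
        rw [← mul_assoc (single g (1 : k)), single_mul_single, one_mul]
      have e5 : g * (x * (y * (m : A) * y⁻¹) * x⁻¹) = (m' : A) * g := by
        rw [hgdef, hm]
        group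
      rw [mul_assoc, ← e2, e4, e3, e5]
    have e3 := act_mul θ (a := single g (1 : k) * cS Q v)
      (b := single (x * (y * (m : A) * y⁻¹) * x⁻¹) (1 : k)) s3
    have e4 := act_mul θ (a := single (m' : A) (1 : k)) (b := single g (1 : k) * cS Q v)
      (supp_sg m'.2)
    rw [e1, e4, LnBAux.act_sg θ hxym, LnBAux.act_sg θ m'.2] at e3
    exact (LinearMap.congr_fun e3 (X (Y u))).symm
  obtain ⟨s, hs⟩ := itS_unique hθ ((Subgroup.normalizer _).mul_mem hyn hxn) h2 h1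
  exact scal_of (X := X) (Y := Y) (B := (Y.trans X).trans a) (fun v => rfl) hs

theorem omC_exists [Module.Finite k W] (h : UH N K c) {φ : MonoidAlgebra k A → Module.End k W}
    (hφ : CR h.unt N c φ) {x y : A} (hx : x ∈ K) (hy : y ∈ K)
    (hg : y * x * y⁻¹ * x⁻¹ ∈ h.unt) {w v : MonoidAlgebra k A}
    (hwv : UP N c (y * x * y⁻¹ * x⁻¹) w v) {X Y : W ≃ₗ[k] W}
    (hX : ItC h.unt N φ φ x X.toLinearMap) (hY : ItC h.unt N φ φ y Y.toLinearMap) :
    ∃ t : k, t ≠ 0 ∧ ∀ u, Y (X u) = t • φ w (X (Y u)) := by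
  have := hφ.nontriv
  obtain ⟨g, hgdef⟩ : ∃ g, g = y * x * y⁻¹ * x⁻¹ := ⟨_, rfl⟩
  rw [← hgdef] at hg hwv
  obtain ⟨hwC, hvC⟩ := UP.mem h hg hwv
  have i1 : φ w * φ v = 1 := by rw [← hφ.mul _ hwC _ hvC, hwv.uv, hφ.one]
  have i2 : φ v * φ w = 1 := by rw [← hφ.mul _ hvC _ hwC, hwv.vu, hφ.one]
  have hinj : Function.Injective (φ w) := by
    intro a b hab
    have h1 := congrArg (φ v) hab
    rw [← Module.End.mul_apply, ← Module.End.mul_apply, i2] at h1
    exact h1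
  let a : W ≃ₗ[k] W := LinearEquiv.ofLinearMap (φ w) (φ v) i1 i2
  have ha : ∀ u, a u = φ w u := fun u => rfl
  have hcx : ∀ {x : A}, x ∈ K → ∀ z ∈ fixAlg k h.unt N, cj x z ∈ fixAlg k h.unt N :=
    fun hx z hz => cj_mem_fixAlg hz (h.norm_unt hx) (h.nm hx)
  have h1 : ItC h.unt N φ φ (y * x) (X.trans Y).toLinearMap := by
    intro z hz u
    change Y (X (φ z u)) = φ (cj (y * x) z) (Y (X u))
    have h2 := hX z hz u
    change X (φ z u) = φ _ (X u) at h2
    have h3 := hY (cj x z) (hcx hx z hz) (X u)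
    change Y (φ _ (X u)) = φ _ (Y (X u)) at h3
    rw [h2, h3, cj_cj]
  have h2 : ItC h.unt N φ φ (y * x) ((Y.trans X).trans a).toLinearMap := by
    intro z hz u
    change a (X (Y (φ z u))) = φ (cj (y * x) z) (a (X (Y u)))
    have h3 := hY z hz u
    change Y (φ z u) = φ _ (Y u) at h3
    have hyz := hcx hy z hz
    have hxyz := hcx hx _ hyz
    have h4 := hX (cj y z) hyz (Y u)
    change X (φ _ (Y u)) = φ _ (X (Y u)) at h4
    rw [h3, h4, ha, ha, ← Module.End.mul_apply, ← Module.End.mul_apply, ← hφ.mul _ hwC _ hxyz,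
      ← hφ.mul _ (hcx (K.mul_mem hy hx) z hz) _ hwC,
      unit_conj (h.nm (h.unt_le hg)) hwv.su (mem_fixAlg.1 hxyz).2, cj_cj, cj_cj]
    congr 4
    rw [hgdef]
    group
  obtain ⟨s, hs⟩ := itC_unique hφ h2 h1
  exact scal_of (X := X) (Y := Y) (B := (Y.trans X).trans a) (fun v => rfl) hs

/-- the symbol of a product -/
theorem om_tp [Module.Finite k W] (h : UH N K c) (q : QT p N Q T) {θ : Rp k (N ⊓ T) n}
    (hθ : Irr' θ) (hb : act θ (cS Q c) = 1) {φ : MonoidAlgebra k A → Module.End k W}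
    (hφ : CR h.unt N c φ) {x y : A} (hx : x ∈ K ⊓ T) (hy : y ∈ K ⊓ T)
    (hg : y * x * y⁻¹ * x⁻¹ ∈ h.unt ⊓ T) {w v : MonoidAlgebra k A}
    (hwv : UP N c (y * x * y⁻¹ * x⁻¹) w v) :
    Gg.om (h.unt ⊓ T) (tp h q hθ hb hφ) x y
      = omw (N ⊓ T) θ x y (single (y * x * y⁻¹ * x⁻¹) 1 * cS Q v) * omC h.unt N φ x y w := by
  classical
  have hn := hθ.nontriv
  have hw' := hφ.nontriv
  have hxM := nm_MT (T := T) h hx
  have hyM := nm_MT (T := T) h hy
  have hxn := nm_NT (T := T) h hx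
  have hyn := nm_NT (T := T) h hy
  have hdec : ∀ s, Gg.Omg (h.unt ⊓ T) (tp h q hθ hb hφ) x y s →
      (∃ t, Omw (N ⊓ T) θ x y (single (y * x * y⁻¹ * x⁻¹) 1 * cS Q v) t) ∧
      (∃ t, OmC h.unt N φ x y w t) := by
    rintro s ⟨X, Y, z, hX, hY, hz, h1⟩
    obtain ⟨XS, XW, hXS, hXW, -⟩ := tp_itw h q hθ hb hφ hθ hb hφ hx X hX
    obtain ⟨YS, YW, hYS, hYW, -⟩ := tp_itw h q hθ hb hφ hθ hb hφ hy Y hY
    obtain ⟨t, -, ht⟩ := omw_exists h q hθ hb hx hy hg hwv hXS hYS
    obtain ⟨t', -, ht'⟩ := omC_exists h hφ hx.1 hy.1 hg.1 hwv hXW hYW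
    exact ⟨⟨t, XS, YS, hXS, hYS, ht⟩, ⟨t', XW, YW, hXW, hYW, ht'⟩⟩
  have hzero : ¬ (∃ s, Gg.Omg (h.unt ⊓ T) (tp h q hθ hb hφ) x y s) →
      Gg.om (h.unt ⊓ T) (tp h q hθ hb hφ) x y = 0 := fun h1 => dif_neg h1
  by_cases hS : ∃ t, Omw (N ⊓ T) θ x y (single (y * x * y⁻¹ * x⁻¹) 1 * cS Q v) t
  · by_cases hC : ∃ t, OmC h.unt N φ x y w t
    · obtain ⟨t, XS, YS, hXS, hYS, ht⟩ := hS
      obtain ⟨t', XW, YW, hXW, hYW, ht'⟩ := hC
      obtain ⟨i1, i2⟩ := act_e_inv h q hb hg hwv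
      obtain ⟨hwC, hvC⟩ := UP.mem h hg.1 hwv
      have j2 : φ v * φ w = 1 := by rw [← hφ.mul _ hvC _ hwC, hwv.vu, hφ.one]
      rw [omw_eq hθ hxn hyn (fun a b hab => by
          have h1 := congrArg (act θ (single (y * x * y⁻¹ * x⁻¹)⁻¹ 1 * cS Q w)) hab
          rw [← Module.End.mul_apply, ← Module.End.mul_apply, i2] at h1
          exact h1) ⟨XS, YS, hXS, hYS, ht⟩,
        omC_eq hφ (fun a b hab => by
          have h1 := congrArg (φ v) hab
          rw [← Module.End.mul_apply, ← Module.End.mul_apply, j2] at h1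
          exact h1) ⟨XW, YW, hXW, hYW, ht'⟩]
      apply om_eq' (tp_irr h q hθ hb hφ) hxM hyM
      refine ⟨krE XS XW, krE YS YW, ⟨_, hg⟩, krE_itw h q hθ hb hφ hθ hb hφ hx XS XW hXS hXW,
        krE_itw h q hθ hb hφ hθ hb hφ hy YS YW hYS hYW, rfl, fun f => ?_⟩
      have e1 : tp h q hθ hb hφ ⟨_, hg⟩ = op Q θ φ _ w v := tp_apply h q hθ hb hφ hg hwv
      rw [e1]
      change kr _ _ (kr _ _ f) = (t * t') • kr _ _ (kr _ _ (kr _ _ f))
      rw [kr_comp, kr_comp, kr_comp]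
      have e2 : YS.toLinearMap ∘ₗ XS.toLinearMap
          = t • (act θ (single (y * x * y⁻¹ * x⁻¹) 1 * cS Q v) ∘ₗ
            (XS.toLinearMap ∘ₗ YS.toLinearMap)) := LinearMap.ext ht
      have e3 : YW.toLinearMap ∘ₗ XW.toLinearMap
          = t' • (φ w ∘ₗ (XW.toLinearMap ∘ₗ YW.toLinearMap)) := LinearMap.ext ht'
      rw [e2, e3, kr_smul_left, kr_smul_right, smul_smul]
      rfl
    · rw [hzero (fun ⟨s, hs⟩ => hC (hdec s hs).2)]
      have h1 : omC h.unt N φ x y w = 0 := dif_neg hC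
      rw [h1, mul_zero]
  · rw [hzero (fun ⟨s, hs⟩ => hS (hdec s hs).1)]
    have h1 : omw (N ⊓ T) θ x y (single (y * x * y⁻¹ * x⁻¹) 1 * cS Q v) = 0 := dif_neg hS
    rw [h1, zero_mul]

end exist

end Pool.Agent.Lib.P0c8ca5.Un8
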