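import Mathlib
import Pool.Agent.Lib.P0c8ca5U.CmF

/-!
# Module CmG: the bijection and the factorisation of the sum

* `Psi M N c b`: the classes of simple modules of `(kM)^N` on which `c` and `b` act as `1`.
* `fmap`: the bijection `IrX (N ⊓ T) (cS Q c) × Psi ≃ IrX (M ⊓ T) (cS Q b)`.
* `sum_fac`: the sum of the symbols over `IrX (M ⊓ T) (cS Q b)` is the product of the sum over `Psi` and the sum over
  `IrX (N ⊓ T) (cS Q c)`.
-/

namespace Pool.Agent.Lib.P0c8ca5.Un8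

open MonoidAlgebra Bq Ps

variable {p : ℕ} {k : Type*} [Field k] {A : Type*} [Group A]
variable {N K : Subgroup A} {c b : MonoidAlgebra k A} {Q T : Subgroup A}

/-- a simple module of `(kM)^N` on which `c` and `b` act as `1` -/
structure CMod (M N : Subgroup A) (c b : MonoidAlgebra k A) where
  m : ℕ
  φ : MonoidAlgebra k A → Module.End k (Fin m → k)
  cr : CR M N c φ
  blk : φ b = 1

/-- isomorphism of modules of `(kM)^N` -/
def cmSetoid (M N : Subgroup A) (c b : MonoidAlgebra k A) : Setoid (CMod M N c b) where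
  r a a' := ∃ P : (Fin a.m → k) ≃ₗ[k] (Fin a'.m → k),
    ∀ z ∈ fixAlg k M N, ∀ w, P (a.φ z w) = a'.φ z (P w)
  iseqv :=
    { refl := fun a => ⟨LinearEquiv.refl k _, fun _ _ _ => rfl⟩
      symm := fun {a a'} ⟨P, hP⟩ => ⟨P.symm, fun z hz w => by
        apply P.injective
        rw [hP z hz, LinearEquiv.apply_symm_apply, LinearEquiv.apply_symm_apply]⟩
      trans := fun {a a' a''} ⟨P, hP⟩ ⟨P', hP'⟩ => ⟨P.trans P', fun z hz w => by
        rw [LinearEquiv.trans_apply, LinearEquiv.trans_apply, hP z hz, hP' z hz]⟩ }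

/-- the classes of simple modules of `(kM)^N` on which `c` and `b` act as `1` -/
abbrev Psi (M N : Subgroup A) (c b : MonoidAlgebra k A) : Type _ := Quotient (cmSetoid M N c b)

/-- the symbol of a class -/
noncomputable def omCX (M N : Subgroup A) (c b : MonoidAlgebra k A) (ψ : Psi M N c b) (x y : A)
    (w : MonoidAlgebra k A) : k := omC M N (Quotient.out ψ).φ x y w

/-- the sum of the symbols of the classes -/
noncomputable def kap (p : ℕ) [Fact p.Prime] (M N : Subgroup A) (c b : MonoidAlgebra k A)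
    (x y : A) (w : MonoidAlgebra k A) : WittVector p k :=
  ∑ᶠ ψ : Psi M N c b, WittVector.teichmuller p (omCX M N c b ψ x y w)

theorem omg_iso {N : Subgroup A} {V V' : Type*} [AddCommGroup V] [Module k V]
    [AddCommGroup V'] [Module k V'] {ρ : Representation k N V} {ρ' : Representation k N V'}
    (hi : Iso ρ ρ') {x y : A} {s : k} (h : Gg.Omg N ρ x y s) : Gg.Omg N ρ' x y s := by
  obtain ⟨P, hP⟩ := hi
  obtain ⟨X, Y, z, hX, hY, hz, h1⟩ := h
  have hP' : ∀ (g : N) (v : V'), P.symm (ρ' g v) = ρ g (P.symm v) := by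
    intro g v
    apply P.injective
    rw [hP, LinearEquiv.apply_symm_apply, LinearEquiv.apply_symm_apply]
  refine ⟨(P.symm.trans X).trans P, (P.symm.trans Y).trans P, z, fun g g' hg v => ?_,
    fun g g' hg v => ?_, hz, fun v => ?_⟩
  · change P (X (P.symm (ρ' g v))) = ρ' g' (P (X (P.symm v)))
    rw [hP', hX g g' hg, hP]
  · change P (Y (P.symm (ρ' g v))) = ρ' g' (P (Y (P.symm v)))
    rw [hP', hY g g' hg, hP]
  · change P (Y (P.symm (P (X (P.symm v))))) = s • ρ' z (P (X (P.symm (P (Y (P.symm v))))))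
    rw [LinearEquiv.symm_apply_apply, LinearEquiv.symm_apply_apply, h1, map_smul, hP]

theorem om_iso' {N : Subgroup A} {V V' : Type*} [AddCommGroup V] [Module k V]
    [AddCommGroup V'] [Module k V'] {ρ : Representation k N V} {ρ' : Representation k N V'}
    (hi : Iso ρ ρ') (x y : A) : Gg.om N ρ x y = Gg.om N ρ' x y := by
  classical
  have h1 : (fun s : k => Gg.Omg N ρ x y s) = fun s => Gg.Omg N ρ' x y s :=
    funext fun s => propext ⟨omg_iso hi, omg_iso hi.symm⟩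
  unfold Gg.om
  simp only [h1]

theorem iso_trRep {G : Subgroup A} {V V' : Type*} [AddCommGroup V] [Module k V]
    [AddCommGroup V'] [Module k V'] (ρ : Representation k G V) (E : V ≃ₗ[k] V') :
    Iso ρ (trRep ρ E) := ⟨E, fun g v => (trRep_apply ρ E g v).symm⟩

theorem itS_one {N : Subgroup A} {V V' : Type*} [AddCommGroup V] [Module k V]
    [AddCommGroup V'] [Module k V'] {ρ : Representation k N V} {ρ' : Representation k N V'}
    {X : V →ₗ[k] V'} : ItS N ρ ρ' 1 X ↔ ∀ g v, X (ρ g v) = ρ' g (X v) := by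
  constructor
  · intro h g v
    exact h g g (by group) v
  · intro h g g' hg v
    have e : g' = g := Subtype.ext (by rw [hg]; group)
    rw [e]
    exact h g v

section map

variable [Fact p.Prime] [CharP k p] [IsAlgClosed k] [Fintype A]

theorem tp_iso {n n' m m' : ℕ} (h : UH N K c) (q : QT p N Q T) {θ : Rp k (N ⊓ T) n}
    {θ' : Rp k (N ⊓ T) n'} {φ : MonoidAlgebra k A → Module.End k (Fin m → k)}
    {φ' : MonoidAlgebra k A → Module.End k (Fin m' → k)} (hθ : Irr' θ) (hb : act θ (cS Q c) = 1)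
    (hφ : CR h.unt N c φ) (hθ' : Irr' θ') (hb' : act θ' (cS Q c) = 1) (hφ' : CR h.unt N c φ')
    (h1 : Iso θ θ') (h2 : ∃ P : (Fin m → k) ≃ₗ[k] (Fin m' → k),
      ∀ z ∈ fixAlg k h.unt N, ∀ w, P (φ z w) = φ' z (P w)) :
    Iso (tp h q hθ hb hφ) (tp h q hθ' hb' hφ') := by
  obtain ⟨P, hP⟩ := h1
  obtain ⟨P', hP'⟩ := h2
  have h3 := krE_itw h q hθ hb hφ hθ' hb' hφ' (x := 1) (Subgroup.one_mem _) P P'
    (itS_one.2 hP) (fun a ha w => by
      rw [cj_one_left]
      exact hP' a ha w)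
  exact ⟨krE P P', itS_one.1 h3⟩

theorem tp_iso_conv {n n' m m' : ℕ} (h : UH N K c) (q : QT p N Q T) {θ : Rp k (N ⊓ T) n}
    {θ' : Rp k (N ⊓ T) n'} {φ : MonoidAlgebra k A → Module.End k (Fin m → k)}
    {φ' : MonoidAlgebra k A → Module.End k (Fin m' → k)} (hθ : Irr' θ) (hb : act θ (cS Q c) = 1)
    (hφ : CR h.unt N c φ) (hθ' : Irr' θ') (hb' : act θ' (cS Q c) = 1) (hφ' : CR h.unt N c φ')
    (h1 : Iso (tp h q hθ hb hφ) (tp h q hθ' hb' hφ')) :
    Iso θ θ' ∧ ∃ P : (Fin m → k) ≃ₗ[k] (Fin m' → k),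
      ∀ z ∈ fixAlg k h.unt N, ∀ w, P (φ z w) = φ' z (P w) := by
  obtain ⟨X, hX⟩ := h1
  obtain ⟨XS, XW, hXS, hXW, -⟩ := tp_itw h q hθ hb hφ hθ' hb' hφ' (x := 1)
    (Subgroup.one_mem _) X (itS_one.2 hX)
  refine ⟨⟨XS, itS_one.1 hXS⟩, XW, fun z hz w => ?_⟩
  have h2 := hXW z hz w
  rwa [cj_one_left] at h2

theorem act_tp_b {n m : ℕ} (h : UH N K c) (q : QT p N Q T) {θ : Rp k (N ⊓ T) n}
    {φ : MonoidAlgebra k A → Module.End k (Fin m → k)} (hθ : Irr' θ) (hb : act θ (cS Q c) = 1)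
    (hφ : CR h.unt N c φ) (hbM : b ∈ fixAlg k h.unt N) (hbc : b * c = b) :
    act (tp h q hθ hb hφ) (cS Q b) = kr 1 (φ b) := by
  have h1 := tp_act h q hθ hb hφ b hbM
  rwa [hbc] at h1

/-- the product as an element of `IrX` -/
noncomputable def fm0 {n m : ℕ} (h : UH N K c) (q : QT p N Q T) {θ : Rp k (N ⊓ T) n}
    {φ : MonoidAlgebra k A → Module.End k (Fin m → k)} (hθ : Irr' θ) (hb : act θ (cS Q c) = 1)
    (hφ : CR h.unt N c φ) (hbM : b ∈ fixAlg k h.unt N) (hbc : b * c = b) (hφb : φ b = 1) :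
    IrrInv (h.unt ⊓ T) ⊥ (cS Q b) :=
  mkIrr (trRep (tp h q hθ hb hφ) (Module.finBasis k (Fin n → (Fin m → k))).equivFun)
    ((tp_irr h q hθ hb hφ).trRep _)
    (act_iso (iso_trRep _ _) (by
      rw [act_tp_b h q hθ hb hφ hbM hbc, hφb]
      exact LinearMap.ext kr_one))

theorem fm0_iso {n m : ℕ} (h : UH N K c) (q : QT p N Q T) {θ : Rp k (N ⊓ T) n}
    {φ : MonoidAlgebra k A → Module.End k (Fin m → k)} (hθ : Irr' θ) (hb : act θ (cS Q c) = 1)
    (hφ : CR h.unt N c φ) (hbM : b ∈ fixAlg k h.unt N) (hbc : b * c = b) (hφb : φ b = 1) :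
    Iso (tp h q hθ hb hφ) (fm0 h q hθ hb hφ hbM hbc hφb).ρ := iso_trRep _ _

/-- the bijection -/
noncomputable def fmap (h : UH N K c) (q : QT p N Q T) (hbM : b ∈ fixAlg k h.unt N)
    (hbc : b * c = b) (z : IrX (N ⊓ T) (cS Q c) × Psi h.unt N c b) :
    IrX (h.unt ⊓ T) (cS Q b) :=
  Quotient.mk _ (fm0 h q (irr_iff.1 (Quotient.out z.1).irr) (act_iff.2 (Quotient.out z.1).blk)
    (Quotient.out z.2).cr hbM hbc (Quotient.out z.2).blk)

theorem fmap_iso (h : UH N K c) (q : QT p N Q T) (hbM : b ∈ fixAlg k h.unt N)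
    (hbc : b * c = b) (z : IrX (N ⊓ T) (cS Q c) × Psi h.unt N c b) :
    Iso (tp h q (irr_iff.1 (Quotient.out z.1).irr) (act_iff.2 (Quotient.out z.1).blk)
      (Quotient.out z.2).cr) (Quotient.out (fmap h q hbM hbc z)).ρ := by
  refine (fm0_iso h q _ _ _ hbM hbc (Quotient.out z.2).blk).trans ?_
  have h1 : (Quotient.mk _ (Quotient.out (fmap h q hbM hbc z)) : IrX (h.unt ⊓ T) (cS Q b))
      = fmap h q hbM hbc z := Quotient.out_eq _
  exact (mk_eq_mk.1 h1).symm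

theorem fmap_bij (h : UH N K c) (q : QT p N Q T) (hbM : b ∈ fixAlg k h.unt N)
    (hbc : b * c = b) : Function.Bijective (fmap h q hbM hbc) := by
  constructor
  · rintro ⟨a, ψ⟩ ⟨a', ψ'⟩ hz
    have h1 := fmap_iso h q hbM hbc (a, ψ)
    have h2 := fmap_iso h q hbM hbc (a', ψ')
    rw [hz] at h1
    obtain ⟨h3, h4⟩ := tp_iso_conv h q _ _ _ _ _ _ (h1.trans h2.symm)
    have h5 : a = a' := by
      rw [← Quotient.out_eq a, ← Quotient.out_eq a']
      exact mk_eq_mk.2 h3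
    have h6 : ψ = ψ' := by
      rw [← Quotient.out_eq ψ, ← Quotient.out_eq ψ']
      exact Quotient.sound h4
    rw [h5, h6]
  · intro z
    obtain ⟨ρ, rfl⟩ := Quotient.exists_rep z
    have hρ : Irr' ρ.ρ := irr_iff.1 ρ.irr
    have hρb : act ρ.ρ (cS Q b) = 1 := act_iff.2 ρ.blk
    have hρc : act ρ.ρ (cS Q c) = 1 := by
      have h1 : cS Q b = cS Q b * cS Q c := by
        rw [← cS_mul q (mem_fixAlg.1 hbM).2 h.blk.invBy, hbc]
      have h2 := act_mul ρ.ρ (a := cS Q b) (b := cS Q c) (supp_cS q (mem_fixAlg.1 hbM).1)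
      have h3 : act ρ.ρ (cS Q b * cS Q c) = 1 := by
        rw [← h1]
        exact hρb
      rw [h3, hρb, one_mul] at h2
      exact h2.symm
    obtain ⟨n, θ, hθ, hbθ, m, φ, hφ, hiso⟩ := exists_tp h q hρ hρc
    have hφb : φ b = 1 := by
      have h1 := act_iso hiso.symm hρb
      rw [act_tp_b h q hθ hbθ hφ hbM hbc] at h1
      have h2 : kr (1 : Module.End k (Fin n → k)) (φ b) = kr 1 (1 : Module.End k (Fin m → k)) := by
        rw [h1]
        exact (LinearMap.ext kr_one).symm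
      have := hθ.nontriv
      exact kr_right_inj (by
        obtain ⟨v, hv⟩ := exists_ne (0 : Fin n → k)
        intro h3
        exact hv (LinearMap.congr_fun h3 v)) h2
    refine ⟨(Quotient.mk _ (mkIrr θ hθ hbθ), Quotient.mk _ ⟨m, φ, hφ, hφb⟩), ?_⟩
    have h1 := fmap_iso h q hbM hbc
      (Quotient.mk _ (mkIrr θ hθ hbθ), Quotient.mk _ ⟨m, φ, hφ, hφb⟩)
    have h2 : (Quotient.mk _ (Quotient.out (fmap h q hbM hbc
        (Quotient.mk _ (mkIrr θ hθ hbθ), Quotient.mk _ ⟨m, φ, hφ, hφb⟩))) :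
        IrX (h.unt ⊓ T) (cS Q b)) = Quotient.mk _ ρ := by
      refine mk_eq_mk.2 (h1.symm.trans (Iso.trans ?_ hiso))
      refine tp_iso h q _ _ _ hθ hbθ hφ ?_ ?_
      · exact mk_eq_mk.1 (Quotient.out_eq (Quotient.mk _ (mkIrr θ hθ hbθ)))
      · exact Quotient.exact (Quotient.out_eq
          (Quotient.mk (cmSetoid h.unt N c b) ⟨m, φ, hφ, hφb⟩))
    rwa [Quotient.out_eq] at h2

theorem omX_fmap (h : UH N K c) (q : QT p N Q T) (hbM : b ∈ fixAlg k h.unt N)
    (hbc : b * c = b) (z : IrX (N ⊓ T) (cS Q c) × Psi h.unt N c b) {x y : A} (hx : x ∈ K ⊓ T)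
    (hy : y ∈ K ⊓ T) (hg : y * x * y⁻¹ * x⁻¹ ∈ h.unt) {w v : MonoidAlgebra k A}
    (hwv : UP N c (y * x * y⁻¹ * x⁻¹) w v) :
    Gg.omX (h.unt ⊓ T) (cS Q b) (fmap h q hbM hbc z) x y
      = omwX (N ⊓ T) (cS Q c) z.1 x y (single (y * x * y⁻¹ * x⁻¹) 1 * cS Q v)
        * omCX h.unt N c b z.2 x y w := by
  have hgT : y * x * y⁻¹ * x⁻¹ ∈ h.unt ⊓ T :=
    ⟨hg, T.mul_mem (T.mul_mem (T.mul_mem hy.2 hx.2) (T.inv_mem hy.2)) (T.inv_mem hx.2)⟩
  rw [Gg.omX, ← om_iso' (fmap_iso h q hbM hbc z) x y, om_tp h q _ _ _ hx hy hgT hwv]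
  rfl

/-- the factorisation of the sum -/
theorem sum_fac (h : UH N K c) (q : QT p N Q T) (hbM : b ∈ fixAlg k h.unt N)
    (hbc : b * c = b) {x y : A} (hx : x ∈ K ⊓ T)
    (hy : y ∈ K ⊓ T) (hg : y * x * y⁻¹ * x⁻¹ ∈ h.unt) {w v : MonoidAlgebra k A}
    (hwv : UP N c (y * x * y⁻¹ * x⁻¹) w v) :
    ∑ᶠ a : IrX (h.unt ⊓ T) (cS Q b), WittVector.teichmuller p
      (Gg.omX (h.unt ⊓ T) (cS Q b) a x y)
      = kap p h.unt N c b x y w * ∑ᶠ a : IrX (N ⊓ T) (cS Q c), WittVector.teichmuller p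
        (omwX (N ⊓ T) (cS Q c) a x y (single (y * x * y⁻¹ * x⁻¹) 1 * cS Q v)) := by
  classical
  have hbij := fmap_bij h q hbM hbc
  have h1 : ∑ᶠ a : IrX (h.unt ⊓ T) (cS Q b), WittVector.teichmuller p
      (Gg.omX (h.unt ⊓ T) (cS Q b) a x y)
      = ∑ᶠ z : IrX (N ⊓ T) (cS Q c) × Psi h.unt N c b,
        WittVector.teichmuller p (omwX (N ⊓ T) (cS Q c) z.1 x y
          (single (y * x * y⁻¹ * x⁻¹) 1 * cS Q v)) *
        WittVector.teichmuller p (omCX h.unt N c b z.2 x y w) := by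
    rw [← finsum_comp _ hbij]
    refine finsum_congr fun z => ?_
    rw [omX_fmap h q hbM hbc z hx hy hg hwv, map_mul]
  rw [h1]
  rcases isEmpty_or_nonempty (IrX (N ⊓ T) (cS Q c)) with he | ⟨⟨a₀⟩⟩
  · rw [finsum_of_isEmpty (α := IrX (N ⊓ T) (cS Q c)), mul_zero]
    exact finsum_of_isEmpty _
  · have hfin : Finite (Psi h.unt N c b) := by
      refine Finite.of_injective (fun ψ => fmap h q hbM hbc (a₀, ψ)) (fun ψ ψ' hψ => ?_)
      exact congrArg Prod.snd (hbij.1 hψ)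
    have : Fintype (Psi h.unt N c b) := Fintype.ofFinite _
    have : Fintype (IrX (N ⊓ T) (cS Q c)) := Fintype.ofFinite _
    rw [kap, finsum_eq_sum_of_fintype, finsum_eq_sum_of_fintype, finsum_eq_sum_of_fintype,
      Fintype.sum_prod_type, Finset.sum_mul_sum, Finset.sum_comm]
    refine Finset.sum_congr rfl fun ψ _ => Finset.sum_congr rfl fun a _ => ?_
    rw [mul_comm]

end map

end Pool.Agent.Lib.P0c8ca5.Un8
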