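import Mathlib
import Pool.Agent.Lib.P0c8ca5U.CmG
import Pool.Agent.Lib.P0c8ca5C.DzCore
import Pool.Agent.Lib.P0c8ca5S.BrUp

/-!
# Module CmH: `dl = kap * dlw`

* `qt_chain`: the chains give `QT`.
* `relIndex_eq'`: the indices of the stabilizers in `M` and in `N` are equal.
* `kap_congr`: `kap` depends on the cosets of `x` and `y` only.
* `dl_eq`: the factorisation of the value of a pair.
-/

namespace Pool.Agent.Lib.P0c8ca5.Un8

open MonoidAlgebra Bq Ps

variable {p : ℕ} {k : Type*} [Field k] {A : Type*} [Group A]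
variable {N K : Subgroup A} {c b : MonoidAlgebra k A} {Q T : Subgroup A}

/-- the intersection of the normalizers -/
def TT (σ : Finset (Subgroup A)) : Subgroup A := ⨅ Q ∈ σ, Subgroup.normalizer (Q : Set A)

theorem stab_eq (X : Subgroup A) (σ : Finset (Subgroup A)) : stab X σ = X ⊓ TT σ := rfl

theorem sup_mem_chain {D : Finset (Subgroup A)} {σ : Finset (Subgroup A)} (hσ : σ ∈ Ch D) :
    σ.sup id = ⊥ ∧ σ = ∅ ∨ σ.sup id ∈ σ := by
  classical
  have hch : IsChain (· ≤ ·) (σ : Set (Subgroup A)) := (Finset.mem_filter.1 hσ).2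
  clear hσ
  induction σ using Finset.induction_on with
  | empty => left; exact ⟨Finset.sup_empty, rfl⟩
  | insert R σ hR ih =>
    right
    have hch' : IsChain (· ≤ ·) (σ : Set (Subgroup A)) :=
      hch.mono (by rw [Finset.coe_insert]; exact Set.subset_insert _ _)
    rw [Finset.sup_insert, id]
    rcases ih hch' with ⟨h1, h2⟩ | h1
    · rw [h1, sup_bot_eq]
      exact Finset.mem_insert_self _ _
    · by_cases hne : R = σ.sup id
      · rw [← hne, sup_idem]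
        exact Finset.mem_insert_self _ _
      · rcases hch (Finset.mem_coe.2 (Finset.mem_insert_self R σ))
          (Finset.mem_coe.2 (Finset.mem_insert_of_mem h1)) hne with h2 | h2
        · rw [sup_eq_right.2 h2]
          exact Finset.mem_insert_of_mem h1
        · rw [sup_eq_left.2 h2]
          exact Finset.mem_insert_self _ _

theorem qt_chain {D : Finset (Subgroup A)} (hD : ∀ R ∈ D, R ≤ N) (hp : ∀ R ∈ D, IsPGroup p R)
    {σ : Finset (Subgroup A)} (hσ : σ ∈ Ch D) : QT p N (σ.sup id) (TT σ) := by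
  classical
  have hσD : σ ⊆ D := by
    have h0 := hσ
    rw [Ch, Finset.mem_filter, Finset.mem_powerset] at h0
    exact h0.1
  have hle : ∀ R ∈ σ, R ≤ σ.sup id := fun R hR => Finset.le_sup (f := id) hR
  have hcT : Subgroup.centralizer ((σ.sup id : Subgroup A) : Set A) ≤ TT σ := by
    refine le_iInf₂ fun R hR => ?_
    exact (Subgroup.centralizer_le (hle R hR)).trans (Subgroup.centralizer_le_normalizer _)
  rcases sup_mem_chain hσ with ⟨h1, h2⟩ | h1
  · refine ⟨by rw [h1]; exact bot_le, by rw [h1]; exact IsPGroup.of_bot, hcT, ?_⟩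
    rw [h1, Subgroup.normalizer_eq_top]
    exact le_top
  · exact ⟨hD _ (hσD h1), hp _ (hσD h1), hcT, iInf₂_le (σ.sup id) h1⟩

theorem relIndex_eq' [Finite A] {N M T : Subgroup A} (hNM : N ≤ M)
    (hM : M ≤ Subgroup.normalizer (N : Set A))
    (hsup : ∀ x ∈ M, ∃ y ∈ M ⊓ T, x * y⁻¹ ∈ N) : (M ⊓ T).relIndex M = (N ⊓ T).relIndex N := by
  have h0 : M = M ⊓ T ⊔ N := by
    apply le_antisymm
    · intro x hx
      obtain ⟨y, hy, hxy⟩ := hsup x hx
      have e : x = x * y⁻¹ * y := by group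
      rw [e]
      exact Subgroup.mul_mem _ (Subgroup.mem_sup_right hxy) (Subgroup.mem_sup_left hy)
    · exact sup_le inf_le_left hNM
  have h1 : N.relIndex M = N.relIndex (M ⊓ T) := by
    have h2 := Cy.DzCoreAux.relIndex_sup (L := N) (D := M ⊓ T) (inf_le_left.trans hM)
    rw [sup_comm, ← h0] at h2
    exact h2.symm
  have h2 := Subgroup.relIndex_mul_relIndex (N ⊓ T) N M inf_le_left hNM
  have h3 := Subgroup.relIndex_mul_relIndex (N ⊓ T) (M ⊓ T) M (inf_le_inf_right _ hNM) inf_le_left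
  have h4 : (N ⊓ T).relIndex (M ⊓ T) = N.relIndex (M ⊓ T) := by
    rw [← Subgroup.inf_relIndex_right N (M ⊓ T)]
    congr 1
    rw [← inf_assoc, inf_of_le_left hNM]
  have h5 : N.relIndex M ≠ 0 := relIndex_ne _ _
  rw [h4, ← h1] at h3
  have h6 : N.relIndex M * (M ⊓ T).relIndex M = N.relIndex M * (N ⊓ T).relIndex N := by
    rw [h3, ← h2, mul_comm]
  exact Nat.eq_of_mul_eq_mul_left (Nat.pos_of_ne_zero h5) h6

theorem itC_congr (h : UH N K c) {W W' : Type*} [AddCommGroup W] [Module k W]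
    [AddCommGroup W'] [Module k W'] {φ : MonoidAlgebra k A → Module.End k W}
    {φ' : MonoidAlgebra k A → Module.End k W'} {x x' : A} (hx : x ∈ K) (hxx : x' * x⁻¹ ∈ N)
    {X : W →ₗ[k] W'} : ItC h.unt N φ φ' x' X ↔ ItC h.unt N φ φ' x X := by
  have key : ∀ a ∈ fixAlg k h.unt N, cj x' a = cj x a := by
    intro a ha
    have h1 : InvBy N (cj x a) := (mem_fixAlg.1 ha).2.cj (h.nm hx)
    have h2 := invBy_iff_cj.1 h1 _ hxx
    rw [cj_cj, inv_mul_cancel_right] at h2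
    exact h2
  constructor
  · intro h1 a ha w
    rw [← key a ha]
    exact h1 a ha w
  · intro h1 a ha w
    rw [key a ha]
    exact h1 a ha w

theorem omC_congr (h : UH N K c) {W : Type*} [AddCommGroup W] [Module k W]
    {φ : MonoidAlgebra k A → Module.End k W} {x x' y y' : A} (hx : x ∈ K) (hxx : x' * x⁻¹ ∈ N)
    (hy : y ∈ K) (hyy : y' * y⁻¹ ∈ N) (w : MonoidAlgebra k A) :
    omC h.unt N φ x' y' w = omC h.unt N φ x y w := by
  classical
  have h1 : (fun t : k => OmC h.unt N φ x' y' w t) = fun t => OmC h.unt N φ x y w t := by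
    funext t
    apply propext
    constructor
    · rintro ⟨X, Y, hX, hY, h2⟩
      exact ⟨X, Y, (itC_congr h hx hxx).1 hX, (itC_congr h hy hyy).1 hY, h2⟩
    · rintro ⟨X, Y, hX, hY, h2⟩
      exact ⟨X, Y, (itC_congr h hx hxx).2 hX, (itC_congr h hy hyy).2 hY, h2⟩
  unfold omC
  simp only [h1]

theorem kap_congr [Fact p.Prime] (h : UH N K c) {x x' y y' : A} (hx : x ∈ K)
    (hxx : x' * x⁻¹ ∈ N) (hy : y ∈ K) (hyy : y' * y⁻¹ ∈ N) (w : MonoidAlgebra k A) :
    kap p h.unt N c b x' y' w = kap p h.unt N c b x y w := by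
  unfold kap omCX
  exact finsum_congr fun ψ => by rw [omC_congr h hx hxx hy hyy]

theorem comm_coset (h : UH N K c) {x x' y y' : A} (hx : x ∈ K) (hxx : x' * x⁻¹ ∈ N)
    (hy : y ∈ K) (hyy : y' * y⁻¹ ∈ N) :
    y' * x' * y'⁻¹ * x'⁻¹ * (y * x * y⁻¹ * x⁻¹)⁻¹ ∈ N := by
  obtain ⟨a, ha⟩ : ∃ a, a = x' * x⁻¹ := ⟨_, rfl⟩
  obtain ⟨d, hd⟩ : ∃ d, d = y' * y⁻¹ := ⟨_, rfl⟩
  rw [← ha] at hxx
  rw [← hd] at hyy
  have e1 : x' = a * x := by rw [ha]; group
  have e2 : y' = d * y := by rw [hd]; group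
  have h1 := GqAux.nm_mem (h.nm hy) hxx
  have h2 := GqAux.nm_mem' (h.nm hx) (N.inv_mem hxx)
  have h3 := GqAux.nm_mem (h.nm (K.mul_mem (K.mul_mem hy hx) (K.inv_mem hy)))
    (N.mul_mem (N.inv_mem hyy) h2)
  have h4 := N.mul_mem (N.mul_mem hyy h1) h3
  have e3 : d * (y * a * y⁻¹) * (y * x * y⁻¹ * (d⁻¹ * (x⁻¹ * a⁻¹ * x)) * (y * x * y⁻¹)⁻¹)
      = y' * x' * y'⁻¹ * x'⁻¹ * (y * x * y⁻¹ * x⁻¹)⁻¹ := by
    rw [e1, e2]
    group
  rwa [e3] at h4

/-- the factorisation of the value of a pair -/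
theorem dl_eq [Fact p.Prime] [CharP k p] [IsAlgClosed k] [Fintype A] (h : UH N K c)
    {D : Finset (Subgroup A)} (hD : ∀ R ∈ D, R ≤ N) (hp : ∀ R ∈ D, IsPGroup p R)
    (hbM : b ∈ fixAlg k h.unt N) (hbc : b * c = b) {x y : A} (hx : x ∈ K) (hy : y ∈ K)
    (hg : y * x * y⁻¹ * x⁻¹ ∈ h.unt) {w v : MonoidAlgebra k A}
    (hwv : UP N c (y * x * y⁻¹ * x⁻¹) w v) {x' y' : A} (hxx : x' * x⁻¹ ∈ N)
    (hyy : y' * y⁻¹ ∈ N) :
    Gg.dl p h.unt D b x' y' = kap p h.unt N c b x y w * dlw p N D c x' y' v := by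
  classical
  have hcc := comm_coset h hx hxx hy hyy
  have hgK := h.unt_le hg
  have hx' : x' ∈ K := by
    have h1 := K.mul_mem (h.le hxx) hx
    rwa [inv_mul_cancel_right] at h1
  have hy' : y' ∈ K := by
    have h1 := K.mul_mem (h.le hyy) hy
    rwa [inv_mul_cancel_right] at h1
  have hg' : y' * x' * y'⁻¹ * x'⁻¹ ∈ h.unt := by
    have h1 := h.unt.mul_mem (h.le_unt hcc) hg
    rwa [inv_mul_cancel_right] at h1
  have hwv' : UP N c (y' * x' * y'⁻¹ * x'⁻¹) w v := by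
    refine hwv.congr ?_ (h.nm (h.unt_le hg'))
    have h1 := N.inv_mem hcc
    have e : (y' * x' * y'⁻¹ * x'⁻¹ * (y * x * y⁻¹ * x⁻¹)⁻¹)⁻¹
        = y * x * y⁻¹ * x⁻¹ * (y' * x' * y'⁻¹ * x'⁻¹)⁻¹ := by group
    rwa [e] at h1
  rw [Gg.dl, dlw, Finset.mul_sum]
  refine Finset.sum_congr rfl fun σ hσ => ?_
  obtain ⟨hσD, hxσ, hyσ⟩ := Finset.mem_filter.1 hσ
  have q := qt_chain hD hp hσD
  have hxT : x' ∈ K ⊓ TT σ := ⟨hx', hxσ.2⟩
  have hyT : y' ∈ K ⊓ TT σ := ⟨hy', hyσ.2⟩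
  have h1 := sum_fac h q hbM hbc hxT hyT hg' hwv'
  rw [kap_congr h hx hxx hy hyy] at h1
  rw [stab_eq, stab_eq, mul_smul_comm]
  rcases isEmpty_or_nonempty (IrX (N ⊓ TT σ) (cS (σ.sup id) c)) with he | ⟨⟨a₀⟩⟩
  · have h2 : ∑ᶠ a : IrX (N ⊓ TT σ) (cS (σ.sup id) c), WittVector.teichmuller p
        (omwX (N ⊓ TT σ) (cS (σ.sup id) c) a x' y'
          (single (y' * x' * y'⁻¹ * x'⁻¹) 1 * cS (σ.sup id) v)) = 0 := finsum_of_isEmpty _
    rw [h1, h2, mul_zero, smul_zero, smul_zero]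
  · have hbr : HasBr (σ.sup id) c :=
      hasBr_of (irr_iff.1 (Quotient.out a₀).irr) (act_iff.2 (Quotient.out a₀).blk)
    rw [h1, relIndex_eq' h.le_unt (h.unt_le.trans h.nm) (fun z hz => h.exists_T q hbr hz)]

end Pool.Agent.Lib.P0c8ca5.Un8
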