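import Mathlib
import Pool.Agent.Lib.P0c8ca5U.CmH

/-!
# Module CmI: separation of simple modules of `(kM)^N`, uniqueness for blocks and index prime to `p`

* `sep`: two simple modules of `(kM)^N` that are not isomorphic are separated by an element of `(kM)^N`.
* `psi_unique`: if `p` does not divide `|M : N|` and `b` is a block of `M` with `b * c = b` then two simple modules of `(kM)^N` on which
  `c` and `b` act as `1` are isomorphic.  PROOF: let `z` act as `1` and `0`; the sum `z'` of the conjugates of `z` by the cosets of `N` in `M`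
  is in `Z(kM)` and acts as `|M : N|` and `0`, but `Z(kM) b` is local.
* `kap_eq`: then `kap = teichmuller s` with `s ≠ 0`.
-/

namespace Pool.Agent.Lib.P0c8ca5.Un8

open MonoidAlgebra Bq Ps

section sp

variable {k : Type*} [Field k] {R : Type*} [Ring R]

/-- the space `k ^ n` as a module of `R` -/
def Sp {n : ℕ} (_Φ : R →+* Module.End k (Fin n → k)) : Type _ := Fin n → k

noncomputable instance {n : ℕ} (Φ : R →+* Module.End k (Fin n → k)) : AddCommGroup (Sp Φ) :=
  inferInstanceAs (AddCommGroup (Fin n → k))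

noncomputable instance {n : ℕ} (Φ : R →+* Module.End k (Fin n → k)) : Module R (Sp Φ) :=
  Module.compHom (Fin n → k) Φ

/-- the identity -/
def toSp {n : ℕ} (Φ : R →+* Module.End k (Fin n → k)) : (Fin n → k) ≃+ Sp Φ :=
  AddEquiv.refl (Fin n → k)

theorem sp_smul {n : ℕ} (Φ : R →+* Module.End k (Fin n → k)) (r : R) (v : Fin n → k) :
    r • toSp Φ v = toSp Φ (Φ r v) := rfl

/-- density for pairwise non-isomorphic simple modules -/
theorem dens {ι : Type*} [Fintype ι] [DecidableEq ι] (n : ι → ℕ)
    (Φ : ∀ i, R →+* Module.End k (Fin (n i) → k)) (hs : ∀ i, IsSimpleModule R (Sp (Φ i)))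
    (hne : ∀ i i', i ≠ i' → ∀ f : Sp (Φ i) →ₗ[R] Sp (Φ i'), f = 0) (j : ι) :
    ∃ r : R, (∀ i, i ≠ j → Φ i r = 0) ∧ Φ j r = 1 := by
  classical
  let M := ∀ i, Sp (Φ i)
  have key1 : ∀ (g : Module.End R M) (i i' : ι), i ≠ i' → ∀ w : Sp (Φ i'),
      g (Pi.single i' w) i = 0 := by
    intro g i i' hii w
    have h1 := hne i' i (Ne.symm hii)
      (LinearMap.proj i ∘ₗ g ∘ₗ LinearMap.single R (fun i => Sp (Φ i)) i')
    exact LinearMap.congr_fun h1 w
  let f : Module.End (Module.End R M) M :=
    { toFun := fun m => Pi.single j (m j)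
      map_add' := fun m m' => by
        rw [Pi.add_apply, Pi.single_add]
      map_smul' := fun g m => by
        change Pi.single j (g m j) = g (Pi.single j (m j))
        have h1 : g m j = g (Pi.single j (m j)) j := by
          have e : m = ∑ i, Pi.single i (m i) := (Finset.univ_sum_single m).symm
          conv_lhs => rw [e, map_sum, Finset.sum_apply]
          rw [Finset.sum_eq_single j]
          · intro i _ hij
            exact key1 g j i (Ne.symm hij) _
          · intro h; exact absurd (Finset.mem_univ j) h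
        funext i
        by_cases hij : i = j
        · subst hij
          rw [Pi.single_eq_same, h1]
        · rw [key1 g i j hij, Pi.single_eq_of_ne hij] }
  let b : (Σ i, Fin (n i)) → M := fun q =>
    Pi.single q.1 (show Sp (Φ q.1) from (Pi.single q.2 1 : Fin (n q.1) → k))
  obtain ⟨r, hr⟩ := jacobson_density (R := R) (M := M) f (Finset.univ.image b)
  have hr' : ∀ (i : ι) (a : Fin (n i)), Φ i r (Pi.single a 1) = (f (b ⟨i, a⟩) : M) i := by
    intro i a
    have h1 := hr (b ⟨i, a⟩) (Finset.mem_image_of_mem b (Finset.mem_univ _))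
    rw [h1]
    change _ = r • (b ⟨i, a⟩ i)
    have h2 : b ⟨i, a⟩ i = (show Sp (Φ i) from (Pi.single a 1 : Fin (n i) → k)) :=
      Pi.single_eq_same _ _
    rw [h2]
    rfl
  refine ⟨r, fun i hij => ?_, ?_⟩
  · refine (Pi.basisFun k (Fin (n i))).ext fun a => ?_
    rw [Pi.basisFun_apply, hr']
    change (Pi.single j (b ⟨i, a⟩ j) : M) i = 0
    rw [Pi.single_eq_of_ne hij]
  · refine (Pi.basisFun k (Fin (n j))).ext fun a => ?_
    rw [Pi.basisFun_apply, hr']
    change (Pi.single j (b ⟨j, a⟩ j) : M) j = (Pi.single a 1 : Fin (n j) → k)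
    rw [Pi.single_eq_same]
    exact Pi.single_eq_same _ _

end sp

variable {p : ℕ} {k : Type*} [Field k] {A : Type*} [Group A]
variable {N K M : Subgroup A} {c b : MonoidAlgebra k A} {Q T : Subgroup A}

/-- the ring homomorphism of a simple module -/
noncomputable def CR.hom (hc : c ∈ fixAlg k M N) {n : ℕ}
    {φ : MonoidAlgebra k A → Module.End k (Fin n → k)} (hφ : CR M N c φ) :
    ↥(fixAlg k M N) →+* Module.End k (Fin n → k) where
  toFun z := φ z
  map_one' := by
    have h1 := hφ.mul 1 (fixAlg k M N).one_mem c hc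
    rw [one_mul, hφ.one, mul_one] at h1
    exact h1.symm
  map_mul' a b := hφ.mul _ a.2 _ b.2
  map_zero' := hφ.zero
  map_add' a b := hφ.add _ a.2 _ b.2

theorem CR.phi_smul (hc : c ∈ fixAlg k M N) {n : ℕ}
    {φ : MonoidAlgebra k A → Module.End k (Fin n → k)} (hφ : CR M N c φ) (s : k)
    (v : Fin n → k) : φ (s • (1 : MonoidAlgebra k A)) v = s • v := by
  rw [hφ.smul s _ (fixAlg k M N).one_mem]
  have h3 : φ 1 = 1 := (hφ.hom hc).map_one
  rw [h3]
  rfl

theorem CR.simple (hc : c ∈ fixAlg k M N) {n : ℕ}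
    {φ : MonoidAlgebra k A → Module.End k (Fin n → k)} (hφ : CR M N c φ) :
    IsSimpleModule ↥(fixAlg k M N) (Sp (hφ.hom hc)) := by
  have hnt := hφ.nontriv
  rw [isSimpleModule_iff]
  have h0 : Nontrivial (Submodule ↥(fixAlg k M N) (Sp (hφ.hom hc))) := by
    obtain ⟨v, hv⟩ := exists_ne (0 : Fin n → k)
    refine ⟨⟨⊥, ⊤, fun h => hv ?_⟩⟩
    have h1 : toSp (hφ.hom hc) v ∈ (⊤ : Submodule ↥(fixAlg k M N) (Sp (hφ.hom hc))) :=
      Submodule.mem_top
    rw [← h, Submodule.mem_bot] at h1
    exact (toSp (hφ.hom hc)).injective (by rw [h1, map_zero])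
  refine { eq_bot_or_eq_top := fun S => ?_ }
  let U : Submodule k (Fin n → k) :=
    { carrier := {v | toSp (hφ.hom hc) v ∈ S}
      add_mem' := fun {a b} ha hb => by
        change toSp (hφ.hom hc) (a + b) ∈ S
        rw [map_add]
        exact S.add_mem ha hb
      zero_mem' := by
        change toSp (hφ.hom hc) 0 ∈ S
        rw [map_zero]
        exact S.zero_mem
      smul_mem' := fun s v hv => by
        have hv' : toSp (hφ.hom hc) v ∈ S := hv
        have h1 := S.smul_mem (⟨s • (1 : MonoidAlgebra k A),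
          (fixAlg k M N).smul_mem (fixAlg k M N).one_mem s⟩ : fixAlg k M N) hv'
        rw [sp_smul] at h1
        change toSp (hφ.hom hc) (φ (s • (1 : MonoidAlgebra k A)) v) ∈ S at h1
        rwa [hφ.phi_smul hc] at h1 }
  have hU : ∀ a ∈ fixAlg k M N, ∀ w ∈ U, φ a w ∈ U := fun a ha w hw =>
    S.smul_mem (⟨a, ha⟩ : fixAlg k M N) hw
  rcases hφ.sub U hU with h1 | h1
  · left
    rw [eq_bot_iff]
    intro v hv
    obtain ⟨v, rfl⟩ := (toSp (hφ.hom hc)).surjective v
    have h2 : v ∈ U := hv
    rw [h1, Submodule.mem_bot] at h2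
    rw [Submodule.mem_bot, h2, map_zero]
  · right
    rw [eq_top_iff]
    intro v _
    obtain ⟨v, rfl⟩ := (toSp (hφ.hom hc)).surjective v
    have h2 : v ∈ U := by rw [h1]; exact Submodule.mem_top
    exact h2

theorem sep (hc : c ∈ fixAlg k M N) {n n' : ℕ}
    {φ : MonoidAlgebra k A → Module.End k (Fin n → k)} (hφ : CR M N c φ)
    {φ' : MonoidAlgebra k A → Module.End k (Fin n' → k)} (hφ' : CR M N c φ')
    (hne : ¬ ∃ P : (Fin n → k) ≃ₗ[k] (Fin n' → k),
      ∀ z ∈ fixAlg k M N, ∀ w, P (φ z w) = φ' z (P w)) :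
    ∃ z ∈ fixAlg k M N, φ z = 1 ∧ φ' z = 0 := by
  classical
  have hlin : ∀ {n n' : ℕ} {φ : MonoidAlgebra k A → Module.End k (Fin n → k)}
      (hφ : CR M N c φ) {φ' : MonoidAlgebra k A → Module.End k (Fin n' → k)}
      (hφ' : CR M N c φ') (f : Sp (hφ.hom hc) →ₗ[↥(fixAlg k M N)] Sp (hφ'.hom hc)), f ≠ 0 →
      ∃ P : (Fin n → k) ≃ₗ[k] (Fin n' → k),
      ∀ z ∈ fixAlg k M N, ∀ w, P (φ z w) = φ' z (P w) := by
    intro n n' φ hφ φ' hφ' f hf
    have := hφ.simple hc
    have := hφ'.simple hc
    have hbij := LinearMap.bijective_of_ne_zero hf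
    let F : (Fin n → k) → (Fin n' → k) := fun v =>
      (toSp (hφ'.hom hc)).symm (f (toSp (hφ.hom hc) v))
    have hF : ∀ v, toSp (hφ'.hom hc) (F v) = f (toSp (hφ.hom hc) v) := fun v =>
      (toSp (hφ'.hom hc)).apply_symm_apply _
    have hFz : ∀ z ∈ fixAlg k M N, ∀ w, F (φ z w) = φ' z (F w) := by
      intro z hz w
      apply (toSp (hφ'.hom hc)).injective
      rw [hF]
      have h1 := f.map_smul (⟨z, hz⟩ : fixAlg k M N) (toSp (hφ.hom hc) w)
      rw [sp_smul, ← hF, ← hF w, sp_smul] at h1
      exact h1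
    let P₀ : (Fin n → k) →ₗ[k] (Fin n' → k) :=
      { toFun := F
        map_add' := fun a b => by
          apply (toSp (hφ'.hom hc)).injective
          rw [hF, map_add, map_add, map_add, hF, hF]
        map_smul' := fun s v => by
          rw [← hφ.phi_smul hc s v, hFz _ ((fixAlg k M N).smul_mem (fixAlg k M N).one_mem s),
            hφ'.phi_smul hc]
          rfl }
    have hb : Function.Bijective P₀ :=
      ((toSp (hφ'.hom hc)).symm.bijective.comp hbij).comp (toSp (hφ.hom hc)).bijective
    exact ⟨LinearEquiv.ofBijective P₀ hb, hFz⟩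
  let nn : Bool → ℕ := fun i => bif i then n else n'
  let Φ : ∀ i, ↥(fixAlg k M N) →+* Module.End k (Fin (nn i) → k) := fun i =>
    match i with
    | true => hφ.hom hc
    | false => hφ'.hom hc
  obtain ⟨r, hr0, hr1⟩ := dens nn Φ
    (fun i => by
      cases i with
      | true => exact hφ.simple hc
      | false => exact hφ'.simple hc)
    (fun i i' hii f => by
      by_contra hf
      cases i with
      | true =>
        cases i' with
        | true => exact hii rfl
        | false => exact hne (hlin hφ hφ' f hf)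
      | false =>
        cases i' with
        | true =>
          obtain ⟨P, hP⟩ := hlin hφ' hφ f hf
          refine hne ⟨P.symm, fun z hz w => ?_⟩
          apply P.injective
          rw [hP z hz, LinearEquiv.apply_symm_apply, LinearEquiv.apply_symm_apply]
        | false => exact hii rfl) true
  exact ⟨r.1, r.2, hr1, hr0 false (by simp)⟩

end Pool.Agent.Lib.P0c8ca5.Un8
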