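import Mathlib
import Pool.Agent.Lib.P0c8ca5U.CmI

/-!
# Module CmJ: uniqueness of the simple module for a block and index prime to `p`

* `psi_unique`: if `p` does not divide `|M : N|` and `b` is a block of `M` with `b * c = b` then two simple modules of `(kM)^N` on which
  `c` and `b` act as `1` are isomorphic.
* `kap_eq`: if moreover `b` is `K`-invariant then `kap = teichmuller s` with `s ≠ 0`.
-/

namespace Pool.Agent.Lib.P0c8ca5.Un8

open MonoidAlgebra Bq Ps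

variable {p : ℕ} {k : Type*} [Field k] {A : Type*} [Group A]
variable {N K : Subgroup A} {c b : MonoidAlgebra k A}

theorem phi_cj [Fintype A] (h : UH N K c) {n : ℕ}
    {φ : MonoidAlgebra k A → Module.End k (Fin n → k)} (hφ : CR h.unt N c φ) {g : A}
    (hg : g ∈ h.unt) {z : MonoidAlgebra k A} (hz : z ∈ fixAlg k h.unt N) {s : k}
    (hs : φ z = s • 1) : φ (cj g z) = s • 1 := by
  obtain ⟨hgK, w, v, hwv⟩ := h.mem_unt.1 hg
  obtain ⟨hwC, hvC⟩ := UP.mem h hg hwv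
  have hcC : c ∈ fixAlg k h.unt N := mem_MN h h.blk.mem
  have hgz : cj g z ∈ fixAlg k h.unt N := cj_mem_fixAlg hz (h.norm_unt hgK) (h.nm hgK)
  have e1 : w * z * v = cj g z * c := by
    rw [unit_conj (h.nm hgK) hwv.su (mem_fixAlg.1 hz).2, mul_assoc, hwv.uv]
  have e2 : φ (cj g z * c) = φ (cj g z) := by rw [hφ.mul _ hgz _ hcC, hφ.one, mul_one]
  rw [← e2, ← e1, hφ.mul _ ((fixAlg k h.unt N).mul_mem hwC hz) _ hvC, hφ.mul _ hwC _ hz, hs,
    mul_smul_comm, mul_one, smul_mul_assoc, ← hφ.mul _ hwC _ hvC, hwv.uv, hφ.one]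

theorem psi_unique [Fact p.Prime] [CharP k p] [Fintype A] (h : UH N K c)
    (hbB : IsBlock h.unt b) (hp : ¬ p ∣ N.relIndex h.unt) {n n' : ℕ}
    {φ : MonoidAlgebra k A → Module.End k (Fin n → k)} (hφ : CR h.unt N c φ) (hφb : φ b = 1)
    {φ' : MonoidAlgebra k A → Module.End k (Fin n' → k)} (hφ' : CR h.unt N c φ')
    (hφb' : φ' b = 1) :
    ∃ P : (Fin n → k) ≃ₗ[k] (Fin n' → k), ∀ z ∈ fixAlg k h.unt N, ∀ w,
      P (φ z w) = φ' z (P w) := by
  classical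
  by_contra hcon
  have hcC : c ∈ fixAlg k h.unt N := mem_MN h h.blk.mem
  obtain ⟨z, hz, hz1, hz0⟩ := sep hcC hφ hφ' hcon
  have : Fintype h.unt := Fintype.ofFinite _
  have : Fintype (↥h.unt ⧸ N.subgroupOf h.unt) := Fintype.ofFinite _
  have hcjz : ∀ g ∈ h.unt, cj g z ∈ fixAlg k h.unt N := fun g hg =>
    cj_mem_fixAlg hz (h.norm_unt (h.unt_le hg)) (h.nm (h.unt_le hg))
  let zs : (↥h.unt ⧸ N.subgroupOf h.unt) → fixAlg k h.unt N := fun q =>
    ⟨cj ((q.out : h.unt) : A) z, hcjz _ (q.out : h.unt).2⟩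
  obtain ⟨z', hz'⟩ : ∃ z' : fixAlg k h.unt N, z' = ∑ q, zs q := ⟨_, rfl⟩
  have hzA : (z' : MonoidAlgebra k A) = ∑ q : ↥h.unt ⧸ N.subgroupOf h.unt,
      cj ((q.out : h.unt) : A) z := by
    rw [hz']
    exact AddSubmonoidClass.coe_finset_sum _ _
  have hinv : InvBy h.unt (z' : MonoidAlgebra k A) := by
    rw [invBy_iff_cj]
    intro g hg
    rw [hzA, cj_sum]
    refine Fintype.sum_equiv (MulAction.toPerm (⟨g, hg⟩ : h.unt)) _ _ (fun q => ?_)
    rw [cj_cj]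
    change cj (g * ((q.out : h.unt) : A)) z
      = cj (((((⟨g, hg⟩ : h.unt) • q : ↥h.unt ⧸ N.subgroupOf h.unt).out : h.unt)) : A) z
    have h1 : ((⟨g, hg⟩ : h.unt) * q.out)⁻¹ *
        ((⟨g, hg⟩ : h.unt) • q : ↥h.unt ⧸ N.subgroupOf h.unt).out ∈ N.subgroupOf h.unt := by
      rw [← QuotientGroup.eq, QuotientGroup.out_eq']
      change (QuotientGroup.mk ((⟨g, hg⟩ : h.unt) * q.out) : ↥h.unt ⧸ N.subgroupOf h.unt)
        = (⟨g, hg⟩ : h.unt) • q
      conv_rhs => rw [← QuotientGroup.out_eq' q]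
      rfl
    rw [Subgroup.mem_subgroupOf] at h1
    have h2 := invBy_iff_cj.1 (mem_fixAlg.1 hz).2 _ h1
    conv_lhs => rw [← h2]
    rw [cj_cj]
    congr 1
    change g * ((q.out : h.unt) : A) * ((g * ((q.out : h.unt) : A))⁻¹ * _) = _
    group
  have hzM : (z' : MonoidAlgebra k A) ∈ fixAlg k h.unt h.unt :=
    mem_fixAlg.2 ⟨(mem_fixAlg.1 z'.2).1, hinv⟩
  have hv1 : φ z' = (Nat.card (↥h.unt ⧸ N.subgroupOf h.unt) : k) • 1 := by
    have h1 : (hφ.hom hcC) z' = ∑ q, (hφ.hom hcC) (zs q) := by rw [hz', map_sum]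
    have h2 : ∀ q, (hφ.hom hcC) (zs q) = 1 := fun q => by
      have h3 := phi_cj h hφ (q.out : h.unt).2 hz (s := 1) (by rw [hz1, one_smul])
      rw [one_smul] at h3
      exact h3
    rw [Finset.sum_congr rfl (fun q _ => h2 q), Finset.sum_const, Finset.card_univ,
      ← Nat.card_eq_fintype_card, ← Nat.cast_smul_eq_nsmul k] at h1
    exact h1
  have hv0 : φ' z' = 0 := by
    have h1 : (hφ'.hom hcC) z' = ∑ q, (hφ'.hom hcC) (zs q) := by rw [hz', map_sum]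
    have h2 : ∀ q, (hφ'.hom hcC) (zs q) = 0 := fun q => by
      have h3 := phi_cj h hφ' (q.out : h.unt).2 hz (s := 0) (by rw [hz0, zero_smul])
      rw [zero_smul] at h3
      exact h3
    rw [Finset.sum_congr rfl (fun q _ => h2 q), Finset.sum_const_zero] at h1
    exact h1
  have hcard : (Nat.card (↥h.unt ⧸ N.subgroupOf h.unt) : k) ≠ 0 := by
    intro h1
    exact hp ((CharP.cast_eq_zero_iff k p _).1 h1)
  have hbC : b ∈ fixAlg k h.unt N :=
    mem_fixAlg.2 ⟨hbB.suppIn, hbB.invBy.mono h.le_unt⟩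
  have hMM : ∀ {a : MonoidAlgebra k A}, a ∈ fixAlg k h.unt h.unt → a ∈ fixAlg k h.unt N :=
    fun ha => mem_fixAlg.2 ⟨(mem_fixAlg.1 ha).1, (mem_fixAlg.1 ha).2.mono h.le_unt⟩
  have hnt := hφ.nontriv
  have hnt' := hφ'.nontriv
  have : IsArtinianRing (fixAlg k h.unt h.unt) := IsArtinianRing.of_finite k _
  rcases hbB.primIdem.nilp_or_unit (⟨z', hzM⟩ : fixAlg k h.unt h.unt) with ⟨m, hm⟩ | ⟨w, hw⟩
  · have h1 : ((z' : MonoidAlgebra k A) * b) ^ (m + 1) = 0 := by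
      have h2 := congrArg Subtype.val hm
      rw [SubmonoidClass.coe_pow] at h2
      change ((z' : MonoidAlgebra k A) * b) ^ m = 0 at h2
      rw [pow_succ, h2, zero_mul]
    have h2 := hφ.pow (a := (z' : MonoidAlgebra k A) * b) ((fixAlg k h.unt N).mul_mem z'.2 hbC) m
    rw [h1, hφ.zero, hφ.mul _ z'.2 _ hbC, hφb, mul_one, hv1, smul_pow, one_pow] at h2
    obtain ⟨v, hv⟩ := exists_ne (0 : Fin n → k)
    have h3 := LinearMap.congr_fun h2 v
    change 0 = (Nat.card (↥h.unt ⧸ N.subgroupOf h.unt) : k) ^ (m + 1) • v at h3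
    rcases smul_eq_zero.1 h3.symm with h4 | h4
    · exact hcard (pow_eq_zero_iff (Nat.succ_ne_zero m) |>.1 h4)
    · exact hv h4
  · have h1 : (z' : MonoidAlgebra k A) * w.1 * b = b := congrArg Subtype.val hw
    have h2 : φ' ((z' : MonoidAlgebra k A) * w.1 * b) = 0 := by
      rw [hφ'.mul _ ((fixAlg k h.unt N).mul_mem z'.2 (hMM w.2)) _ hbC,
        hφ'.mul _ z'.2 _ (hMM w.2), hv0, zero_mul, zero_mul]
    rw [h1, hφb'] at h2
    obtain ⟨v, hv⟩ := exists_ne (0 : Fin n' → k)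
    exact hv (LinearMap.congr_fun h2 v)

/-- the conjugate of a simple module -/
theorem CR.cjx (h : UH N K c) {n : ℕ} {φ : MonoidAlgebra k A → Module.End k (Fin n → k)}
    (hφ : CR h.unt N c φ) {x : A} (hx : x ∈ K) : CR h.unt N c (fun a => φ (cj x a)) := by
  have hcx : ∀ {x : A}, x ∈ K → ∀ z ∈ fixAlg k h.unt N, cj x z ∈ fixAlg k h.unt N :=
    fun hx z hz => cj_mem_fixAlg hz (h.norm_unt hx) (h.nm hx)
  refine ⟨fun a ha b hb => ?_, fun a ha b hb => ?_, fun s a ha => ?_, ?_, hφ.nontriv, ?_⟩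
  · rw [cj_mul, hφ.mul _ (hcx hx a ha) _ (hcx hx b hb)]
  · rw [cj_add, hφ.add _ (hcx hx a ha) _ (hcx hx b hb)]
  · rw [cj_smul, hφ.smul _ _ (hcx hx a ha)]
  · rw [invBy_iff_cj.1 h.inv x hx, hφ.one]
  · intro U hU
    refine hφ.sub U (fun a ha w hw => ?_)
    have h1 := hU (cj x⁻¹ a) (hcx (K.inv_mem hx) a ha) w hw
    rw [cj_cj, mul_inv_cancel, cj_one_left] at h1
    exact h1

theorem qt_bot (N : Subgroup A) : QT p N ⊥ ⊤ where
  QN := bot_le
  pg := IsPGroup.of_bot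
  cT := le_top
  nT := by rw [Subgroup.normalizer_eq_top]

theorem cS_bot (a : MonoidAlgebra k A) : cS (⊥ : Subgroup A) a = a := by
  ext x
  have hx : x ∈ (Subgroup.centralizer ((⊥ : Subgroup A) : Set A) : Set A) := by
    rw [SetLike.mem_coe, Subgroup.mem_centralizer_iff]
    intro y hy
    rw [SetLike.mem_coe, Subgroup.mem_bot] at hy
    rw [hy, one_mul, mul_one]
  rw [coeff_resS_of_mem _ hx]

theorem exists_psi' [Fact p.Prime] [CharP k p] [IsAlgClosed k] [Fintype A] (h : UH N K c)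
    (hbB : IsBlock h.unt b) (hbc : b * c = b) : Nonempty (Psi h.unt N c b) := by
  have hbC : b ∈ fixAlg k h.unt N :=
    mem_fixAlg.2 ⟨hbB.suppIn, hbB.invBy.mono h.le_unt⟩
  have hb' : IsBlock (h.unt ⊓ ⊤) b := by rwa [inf_top_eq]
  obtain ⟨d, ρ, hρ, hρb⟩ := Rk.CardDZAux.exists_rep hb'
  have hρc : act ρ c = 1 := by
    have h1 := act_mul ρ (a := b) (b := c) hb'.suppIn
    rw [hbc, hρb, one_mul] at h1
    exact h1.symm
  obtain ⟨n, θ, hθ, hbθ, m, φ, hφ, hiso⟩ := exists_tp h (qt_bot N) hρ (by rwa [cS_bot])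
  have hφb : φ b = 1 := by
    have h1 := act_iso hiso.symm hρb
    have h3 := act_tp_b h (qt_bot N) hθ hbθ hφ hbC hbc
    rw [cS_bot] at h3
    rw [h3] at h1
    have h2 : kr (1 : Module.End k (Fin n → k)) (φ b) = kr 1 (1 : Module.End k (Fin m → k)) := by
      rw [h1]
      exact (LinearMap.ext kr_one).symm
    have := hθ.nontriv
    exact kr_right_inj (by
      obtain ⟨v, hv⟩ := exists_ne (0 : Fin n → k)
      intro h3
      exact hv (LinearMap.congr_fun h3 v)) h2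
  exact ⟨Quotient.mk _ ⟨m, φ, hφ, hφb⟩⟩

/-- `kap` for blocks and index prime to `p` -/
theorem kap_eq [Fact p.Prime] [CharP k p] [IsAlgClosed k] [Fintype A] (h : UH N K c)
    (hbB : IsBlock h.unt b) (hbK : InvBy K b) (hbc : b * c = b) (hp : ¬ p ∣ N.relIndex h.unt)
    {x y : A} (hx : x ∈ K) (hy : y ∈ K) (hg : y * x * y⁻¹ * x⁻¹ ∈ h.unt)
    {w v : MonoidAlgebra k A} (hwv : UP N c (y * x * y⁻¹ * x⁻¹) w v) :
    ∃ s : k, s ≠ 0 ∧ kap p h.unt N c b x y w = WittVector.teichmuller p s := by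
  classical
  obtain ⟨ψ₀⟩ := exists_psi' h hbB hbc
  have hsub : ∀ ψ : Psi h.unt N c b, ψ = ψ₀ := by
    intro ψ
    rw [← Quotient.out_eq ψ, ← Quotient.out_eq ψ₀]
    exact Quotient.sound (psi_unique h hbB hp (Quotient.out ψ).cr (Quotient.out ψ).blk
      (Quotient.out ψ₀).cr (Quotient.out ψ₀).blk)
  refine ⟨omCX h.unt N c b ψ₀ x y w, ?_, ?_⟩
  · have hφ := (Quotient.out ψ₀).cr
    have hφb := (Quotient.out ψ₀).blk
    have hitw : ∀ x ∈ K, ∃ X : (Fin (Quotient.out ψ₀).m → k) ≃ₗ[k] (Fin (Quotient.out ψ₀).m → k),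
        ItC h.unt N (Quotient.out ψ₀).φ (Quotient.out ψ₀).φ x X.toLinearMap := by
      intro x hx
      obtain ⟨P, hP⟩ := psi_unique h hbB hp hφ hφb (hφ.cjx h hx)
        (by rw [invBy_iff_cj.1 hbK x hx, hφb])
      exact ⟨P, hP⟩
    obtain ⟨X, hX⟩ := hitw x hx
    obtain ⟨Y, hY⟩ := hitw y hy
    obtain ⟨t, ht, ht'⟩ := omC_exists h hφ hx hy hg hwv hX hY
    obtain ⟨hwC, hvC⟩ := UP.mem h hg hwv
    have j2 : (Quotient.out ψ₀).φ v * (Quotient.out ψ₀).φ w = 1 := by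
      rw [← hφ.mul _ hvC _ hwC, hwv.vu, hφ.one]
    rw [omCX, omC_eq hφ (fun a b hab => by
      have h1 := congrArg ((Quotient.out ψ₀).φ v) hab
      rw [← Module.End.mul_apply, ← Module.End.mul_apply, j2] at h1
      exact h1) ⟨X, Y, hX, hY, ht'⟩]
    exact ht
  · rw [kap, finsum_eq_single _ ψ₀ (fun ψ hψ => absurd (hsub ψ) hψ)]

end Pool.Agent.Lib.P0c8ca5.Un8
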