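import Mathlib
import Pool.Agent.Lib.P0c8ca5U.CmJ
import Pool.Agent.Lib.P0c8ca5H.Defs

/-!
# Module UnxB: products of elements of commuting subgroups

* `lp_mul_lp`, `swap_lp`: products of families that commute for different indices.
* `lp_expand`: `lp m` is the sum of the `∏ m_i(t_i) lp t`.
* `resS_lp`: if `lp t ∈ S` iff `t i ∈ S' i` for all `i` (for `t i ∈ W i`), then `resS S (lp m) = lp (fun i => resS (S' i) (m i))` for `m i` in
  `k (W i)`.
* `CF W V`: `V` is the product of the pairwise commuting subgroups `W i`.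
-/

set_option autoImplicit false

namespace Pool.Agent.Lib.P0c8ca5.Un8

open MonoidAlgebra Bq Ps Hh

variable {p : ℕ} {k : Type*} [Field k] {A : Type*} [Group A]

section monoid

variable {M : Type*} [Monoid M] {n : ℕ}

theorem comm_lp {b : M} {a : Fin n → M} (h : ∀ i, b * a i = a i * b) : b * lp a = lp a * b := by
  induction n with
  | zero => rw [lp_zero, mul_one, one_mul]
  | succ n ih =>
    rw [lp_succ, ← mul_assoc, h 0, mul_assoc, ih (fun i => h i.succ), mul_assoc]

theorem lp_mul_lp {a b : Fin n → M} (h : ∀ i j, i ≠ j → a i * b j = b j * a i) :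
    lp a * lp b = lp (fun i => a i * b i) := by
  induction n with
  | zero => rw [lp_zero, lp_zero, lp_zero, mul_one]
  | succ n ih =>
    rw [lp_succ, lp_succ b, lp_succ (fun i => a i * b i),
      ← ih (fun i j hij => h i.succ j.succ (fun h' => hij (Fin.succ_injective _ h')))]
    have h1 : b 0 * lp (fun i : Fin n => a i.succ) = lp (fun i : Fin n => a i.succ) * b 0 :=
      comm_lp fun i => (h i.succ 0 (Fin.succ_ne_zero i)).symm
    calc a 0 * lp (fun i : Fin n => a i.succ) * (b 0 * lp (fun i : Fin n => b i.succ))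
        = a 0 * (lp (fun i : Fin n => a i.succ) * b 0) * lp (fun i : Fin n => b i.succ) := by
          simp only [mul_assoc]
      _ = a 0 * b 0 * (lp (fun i : Fin n => a i.succ) * lp (fun i : Fin n => b i.succ)) := by
          rw [← h1]; simp only [mul_assoc]

theorem swap_lp {b b' : M} {a : Fin n → M} (i : Fin n) (h : b * a i = a i * b')
    (h1 : ∀ j, j ≠ i → b * a j = a j * b) (h2 : ∀ j, j ≠ i → b' * a j = a j * b') :
    b * lp a = lp a * b' := by
  induction n with
  | zero => exact i.elim0
  | succ n ih =>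
    rw [lp_succ]
    rcases Fin.eq_zero_or_eq_succ i with rfl | ⟨j, rfl⟩
    · rw [← mul_assoc, h, mul_assoc, comm_lp (fun j => h2 _ (Fin.succ_ne_zero j)), mul_assoc]
    · rw [← mul_assoc, h1 0 (Fin.succ_ne_zero j).symm, mul_assoc, ih j h
        (fun l hl => h1 _ (fun h' => hl (Fin.succ_injective _ h')))
        (fun l hl => h2 _ (fun h' => hl (Fin.succ_injective _ h'))), mul_assoc]

theorem lp_one : lp (fun _ : Fin n => (1 : M)) = 1 := by
  induction n with
  | zero => rw [lp_zero]
  | succ n ih => rw [lp_succ, ih, mul_one]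

theorem map_lp {M' : Type*} [Monoid M'] (f : M →* M') (a : Fin n → M) :
    f (lp a) = lp (fun i => f (a i)) := by
  induction n with
  | zero => rw [lp_zero, lp_zero, map_one]
  | succ n ih => rw [lp_succ, lp_succ, map_mul, ih]

end monoid

section alg

variable {n : ℕ}

theorem cj_lp (g : A) (a : Fin n → MonoidAlgebra k A) :
    cj g (lp a) = lp (fun i => cj g (a i)) := by
  induction n with
  | zero => rw [lp_zero, lp_zero, cj_one]
  | succ n ih => rw [lp_succ, lp_succ, cj_mul, ih]

theorem single_lp (a : Fin n → A) :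
    (single (lp a) 1 : MonoidAlgebra k A) = lp (fun i => single (a i) 1) := by
  induction n with
  | zero => rw [lp_zero, lp_zero]; rfl
  | succ n ih => rw [lp_succ, lp_succ, ← ih, single_mul_single, one_mul]

theorem lp_mem {V : Subgroup A} {a : Fin n → A} (h : ∀ i, a i ∈ V) : lp a ∈ V := by
  induction n with
  | zero => rw [lp_zero]; exact V.one_mem
  | succ n ih => rw [lp_succ]; exact V.mul_mem (h 0) (ih fun i => h i.succ)

theorem lp_supp {V : Subgroup A} {a : Fin n → MonoidAlgebra k A} (h : ∀ i, SuppIn V (a i)) :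
    SuppIn V (lp a) := by
  induction n with
  | zero => rw [lp_zero]; exact (mem_fixAlg.1 (fixAlg k V V).one_mem).1
  | succ n ih => rw [lp_succ]; exact (h 0).mul (ih fun i => h i.succ)

/-- elements with commuting supports commute -/
theorem supp_comm [Finite A] {S T : Subgroup A} (h : ∀ x ∈ S, ∀ y ∈ T, x * y = y * x)
    {a b : MonoidAlgebra k A} (ha : SuppIn S a) (hb : SuppIn T b) : a * b = b * a := by
  refine commute_of ha ?_
  rw [invBy_iff_commute]
  intro x hx
  show single x 1 * b = b * single x 1
  ext z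
  rw [coeff_mul_single_apply, coeff_single_mul_apply, one_mul, mul_one]
  have key : x⁻¹ * z ∈ T ∨ z * x⁻¹ ∈ T → x⁻¹ * z = z * x⁻¹ := by
    rintro (h1 | h1)
    · have h2 := h x hx _ h1
      rw [mul_inv_cancel_left] at h2
      nth_rw 2 [h2]
      rw [mul_inv_cancel_right]
    · have h2 := h x hx _ h1
      rw [inv_mul_cancel_right] at h2
      nth_rw 1 [← h2]
      rw [inv_mul_cancel_left]
  by_cases h1 : b.coeff (x⁻¹ * z) = 0
  · by_cases h2 : b.coeff (z * x⁻¹) = 0
    · rw [h1, h2]
    · rw [key (Or.inr (hb _ h2))]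
  · rw [key (Or.inl (hb _ h1))]

theorem sum_single' [Fintype A] (a : MonoidAlgebra k A) : a = ∑ x : A, single x (a.coeff x) := by
  classical
  ext z
  rw [coeff_sum, Finsupp.finsetSum_apply, Finset.sum_eq_single z]
  · rw [coeff_single, Finsupp.single_eq_same]
  · intro x _ hx
    rw [coeff_single, Finsupp.single_eq_of_ne' hx]
  · intro h
    exact absurd (Finset.mem_univ z) h

theorem lp_expand [Fintype A] (m : Fin n → MonoidAlgebra k A) :
    lp m = ∑ t : Fin n → A, single (lp t) (∏ i, (m i).coeff (t i)) := by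
  classical
  induction n with
  | zero =>
    rw [lp_zero, Fintype.sum_unique, lp_zero, Fin.prod_univ_zero]
    rfl
  | succ n ih =>
    rw [lp_succ, ih]
    nth_rw 1 [sum_single' (m 0)]
    rw [Finset.sum_mul_sum, ← Fintype.sum_prod_type',
      ← (Fin.consEquiv (fun _ : Fin (n + 1) => A)).sum_comp]
    refine Finset.sum_congr rfl fun t _ => ?_
    rw [single_mul_single, lp_succ, Fin.prod_univ_succ]
    rfl

theorem resS_single' (S : Set A) (x : A) (s : k) [Decidable (x ∈ S)] :
    resS S (single x s : MonoidAlgebra k A) = if x ∈ S then single x s else 0 := by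
  classical
  ext z
  by_cases hx : x ∈ S
  · rw [if_pos hx]
    by_cases hz : z ∈ S
    · rw [coeff_resS_of_mem _ hz]
    · rw [coeff_resS_of_notMem _ hz, coeff_single, Finsupp.single_eq_of_ne]
      rintro rfl
      exact hz hx
  · rw [if_neg hx]
    by_cases hz : z ∈ S
    · rw [coeff_resS_of_mem _ hz, coeff_single, Finsupp.single_eq_of_ne]
      · rfl
      · rintro rfl
        exact hx hz
    · rw [coeff_resS_of_notMem _ hz]
      rfl

theorem resS_sum' {ι : Type*} (S : Set A) (s : Finset ι) (f : ι → MonoidAlgebra k A) :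
    resS S (∑ i ∈ s, f i) = ∑ i ∈ s, resS S (f i) := by
  classical
  induction s using Finset.induction_on with
  | empty => rw [Finset.sum_empty, Finset.sum_empty, resS_zero]
  | insert i s hi ih => rw [Finset.sum_insert hi, Finset.sum_insert hi, resS_add, ih]

/-- restriction of a product to a set of product type -/
theorem resS_lp [Fintype A] {W : Fin n → Subgroup A} {S : Set A} {S' : Fin n → Set A}
    (hS : ∀ t : Fin n → A, (∀ i, t i ∈ W i) → (lp t ∈ S ↔ ∀ i, t i ∈ S' i))
    {m : Fin n → MonoidAlgebra k A} (hm : ∀ i, SuppIn (W i) (m i)) :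
    resS S (lp m) = lp (fun i => resS (S' i) (m i)) := by
  classical
  rw [lp_expand, lp_expand, resS_sum']
  refine Finset.sum_congr rfl fun t _ => ?_
  rw [resS_single']
  by_cases ht : ∀ i, (m i).coeff (t i) ≠ 0
  · by_cases h1 : lp t ∈ S
    · rw [if_pos h1]
      have h2 := (hS t fun i => hm i _ (ht i)).1 h1
      congr 1
      exact Finset.prod_congr rfl fun i _ => (coeff_resS_of_mem _ (h2 i)).symm
    · rw [if_neg h1]
      have h2 : ¬ ∀ i, t i ∈ S' i := fun h => h1 ((hS t fun i => hm i _ (ht i)).2 h)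
      push Not at h2
      obtain ⟨i, hi⟩ := h2
      rw [Finset.prod_eq_zero (Finset.mem_univ i) (coeff_resS_of_notMem _ hi), single_zero]
  · push Not at ht
    obtain ⟨i, hi⟩ := ht
    have h3 : (resS (S' i) (m i)).coeff (t i) = 0 := by
      by_cases h : t i ∈ S' i
      · rw [coeff_resS_of_mem _ h, hi]
      · exact coeff_resS_of_notMem _ h
    rw [Finset.prod_eq_zero (Finset.mem_univ i) hi, Finset.prod_eq_zero (Finset.mem_univ i) h3,
      single_zero, ite_self]

/-- left translation of a restriction -/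
theorem single_resS (g : A) (S : Set A) (a : MonoidAlgebra k A) :
    single g 1 * resS S a = resS {z | g⁻¹ * z ∈ S} (single g 1 * a) := by
  ext z
  rw [coeff_single_mul_apply, one_mul]
  by_cases hz : g⁻¹ * z ∈ S
  · rw [coeff_resS_of_mem _ hz, coeff_resS_of_mem _ (show z ∈ {z | g⁻¹ * z ∈ S} from hz),
      coeff_single_mul_apply, one_mul]
  · rw [coeff_resS_of_notMem _ hz,
      coeff_resS_of_notMem _ (show z ∉ {z | g⁻¹ * z ∈ S} from hz)]

end alg

end Pool.Agent.Lib.P0c8ca5.Un8
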