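import Mathlib
import Pool.Agent.Lib.P0c8ca5U.UnxB

/-!
# Module UnxC: units of a product of commuting subgroups

`CP V W c cc`: `V` is the product of the pairwise commuting subgroups `W i`, `cc i` is a block of `W i`, `c = lp cc`.

* `CP.up`: from units `w i` over `g⁻¹` for the `W i` the unit `g⁻¹ lp (g w_i)` over `g⁻¹` for `V`.
* `CP.eta`: `g w = η lp (g w_i)` with a central element `η` of `kV` with a residue `s ≠ 0`, for every unit `w` over `g⁻¹` for `V`.
* `cS_lp`: `cS P (lp m) = lp (fun i => cS (P i) (m i))` for `P = ⨆ i, P i`, `P i ≤ W i`, `m i` in `k (W i)`.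
* `CP.level`: `a g cS P w = cS P η * lp (a_i g cS (P i) w_i)` for `a = lp a_i`, `a g` in `N(P)`.
-/

set_option autoImplicit false

namespace Pool.Agent.Lib.P0c8ca5.Un8

open MonoidAlgebra Bq Ps Hh

variable {p : ℕ} {k : Type*} [Field k] {A : Type*} [Group A]

/-- `V` is the product of the commuting subgroups `W i`, `cc i` is a block of `W i`, `c = lp cc` -/
structure CP (V : Subgroup A) {n : ℕ} (W : Fin n → Subgroup A) (c : MonoidAlgebra k A)
    (cc : Fin n → MonoidAlgebra k A) : Prop where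
  sup : (⨆ i, W i) = V
  comm : ∀ i j, i ≠ j → ∀ x ∈ W i, ∀ y ∈ W j, x * y = y * x
  blk : ∀ i, IsBlock (W i) (cc i)
  eq : c = lp cc

theorem inv_iSup {ι : Sort*} {W : ι → Subgroup A} {a : MonoidAlgebra k A}
    (h : ∀ i, InvBy (W i) a) : InvBy (⨆ i, W i) a := by
  let S : Subgroup A :=
    { carrier := {x | ∀ z, a.coeff (x * z * x⁻¹) = a.coeff z}
      mul_mem' := by
        intro x y hx hy z
        have e : x * y * z * (x * y)⁻¹ = x * (y * z * y⁻¹) * x⁻¹ := by group
        rw [e, hx, hy]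
      one_mem' := by intro z; simp
      inv_mem' := by
        intro x hx z
        have h1 := hx (x⁻¹ * z * x⁻¹⁻¹)
        have e : x * (x⁻¹ * z * x⁻¹⁻¹) * x⁻¹ = z := by group
        rw [e] at h1
        exact h1.symm }
  have h1 : (⨆ i, W i) ≤ S := iSup_le fun i x hx => h i x hx
  exact fun x hx => h1 hx

theorem supp_single {S : Subgroup A} {x : A} (hx : x ∈ S) :
    SuppIn S (single x 1 : MonoidAlgebra k A) := by
  intro z hz
  by_cases h : z = x
  · rw [h]; exact hx
  · exfalso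
    apply hz
    rw [coeff_single, Finsupp.single_eq_of_ne h]

section

variable {V K : Subgroup A} {n : ℕ} {W : Fin n → Subgroup A} {c : MonoidAlgebra k A}
  {cc : Fin n → MonoidAlgebra k A} {g : A} {wi vi : Fin n → MonoidAlgebra k A}

theorem G_supp {W : Subgroup A} {c w v : MonoidAlgebra k A} (hg : g ∈ Subgroup.normalizer (W : Set A))
    (h : UP W c g⁻¹ w v) : SuppIn W (single g 1 * w) := by
  intro z hz
  rw [coeff_single_mul_apply, one_mul] at hz
  have h1 := h.su _ hz
  have e : g⁻¹ * z * g⁻¹⁻¹ = g⁻¹ * z * g⁻¹⁻¹ := rfl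
  have h2 := (Subgroup.mem_normalizer_iff.1 hg _).1 h1
  have e2 : g * (g⁻¹ * z * g⁻¹⁻¹) * g⁻¹ = z := by group
  rwa [e2] at h2

theorem H_supp {W : Subgroup A} {c w v : MonoidAlgebra k A}
    (h : UP W c g⁻¹ w v) : SuppIn W (v * single g⁻¹ 1) := by
  intro z hz
  rw [coeff_mul_single_apply, mul_one, inv_inv] at hz
  have h1 := h.sv _ hz
  rwa [mul_inv_cancel_right] at h1

theorem sg_mul_sg (x y : A) : (single x 1 : MonoidAlgebra k A) * single y 1 = single (x * y) 1 := by
  rw [single_mul_single, one_mul]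

theorem sg_comm {N : Subgroup A} {a : MonoidAlgebra k A} (ha : InvBy N a) {u : A} (hu : u ∈ N) :
    single u 1 * a = a * single u 1 := by
  rw [invBy_iff_commute] at ha
  exact ha u hu

theorem inv_of_comm {N : Subgroup A} {a : MonoidAlgebra k A}
    (ha : ∀ u ∈ N, single u 1 * a = a * single u 1) : InvBy N a := by
  rw [invBy_iff_commute]
  exact fun u hu => ha u hu

theorem G_swap {W : Subgroup A} {c w v : MonoidAlgebra k A} (h : UP W c g⁻¹ w v) {u : A}
    (hu : u ∈ W) : single (g * u * g⁻¹) 1 * (single g 1 * w) = single g 1 * w * single u 1 := by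
  rw [← mul_assoc, sg_mul_sg, inv_mul_cancel_right, ← sg_mul_sg, mul_assoc, sg_comm h.iu hu,
    mul_assoc]

theorem H_swap {W : Subgroup A} {c w v : MonoidAlgebra k A} (h : UP W c g⁻¹ w v) {u : A}
    (hu : u ∈ W) : single u 1 * (v * single g⁻¹ 1) = v * single g⁻¹ 1 * single (g * u * g⁻¹) 1 := by
  rw [← mul_assoc, sg_comm h.iv hu, mul_assoc, mul_assoc, sg_mul_sg, sg_mul_sg]
  have e : g⁻¹ * (g * u * g⁻¹) = u * g⁻¹ := by group
  rw [e]

section

variable (hP : CP V W c cc) (hgV : g ∈ Subgroup.normalizer (V : Set A))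
  (hg : ∀ i, g ∈ Subgroup.normalizer (W i : Set A)) (hcc : ∀ i, cj g (cc i) = cc i)
  (h : ∀ i, UP (W i) (cc i) g⁻¹ (wi i) (vi i))

include hP

theorem CP.le (i : Fin n) : W i ≤ V := by
  rw [← hP.sup]
  exact le_iSup W i

theorem CP.fam_comm [Finite A] {a b : Fin n → MonoidAlgebra k A} (ha : ∀ i, SuppIn (W i) (a i))
    (hb : ∀ i, SuppIn (W i) (b i)) : ∀ i j, i ≠ j → a i * b j = b j * a i :=
  fun i j hij => supp_comm (hP.comm i j hij) (ha i) (hb j)

theorem CP.sg_fam [Finite A] {a : Fin n → MonoidAlgebra k A} (ha : ∀ i, SuppIn (W i) (a i))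
    {i : Fin n} {u : A} (hu : u ∈ W i) : ∀ j, j ≠ i → single u 1 * a j = a j * single u 1 :=
  fun j hij => supp_comm (hP.comm i j hij.symm) (supp_single hu) (ha j)

include hg h

theorem CP.swapG [Finite A] {i : Fin n} {u : A} (hu : u ∈ W i) :
    single (g * u * g⁻¹) 1 * lp (fun i => single g 1 * wi i) =
      lp (fun i => single g 1 * wi i) * single u 1 :=
  swap_lp i (G_swap (h i) hu)
    (hP.sg_fam (fun j => G_supp (hg j) (h j)) ((Subgroup.mem_normalizer_iff.1 (hg i) _).1 hu))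
    (hP.sg_fam (fun j => G_supp (hg j) (h j)) hu)

theorem CP.swapH [Finite A] {i : Fin n} {u : A} (hu : u ∈ W i) :
    single u 1 * lp (fun i => vi i * single g⁻¹ 1) =
      lp (fun i => vi i * single g⁻¹ 1) * single (g * u * g⁻¹) 1 :=
  swap_lp i (H_swap (h i) hu) (hP.sg_fam (fun j => H_supp (h j)) hu)
    (hP.sg_fam (fun j => H_supp (h j)) ((Subgroup.mem_normalizer_iff.1 (hg i) _).1 hu))

include hgV hcc

/-- a unit for `V` from units for the factors -/
theorem CP.up [Finite A] :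
    UP V c g⁻¹ (single g⁻¹ 1 * lp (fun i => single g 1 * wi i))
      (lp (fun i => vi i * single g⁻¹ 1) * single g 1) := by
  have hGs : ∀ i, SuppIn (W i) (single g 1 * wi i) := fun i => G_supp (hg i) (h i)
  have hHs : ∀ i, SuppIn (W i) (vi i * single g⁻¹ 1) := fun i => H_supp (h i)
  have hcs : ∀ i, SuppIn (W i) (cc i) := fun i => (hP.blk i).suppIn
  have hgc : cj g c = c := by
    rw [hP.eq, cj_lp]
    congr 1
    exact funext hcc
  have hgc' : cj g⁻¹ c = c := by
    nth_rw 1 [← hgc]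
    rw [cj_cj, inv_mul_cancel, cj_one_left]
  have hgcm : single g 1 * c = c * single g 1 := by
    have h1 := congrArg (fun a => a * single g (1 : k)) hgc
    simp only [cj] at h1
    rw [mul_assoc, sg_mul_sg, inv_mul_cancel] at h1
    rw [← h1]
    exact (mul_one _).symm
  have hgcm' : ∀ i, single g⁻¹ 1 * cc i = cc i * single g⁻¹ 1 := by
    intro i
    have h1 : single g 1 * cc i * single g⁻¹ 1 = cc i := hcc i
    calc single g⁻¹ 1 * cc i = single g⁻¹ 1 * (single g 1 * cc i * single g⁻¹ 1) := by rw [h1]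
      _ = single g⁻¹ 1 * single g 1 * (cc i * single g⁻¹ 1) := by simp only [mul_assoc]
      _ = cc i * single g⁻¹ 1 := by rw [sg_mul_sg, inv_mul_cancel]; exact one_mul _
  have hGH : lp (fun i => single g 1 * wi i) * lp (fun i => vi i * single g⁻¹ 1) = c := by
    rw [lp_mul_lp (hP.fam_comm hGs hHs), hP.eq]
    congr 1
    funext i
    rw [← hcc i, ← (h i).uv]
    simp only [cj, mul_assoc]
  have hHG : lp (fun i => vi i * single g⁻¹ 1) * lp (fun i => single g 1 * wi i) = c := by
    rw [lp_mul_lp (hP.fam_comm hHs hGs), hP.eq]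
    congr 1
    funext i
    rw [mul_assoc, ← mul_assoc (single g⁻¹ (1 : k)), sg_mul_sg, inv_mul_cancel]
    have e : (single (1 : A) (1 : k) : MonoidAlgebra k A) * wi i = wi i := one_mul _
    rw [e, (h i).vu]
  have e1 : (single (1 : A) (1 : k) : MonoidAlgebra k A) = 1 := rfl
  refine ⟨fun z hz => ?_, fun z hz => ?_, ?_, ?_, ?_, ?_, ?_, ?_⟩
  · rw [coeff_single_mul_apply, one_mul, inv_inv] at hz
    have h1 := lp_supp (fun i => (hGs i).mono (hP.le i)) _ hz
    have h2 := (Subgroup.mem_normalizer_iff.1 (inv_mem hgV) _).1 h1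
    have e : g⁻¹ * (g * z) * g⁻¹⁻¹ = z * g⁻¹⁻¹ := by group
    rwa [e] at h2
  · rw [coeff_mul_single_apply, mul_one] at hz
    exact lp_supp (fun i => (hHs i).mono (hP.le i)) _ hz
  · rw [← hP.sup]
    refine inv_iSup fun i => inv_of_comm fun u hu => ?_
    rw [← mul_assoc, sg_mul_sg]
    have e : u * g⁻¹ = g⁻¹ * (g * u * g⁻¹) := by group
    rw [e, ← sg_mul_sg, mul_assoc, hP.swapG hg h hu, mul_assoc]
  · rw [← hP.sup]
    refine inv_iSup fun i => inv_of_comm fun u hu => ?_
    rw [← mul_assoc, hP.swapH hg h hu, mul_assoc _ (single (g * u * g⁻¹) (1 : k)),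
      mul_assoc _ (single g (1 : k)), sg_mul_sg, sg_mul_sg]
    have e : g * u * g⁻¹ * g = g * u := by group
    rw [e]
  · rw [mul_assoc]
    congr 1
    nth_rw 1 [hP.eq]
    rw [lp_mul_lp (hP.fam_comm hGs hcs)]
    congr 1
    funext i
    rw [mul_assoc, (h i).uc]
  · rw [mul_assoc, hgcm, ← mul_assoc]
    congr 1
    nth_rw 1 [hP.eq]
    rw [lp_mul_lp (hP.fam_comm hHs hcs)]
    congr 1
    funext i
    rw [mul_assoc, hgcm', ← mul_assoc, (h i).vc]
  · calc single g⁻¹ 1 * lp (fun i => single g 1 * wi i) *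
          (lp (fun i => vi i * single g⁻¹ 1) * single g 1)
        = single g⁻¹ 1 * (lp (fun i => single g 1 * wi i) *
          lp (fun i => vi i * single g⁻¹ 1)) * single g 1 := by simp only [mul_assoc]
      _ = cj g⁻¹ c := by rw [hGH, cj, inv_inv]
      _ = c := hgc'
  · calc lp (fun i => vi i * single g⁻¹ 1) * single g 1 *
          (single g⁻¹ 1 * lp (fun i => single g 1 * wi i))
        = lp (fun i => vi i * single g⁻¹ 1) * (single g 1 * single g⁻¹ 1) *
          lp (fun i => single g 1 * wi i) := by simp only [mul_assoc]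
      _ = c := by rw [sg_mul_sg, mul_inv_cancel, e1, mul_one, hHG]

/-- every unit for `V` is the product of the units for the factors and a central element -/
theorem CP.eta [IsAlgClosed k] [Fintype A] (hV : UH V K c) (hgK : g ∈ K)
    {w v : MonoidAlgebra k A} (hw : UP V c g⁻¹ w v) :
    ∃ η ∈ fixAlg k V V, ∃ s : k, s ≠ 0 ∧ IsRes c η s ∧
      single g 1 * w = η * lp (fun i => single g 1 * wi i) := by
  have hu := hP.up hgV hg hcc h
  obtain ⟨w', hw'⟩ : ∃ w', w' = single g⁻¹ 1 * lp (fun i => single g 1 * wi i) := ⟨_, rfl⟩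
  obtain ⟨v', hv'⟩ : ∃ v', v' = lp (fun i => vi i * single g⁻¹ 1) * single g 1 := ⟨_, rfl⟩
  rw [← hw', ← hv'] at hu
  have hgi := K.inv_mem hgK
  have hz : ∀ {a b : MonoidAlgebra k A}, (∀ z, a.coeff z ≠ 0 → z * g⁻¹⁻¹ ∈ V) →
      (∀ z, b.coeff z ≠ 0 → z * g⁻¹ ∈ V) → InvBy V a → InvBy V b → a * b ∈ fixAlg k V V := by
    intro a b ha hb hai hbi
    refine mem_fixAlg.2 ⟨fun z hz => ?_, invMul hai hbi⟩
    have h1 := coset_mul (y := g) (hV.nm hgi) ha hb z hz
    rwa [inv_mul_cancel, inv_one, mul_one] at h1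
  have hwv' : w * v' ∈ fixAlg k V V := hz hw.su hu.sv hw.iu hu.iv
  have hwv : w' * v ∈ fixAlg k V V := hz hu.su hw.sv hu.iu hw.iv
  obtain ⟨s, hs⟩ := hV.exists_res hwv'
  have hprod : w * v' * (w' * v) = c := by
    calc w * v' * (w' * v) = w * (v' * w') * v := by simp only [mul_assoc]
      _ = c := by rw [hu.vu, hw.uc, hw.uv]
  have hcm : Commute (w * v') (w' * v) := commute_of (mem_fixAlg.1 hwv').1 (mem_fixAlg.1 hwv).2
  have hs0 : s ≠ 0 := by
    rintro rfl
    obtain ⟨m, hm⟩ := hs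
    have e : w * v' * c = w * v' := by rw [mul_assoc, hu.vc]
    rw [e, zero_smul, sub_zero] at hm
    apply hV.blk.ne_zero
    have h1 : c ^ (m + 1) = c := by
      clear hm
      induction m with
      | zero => rw [pow_one]
      | succ m ih => rw [pow_succ, ih, hV.cc]
    rw [← h1, ← hprod, hcm.mul_pow, hm, zero_mul]
  refine ⟨cj g (w * v'), ?_, s, hs0, res_cj hV hgK hs, ?_⟩
  · exact cj_mem_fixAlg hwv' (hV.nm hgK) (hV.nm hgK)
  · have h1 : w = w * v' * w' := by rw [mul_assoc, hu.vu, hw.uc]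
    have h2 : lp (fun i => single g 1 * wi i) = single g 1 * w' := by
      rw [hw', ← mul_assoc, sg_mul_sg, mul_inv_cancel]
      exact (one_mul _).symm
    rw [h2]
    nth_rw 1 [h1]
    rw [cj]
    calc single g 1 * (w * v' * w') = single g 1 * (w * v') * 1 * w' := by
          rw [mul_one]; simp only [mul_assoc]
      _ = single g 1 * (w * v') * (single g⁻¹ 1 * single g 1) * w' := by
          rw [sg_mul_sg, inv_mul_cancel]; rfl
      _ = _ := by simp only [mul_assoc]

end

end

end Pool.Agent.Lib.P0c8ca5.Un8
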