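import Mathlib
import Pool.Agent.Lib.P0c8ca5U.UnxC

/-!
# Module UnxD: the units on the level of a p-subgroup of product type

* `mem_cen_lp`: `g⁻¹ lp t` centralizes `⨆ i, P i` iff `g⁻¹ t_i` centralizes `P i` for all `i`.
* `CP.cS_lp`: `cS P (lp m) = lp (fun i => cS (P i) (m i))`.
* `CP.level`: `a g cS P w = cS P η * lp (a_i g cS (P i) w_i)` for `a = lp a_i`, `a g` in `N(P)`.
-/

set_option autoImplicit false

namespace Pool.Agent.Lib.P0c8ca5.Un8

open MonoidAlgebra Bq Ps Hh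

variable {p : ℕ} {k : Type*} [Field k] {A : Type*} [Group A]

section

variable {V K : Subgroup A} {n : ℕ} {W P : Fin n → Subgroup A} {c : MonoidAlgebra k A}
  {cc : Fin n → MonoidAlgebra k A} {g : A} {wi vi : Fin n → MonoidAlgebra k A}

theorem mem_cen_iSup {ι : Sort*} {P : ι → Subgroup A} {x : A} :
    x ∈ Subgroup.centralizer ((⨆ i, P i : Subgroup A) : Set A) ↔
      ∀ i, x ∈ Subgroup.centralizer (P i : Set A) := by
  constructor
  · intro h i
    exact Subgroup.centralizer_le (le_iSup P i) h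
  · intro h
    have h1 : (⨆ i, P i) ≤ Subgroup.centralizer ({x} : Set A) := by
      refine iSup_le fun i u hu => ?_
      rw [Subgroup.mem_centralizer_iff]
      rintro y hy
      rw [Set.mem_singleton_iff] at hy
      rw [hy]
      exact (Subgroup.mem_centralizer_iff.1 (h i) u hu).symm
    rw [Subgroup.mem_centralizer_iff]
    intro u hu
    exact (Subgroup.mem_centralizer_iff.1 (h1 hu) x rfl).symm

theorem mem_cen_lp (hcomm : ∀ i j, i ≠ j → ∀ x ∈ W i, ∀ y ∈ W j, x * y = y * x)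
    (hPW : ∀ i, P i ≤ W i) {t : Fin n → A} (ht : ∀ i, t i ∈ W i) (g : A) :
    g⁻¹ * lp t ∈ Subgroup.centralizer ((⨆ i, P i : Subgroup A) : Set A) ↔
      ∀ i, g⁻¹ * t i ∈ Subgroup.centralizer (P i : Set A) := by
  rw [mem_cen_iSup]
  refine forall_congr' fun i => ?_
  rw [Subgroup.mem_centralizer_iff, Subgroup.mem_centralizer_iff]
  refine forall₂_congr fun u hu => ?_
  have hu' := hPW i hu
  have hb : t i * u * (t i)⁻¹ ∈ W i := (W i).mul_mem ((W i).mul_mem (ht i) hu') ((W i).inv_mem (ht i))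
  have h1 : t i * u * (t i)⁻¹ * lp t = lp t * u :=
    swap_lp i (by group) (fun j hj => hcomm i j hj.symm _ hb _ (ht j))
      (fun j hj => hcomm i j hj.symm _ hu' _ (ht j))
  constructor
  · intro h2
    have h3 : g * u * g⁻¹ * lp t = t i * u * (t i)⁻¹ * lp t := by
      rw [h1]
      calc g * u * g⁻¹ * lp t = g * (u * (g⁻¹ * lp t)) := by group
        _ = g * (g⁻¹ * lp t * u) := by rw [h2]
        _ = lp t * u := by group
    have h4 := mul_right_cancel h3
    calc u * (g⁻¹ * t i) = g⁻¹ * (g * u * g⁻¹) * t i := by group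
      _ = g⁻¹ * (t i * u * (t i)⁻¹) * t i := by rw [h4]
      _ = g⁻¹ * t i * u := by group
  · intro h2
    have h3 : g * u * g⁻¹ = t i * u * (t i)⁻¹ := by
      calc g * u * g⁻¹ = g * (u * (g⁻¹ * t i)) * (t i)⁻¹ := by group
        _ = g * (g⁻¹ * t i * u) * (t i)⁻¹ := by rw [h2]
        _ = t i * u * (t i)⁻¹ := by group
    calc u * (g⁻¹ * lp t) = g⁻¹ * (g * u * g⁻¹ * lp t) := by group
      _ = g⁻¹ * (t i * u * (t i)⁻¹ * lp t) := by rw [h3]
      _ = g⁻¹ * lp t * u := by rw [h1]; group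

theorem one_sg (a : MonoidAlgebra k A) : (single (1 : A) (1 : k) : MonoidAlgebra k A) * a = a :=
  one_mul a

theorem sg_sg_inv (g : A) (a : MonoidAlgebra k A) :
    single g 1 * (single g⁻¹ 1 * a) = a := by
  rw [← mul_assoc, sg_mul_sg, mul_inv_cancel, one_sg]

theorem sg_inv_sg (g : A) (a : MonoidAlgebra k A) :
    single g⁻¹ 1 * (single g 1 * a) = a := by
  rw [← mul_assoc, sg_mul_sg, inv_mul_cancel, one_sg]

theorem cj_sg' (x : A) (a : MonoidAlgebra k A) : cj x a * single x 1 = single x 1 * a := by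
  rw [cj, mul_assoc, sg_mul_sg, inv_mul_cancel]
  exact mul_one _

theorem g_cS_lp [Fintype A] (hcomm : ∀ i j, i ≠ j → ∀ x ∈ W i, ∀ y ∈ W j, x * y = y * x)
    (hPW : ∀ i, P i ≤ W i) {m : Fin n → MonoidAlgebra k A} (hm : ∀ i, SuppIn (W i) (m i))
    (g : A) :
    single g 1 * cS (⨆ i, P i) (single g⁻¹ 1 * lp m) =
      lp (fun i => single g 1 * cS (P i) (single g⁻¹ 1 * m i)) := by
  have h1 : single g 1 * cS (⨆ i, P i) (single g⁻¹ 1 * lp m) =
      resS {z | g⁻¹ * z ∈ (Subgroup.centralizer ((⨆ i, P i : Subgroup A) : Set A) : Set A)}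
        (lp m) := by
    have h2 := single_resS g (Subgroup.centralizer ((⨆ i, P i : Subgroup A) : Set A) : Set A)
      (single g⁻¹ (1 : k) * lp m)
    rw [sg_sg_inv] at h2
    exact h2
  have h3 : ∀ i, single g 1 * cS (P i) (single g⁻¹ 1 * m i) =
      resS {z | g⁻¹ * z ∈ (Subgroup.centralizer (P i : Set A) : Set A)} (m i) := by
    intro i
    have h2 := single_resS g (Subgroup.centralizer (P i : Set A) : Set A)
      (single g⁻¹ (1 : k) * m i)
    rw [sg_sg_inv] at h2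
    exact h2
  rw [h1, resS_lp (S' := fun i => {z | g⁻¹ * z ∈ (Subgroup.centralizer (P i : Set A) : Set A)})
    (fun t ht => mem_cen_lp hcomm hPW ht g) hm]
  congr 1
  funext i
  rw [h3]

theorem cS_lp [Fintype A] (hcomm : ∀ i j, i ≠ j → ∀ x ∈ W i, ∀ y ∈ W j, x * y = y * x)
    (hPW : ∀ i, P i ≤ W i) {m : Fin n → MonoidAlgebra k A} (hm : ∀ i, SuppIn (W i) (m i)) :
    cS (⨆ i, P i) (lp m) = lp (fun i => cS (P i) (m i)) := by
  have h1 := g_cS_lp hcomm hPW hm 1
  rw [inv_one, one_sg, one_sg] at h1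
  rw [h1]
  congr 1
  funext i
  rw [one_sg, one_sg]

theorem supp_cS' {S Q : Subgroup A} {g : A} {a : MonoidAlgebra k A}
    (h : SuppIn S (single g 1 * a)) : SuppIn S (single g 1 * cS Q a) := by
  intro z hz
  apply h z
  rw [coeff_single_mul_apply, one_mul] at hz ⊢
  by_cases h1 : g⁻¹ * z ∈ (Subgroup.centralizer (Q : Set A) : Set A)
  · change (resS _ a).coeff _ ≠ 0 at hz
    rwa [coeff_resS_of_mem _ h1] at hz
  · exact absurd (coeff_resS_of_notMem _ h1) hz

/-- the level of a p-subgroup of product type -/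
theorem CP.level [Fact p.Prime] [CharP k p] [Fintype A] (hP : CP V W c cc)
    (hgV : g ∈ Subgroup.normalizer (V : Set A))
    (hg : ∀ i, g ∈ Subgroup.normalizer (W i : Set A)) (hcc : ∀ i, cj g (cc i) = cc i)
    (h : ∀ i, UP (W i) (cc i) g⁻¹ (wi i) (vi i)) {w η : MonoidAlgebra k A}
    (hη : η ∈ fixAlg k V V) (hw : single g 1 * w = η * lp (fun i => single g 1 * wi i))
    (hPW : ∀ i, P i ≤ W i) (hp : IsPGroup p ↥(⨆ i, P i)) {a : Fin n → A} (ha : ∀ i, a i ∈ W i)
    (hn : lp a * g ∈ Subgroup.normalizer ((⨆ i, P i : Subgroup A) : Set A)) :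
    single (lp a * g) 1 * cS (⨆ i, P i) w =
      cS (⨆ i, P i) η * lp (fun i => single (a i * g) 1 * cS (P i) (wi i)) := by
  obtain ⟨Q, hQ⟩ : ∃ Q, Q = ⨆ i, P i := ⟨_, rfl⟩
  have hQV : Q ≤ V := by
    rw [hQ, ← hP.sup]
    exact iSup_mono hPW
  have hu := hP.up hgV hg hcc h
  obtain ⟨w', hw'⟩ : ∃ w', w' = single g⁻¹ 1 * lp (fun i => single g 1 * wi i) := ⟨_, rfl⟩
  have hw'i : InvBy V w' := by rw [hw']; exact hu.iu
  have haV : lp a ∈ V := lp_mem fun i => hP.le i (ha i)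
  have hηg : cj g⁻¹ η ∈ fixAlg k V V := cj_mem_fixAlg hη (inv_mem hgV) (inv_mem hgV)
  have h1 : w = cj g⁻¹ η * w' := by
    calc w = single g⁻¹ 1 * (single g 1 * w) := (sg_inv_sg g w).symm
      _ = single g⁻¹ 1 * η * lp (fun i => single g 1 * wi i) := by rw [hw]; simp only [mul_assoc]
      _ = cj g⁻¹ η * w' := by
        rw [hw', cj, inv_inv, mul_assoc (single g⁻¹ (1 : k) * η), sg_sg_inv]
  have h2 : cS Q w = cS Q (cj g⁻¹ η) * cS Q w' := by
    rw [h1]
    exact resS_mul (by rw [hQ]; exact hp) ((mem_fixAlg.1 hηg).2.mono hQV) (hw'i.mono hQV)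
  have h3 : cj (lp a * g) (cS Q (cj g⁻¹ η)) = cS Q η := by
    have h4 := br_cj (P := Q) (x := lp a * g) (by rw [hQ]; exact hn) (cj g⁻¹ η)
    have e : cj (lp a * g) (cj g⁻¹ η) = η := by
      rw [cj_cj, mul_inv_cancel_right]
      exact invBy_iff_cj.1 (mem_fixAlg.1 hη).2 _ haV
    rw [e] at h4
    exact h4.symm
  have h5 : single (lp a * g) 1 * cS Q (cj g⁻¹ η) = cS Q η * single (lp a * g) 1 := by
    rw [← h3, cj_sg']
  have h6 : single g 1 * cS Q w' = lp (fun i => single g 1 * cS (P i) (wi i)) := by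
    rw [hw', hQ, g_cS_lp hP.comm hPW (fun i => G_supp (hg i) (h i)) g]
    congr 1
    funext i
    rw [sg_inv_sg]
  rw [← hQ, h2, ← mul_assoc, h5, mul_assoc]
  congr 1
  rw [← sg_mul_sg, mul_assoc, h6, single_lp, lp_mul_lp (hP.fam_comm
    (fun i => supp_single (ha i)) (fun i => supp_cS' (G_supp (hg i) (h i))))]
  congr 1
  funext i
  rw [← mul_assoc, sg_mul_sg]

end

end Pool.Agent.Lib.P0c8ca5.Un8
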