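import Mathlib
import Pool.Agent.Lib.P0c8ca5U.UnxD

/-!
# Module UnxE: the unit of the first factor for a cyclic permutation of the factors

`dpr u n = u (n - 1) * ⋯ * u 1 * u 0`, `apr u n = u 0 * u 1 * ⋯ * u (n - 1)`.

* `UP.cj_gen`: conjugation of units.
* `UP.shift`: from units `w i` over `[y, x]⁻¹` for `x⁻ⁱ W xⁱ` the unit `dpr (cj xⁱ (w i)) n` over `[y, xⁿ]⁻¹` for `W`.
* `apr_tele`: the product of the `cj (X i) (e_i u_i)`, `X i = x_0 ⋯ x_{i-1}`, `e_i = y_i x_i y_{i+1}⁻¹ x_i⁻¹`, is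
  `y_0 X_n y_n⁻¹ X_n⁻¹ dpr (cj (X i) (u i)) n`.
* `shift_level`: this product for `u i = cS (P i) (w i)`.
-/

set_option autoImplicit false

namespace Pool.Agent.Lib.P0c8ca5.Un8

open MonoidAlgebra Bq Ps Hh

variable {p : ℕ} {k : Type*} [Field k] {A : Type*} [Group A]

section monoid

variable {M : Type*} [Monoid M]

/-- `u (n - 1) * ⋯ * u 1 * u 0` -/
def dpr (u : ℕ → M) : ℕ → M
  | 0 => 1
  | n + 1 => u n * dpr u n

/-- `u 0 * u 1 * ⋯ * u (n - 1)` -/
def apr (u : ℕ → M) : ℕ → M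
  | 0 => 1
  | n + 1 => apr u n * u n

theorem dpr_zero (u : ℕ → M) : dpr u 0 = 1 := rfl
theorem dpr_succ (u : ℕ → M) (n : ℕ) : dpr u (n + 1) = u n * dpr u n := rfl
theorem apr_zero (u : ℕ → M) : apr u 0 = 1 := rfl
theorem apr_succ (u : ℕ → M) (n : ℕ) : apr u (n + 1) = apr u n * u n := rfl

theorem apr_eq_lp (u : ℕ → M) (n : ℕ) : apr u n = lp (fun i : Fin n => u i) := by
  induction n with
  | zero => rw [apr_zero, lp_zero]
  | succ n ih => rw [apr_succ, ih, lp_succ']; rfl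

theorem apr_succ' (u : ℕ → M) (n : ℕ) : apr u (n + 1) = u 0 * apr (fun i => u (i + 1)) n := by
  induction n with
  | zero => rw [apr_succ, apr_zero, apr_zero, one_mul, mul_one]
  | succ n ih => rw [apr_succ, ih, apr_succ, mul_assoc]

theorem dpr_comm {b : M} {u : ℕ → M} {n : ℕ} (h : ∀ i < n, b * u i = u i * b) :
    b * dpr u n = dpr u n * b := by
  induction n with
  | zero => rw [dpr_zero, mul_one, one_mul]
  | succ n ih =>
    rw [dpr_succ, ← mul_assoc, h n (Nat.lt_succ_self n), mul_assoc,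
      ih (fun i hi => h i (hi.trans (Nat.lt_succ_self n))), mul_assoc]

theorem dpr_congr {u v : ℕ → M} {n : ℕ} (h : ∀ i < n, u i = v i) : dpr u n = dpr v n := by
  induction n with
  | zero => rfl
  | succ n ih =>
    rw [dpr_succ, dpr_succ, h n (Nat.lt_succ_self n),
      ih fun i hi => h i (hi.trans (Nat.lt_succ_self n))]

end monoid

theorem dpr_conj (x y : A) (n : ℕ) :
    dpr (fun i => x ^ i * (y * x * y⁻¹ * x⁻¹)⁻¹ * (x ^ i)⁻¹) n = (y * x ^ n * y⁻¹ * (x ^ n)⁻¹)⁻¹ := by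
  induction n with
  | zero => rw [dpr_zero]; simp
  | succ n ih =>
    rw [dpr_succ, ih]
    simp only [pow_succ]
    group

/-- conjugation of units -/
theorem UP.cj_gen {N : Subgroup A} {c : MonoidAlgebra k A} {g x : A} {u v : MonoidAlgebra k A}
    (h : UP N c x u v) : UP (cg g N) (P0c8ca5.cj g c) (g * x * g⁻¹) (P0c8ca5.cj g u)
      (P0c8ca5.cj g v) := by
  have hinv : ∀ {a : MonoidAlgebra k A}, InvBy N a → InvBy (cg g N) (P0c8ca5.cj g a) := by
    intro a ha z hz y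
    rw [coeff_cj, coeff_cj]
    rw [mem_cg] at hz
    have h1 := ha _ hz (g⁻¹ * y * g)
    have e : g⁻¹ * z * g * (g⁻¹ * y * g) * (g⁻¹ * z * g)⁻¹ = g⁻¹ * (z * y * z⁻¹) * g := by group
    rwa [e] at h1
  refine ⟨fun z hz => ?_, fun z hz => ?_, hinv h.iu, hinv h.iv, ?_, ?_, ?_, ?_⟩
  · rw [coeff_cj] at hz
    rw [mem_cg]
    have h1 := h.su _ hz
    have e : g⁻¹ * (z * (g * x * g⁻¹)⁻¹) * g = g⁻¹ * z * g * x⁻¹ := by group
    rwa [e]
  · rw [coeff_cj] at hz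
    rw [mem_cg]
    have h1 := h.sv _ hz
    have e : g⁻¹ * (z * (g * x * g⁻¹)) * g = g⁻¹ * z * g * x := by group
    rwa [e]
  · rw [← cj_mul, h.uc]
  · rw [← cj_mul, h.vc]
  · rw [← cj_mul, h.uv]
  · rw [← cj_mul, h.vu]

/-- products of units -/
theorem UP.dpr {W K : Subgroup A} {c : MonoidAlgebra k A} (h : UH W K c) {z : ℕ → A}
    {ω ν : ℕ → MonoidAlgebra k A} {n : ℕ} (hz : ∀ i < n + 1, z i ∈ K)
    (hu : ∀ i < n + 1, UP W c (z i) (ω i) (ν i)) :
    UP W c (Un8.dpr z (n + 1)) (Un8.dpr ω (n + 1)) (apr ν (n + 1)) := by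
  have hK : ∀ m ≤ n + 1, Un8.dpr z m ∈ K := by
    intro m hm
    induction m with
    | zero => exact K.one_mem
    | succ m ih => exact K.mul_mem (hz m hm) (ih (by omega))
  induction n with
  | zero =>
    have e1 : Un8.dpr z (0 + 1) = z 0 := by rw [dpr_succ, dpr_zero, mul_one]
    have e2 : Un8.dpr ω (0 + 1) = ω 0 := by rw [dpr_succ, dpr_zero, mul_one]
    have e3 : apr ν (0 + 1) = ν 0 := by rw [apr_succ, apr_zero, one_mul]
    rw [e1, e2, e3]
    exact hu 0 (Nat.lt_succ_self 0)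
  | succ n ih =>
    rw [dpr_succ, dpr_succ ω, apr_succ]
    exact UP.mul h (hz _ (Nat.lt_succ_self _)) (hK _ (by omega)) (hu _ (Nat.lt_succ_self _))
      (ih (fun i hi => hz i (by omega)) (fun i hi => hu i (by omega)) (fun m hm => hK m (by omega)))

/-- from units over `[y, x]⁻¹` for the `W i` to a unit over `[y, xⁿ]⁻¹` for `W 0` -/
theorem UP.shift {W : ℕ → Subgroup A} {K : Subgroup A} {cc w v : ℕ → MonoidAlgebra k A} {x y : A}
    (h : UH (W 0) K (cc 0)) (hW : ∀ i, cg x (W (i + 1)) = W i)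
    (hcc : ∀ i, P0c8ca5.cj x (cc (i + 1)) = cc i) {n : ℕ}
    (hK : ∀ i < n + 1, x ^ i * (y * x * y⁻¹ * x⁻¹)⁻¹ * (x ^ i)⁻¹ ∈ K)
    (hu : ∀ i < n + 1, UP (W i) (cc i) (y * x * y⁻¹ * x⁻¹)⁻¹ (w i) (v i)) :
    UP (W 0) (cc 0) (y * x ^ (n + 1) * y⁻¹ * (x ^ (n + 1))⁻¹)⁻¹
      (Un8.dpr (fun i => P0c8ca5.cj (x ^ i) (w i)) (n + 1))
      (apr (fun i => P0c8ca5.cj (x ^ i) (v i)) (n + 1)) := by
  have hW' : ∀ i, cg (x ^ i) (W i) = W 0 := by
    intro i
    induction i with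
    | zero => rw [pow_zero, cg_one]
    | succ i ih => rw [pow_succ, ← cg_cg, hW, ih]
  have hcc' : ∀ i, P0c8ca5.cj (x ^ i) (cc i) = cc 0 := by
    intro i
    induction i with
    | zero => rw [pow_zero, cj_one_left]
    | succ i ih => rw [pow_succ, ← cj_cj, hcc, ih]
  rw [← dpr_conj]
  refine UP.dpr h hK fun i hi => ?_
  have h1 := (hu i hi).cj_gen (g := x ^ i)
  rwa [hW', hcc'] at h1

/-- the telescoping product -/
theorem apr_tele {T : Subgroup A} {xs ys : ℕ → A} {u : ℕ → MonoidAlgebra k A} {n : ℕ}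
    (hT : ∀ i < n, SuppIn T (cj (apr xs i)
      (single (ys i * xs i * (ys (i + 1))⁻¹ * (xs i)⁻¹) 1 * u i)))
    (hu : ∀ i < n, InvBy T (cj (apr xs i) (u i))) [Finite A] :
    apr (fun i => cj (apr xs i) (single (ys i * xs i * (ys (i + 1))⁻¹ * (xs i)⁻¹) 1 * u i)) n =
      single (ys 0 * apr xs n * (ys n)⁻¹ * (apr xs n)⁻¹) 1 *
        dpr (fun i => cj (apr xs i) (u i)) n := by
  induction n with
  | zero =>
    rw [apr_zero, apr_zero, dpr_zero, mul_one, mul_one, inv_one, mul_one, mul_inv_cancel]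
    rfl
  | succ n ih =>
    rw [apr_succ, ih (fun i hi => hT i (by omega)) (fun i hi => hu i (by omega)), dpr_succ,
      mul_assoc]
    have h1 := dpr_comm (n := n) (u := fun i => cj (apr xs i) (u i))
      (b := cj (apr xs n) (single (ys n * xs n * (ys (n + 1))⁻¹ * (xs n)⁻¹) 1 * u n))
      (fun i hi => commute_of (hT n (Nat.lt_succ_self n)) (hu i (by omega)))
    rw [← h1, ← mul_assoc, ← mul_assoc]
    congr 1
    rw [cj_mul, ← mul_assoc]
    congr 1
    rw [cj, sg_mul_sg, sg_mul_sg, sg_mul_sg, apr_succ]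
    congr 1
    group

theorem apr_mem {W : ℕ → Subgroup A} {x : A} (hW : ∀ i, cg x (W (i + 1)) = W i) {xs : ℕ → A}
    (hxs : ∀ i, xs i * x⁻¹ ∈ W i) (n : ℕ) : apr xs n * (x ^ n)⁻¹ ∈ W 0 := by
  have hW' : ∀ i, cg (x ^ i) (W i) = W 0 := by
    intro i
    induction i with
    | zero => rw [pow_zero, cg_one]
    | succ i ih => rw [pow_succ, ← cg_cg, hW, ih]
  induction n with
  | zero => rw [apr_zero, pow_zero, inv_one, mul_one]; exact (W 0).one_mem
  | succ n ih =>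
    have h1 : x ^ n * (xs n * x⁻¹) * (x ^ n)⁻¹ ∈ W 0 := by
      rw [← hW' n, mem_cg]
      have e : (x ^ n)⁻¹ * (x ^ n * (xs n * x⁻¹) * (x ^ n)⁻¹) * x ^ n = xs n * x⁻¹ := by group
      rw [e]
      exact hxs n
    have h2 := (W 0).mul_mem ih h1
    have e : apr xs n * (x ^ n)⁻¹ * (x ^ n * (xs n * x⁻¹) * (x ^ n)⁻¹)
        = apr xs n * xs n * (x ^ n * x)⁻¹ := by group
    rw [e, ← pow_succ] at h2
    exact h2

theorem cj_cS (g : A) (Q : Subgroup A) (a : MonoidAlgebra k A) :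
    cS (cg g Q) (cj g a) = cj g (cS Q a) := by
  have key : ∀ z, z ∈ Subgroup.centralizer ((cg g Q : Subgroup A) : Set A) ↔
      g⁻¹ * z * g ∈ Subgroup.centralizer (Q : Set A) := by
    intro z
    rw [Subgroup.mem_centralizer_iff, Subgroup.mem_centralizer_iff]
    constructor
    · intro h u hu
      have h1 := h (g * u * g⁻¹) (by
        show g * u * g⁻¹ ∈ cg g Q
        rw [mem_cg]
        have e : g⁻¹ * (g * u * g⁻¹) * g = u := by group
        rw [e]; exact hu)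
      calc u * (g⁻¹ * z * g) = g⁻¹ * (g * u * g⁻¹ * z) * g := by group
        _ = g⁻¹ * (z * (g * u * g⁻¹)) * g := by rw [h1]
        _ = g⁻¹ * z * g * u := by group
    · intro h u hu
      have h1 := h (g⁻¹ * u * g) (mem_cg.1 hu)
      calc u * z = g * (g⁻¹ * u * g * (g⁻¹ * z * g)) * g⁻¹ := by group
        _ = g * (g⁻¹ * z * g * (g⁻¹ * u * g)) * g⁻¹ := by rw [h1]
        _ = z * u := by group
  ext z
  rw [coeff_cj]
  by_cases hz : z ∈ (Subgroup.centralizer ((cg g Q : Subgroup A) : Set A) : Set A)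
  · have h1 : g⁻¹ * z * g ∈ (Subgroup.centralizer (Q : Set A) : Set A) := (key z).1 hz
    rw [coeff_resS_of_mem _ hz, coeff_resS_of_mem _ h1, coeff_cj]
  · have h1 : g⁻¹ * z * g ∉ (Subgroup.centralizer (Q : Set A) : Set A) :=
      fun h => hz ((key z).2 h)
    rw [coeff_resS_of_notMem _ hz, coeff_resS_of_notMem _ h1]

theorem cS_dpr [Fact p.Prime] [CharP k p] [Finite A] {Q : Subgroup A} (hQ : IsPGroup p Q)
    {u : ℕ → MonoidAlgebra k A} {n : ℕ} (hu : ∀ i < n, InvBy Q (u i)) :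
    cS Q (dpr u n) = dpr (fun i => cS Q (u i)) n ∧ InvBy Q (dpr u n) := by
  induction n with
  | zero =>
    refine ⟨?_, ?_⟩
    · classical
      rw [dpr_zero, dpr_zero]
      have h1 := resS_single' (Subgroup.centralizer (Q : Set A) : Set A) (1 : A) (1 : k)
      rw [if_pos (show (1 : A) ∈ (Subgroup.centralizer (Q : Set A) : Set A) from one_mem _)] at h1
      exact h1
    · rw [dpr_zero]
      exact Yy.SuppBAux.invOne
  | succ n ih =>
    obtain ⟨h1, h2⟩ := ih fun i hi => hu i (by omega)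
    refine ⟨?_, ?_⟩
    · rw [dpr_succ, dpr_succ, ← h1]
      exact resS_mul hQ (hu n (Nat.lt_succ_self n)) h2
    · rw [dpr_succ]
      exact invMul (hu n (Nat.lt_succ_self n)) h2

theorem mem_W_of {W : ℕ → Subgroup A} {x : A} (hW : ∀ i, cg x (W (i + 1)) = W i) {i : ℕ} {u : A} :
    (u ∈ W (i + 1) → x * u * x⁻¹ ∈ W i) ∧ (u ∈ W i → x⁻¹ * u * x ∈ W (i + 1)) := by
  constructor
  · intro hu
    rw [← hW i, mem_cg]
    have e : x⁻¹ * (x * u * x⁻¹) * x = u := by group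
    rwa [e]
  · intro hu
    rw [← hW i, mem_cg] at hu
    exact hu

theorem mem_y_of {S : Subgroup A} {y : A} (hS : cg y S = S) {u : A} (hu : u ∈ S) :
    y * u * y⁻¹ ∈ S ∧ y⁻¹ * u * y ∈ S := by
  constructor
  · rw [← hS, mem_cg]
    have e : y⁻¹ * (y * u * y⁻¹) * y = u := by group
    rwa [e]
  · rw [← hS, mem_cg] at hu
    exact hu

theorem mem_norm_of_cg {S : Subgroup A} {y : A} (hS : cg y S = S) :
    y ∈ Subgroup.normalizer (S : Set A) := by
  rw [Subgroup.mem_normalizer_iff]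
  intro u
  constructor
  · exact fun hu => (mem_y_of hS hu).1
  · intro hu
    have h1 := (mem_y_of hS hu).2
    have e : y⁻¹ * (y * u * y⁻¹) * y = u := by group
    rwa [e] at h1

/-- the telescoping product on the level of the p-subgroups `P i` -/
theorem shift_level [Fact p.Prime] [CharP k p] [Finite A] {W P : ℕ → Subgroup A}
    {cc w v : ℕ → MonoidAlgebra k A} {x y : A} {n : ℕ}
    (hW : ∀ i, cg x (W (i + 1)) = W i) (hyW : ∀ i, cg y (W i) = W i)
    (hcc : ∀ i, cj x (cc (i + 1)) = cc i)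
    (hu : ∀ i < n, UP (W i) (cc i) (y * x * y⁻¹ * x⁻¹)⁻¹ (w i) (v i))
    {xs ys : ℕ → A} (hxs : ∀ i, xs i * x⁻¹ ∈ W i) (hys : ∀ i, ys i * y⁻¹ ∈ W i)
    (hP : P 0 ≤ W 0) (hpP : IsPGroup p (P 0)) (hxP : ∀ i, cg (xs i) (P (i + 1)) = P i)
    (hyP : ∀ i, cg (ys i) (P i) = P i) :
    apr (fun i => cj (apr xs i) (single (ys i * xs i * (ys (i + 1))⁻¹ * (xs i)⁻¹) 1 *
        cS (P i) (w i))) n =
      single (ys 0 * apr xs n * (ys n)⁻¹ * (apr xs n)⁻¹) 1 *
        cS (P 0) (dpr (fun i => cj (x ^ i) (w i)) n) := by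
  have hW' : ∀ i, cg (x ^ i) (W i) = W 0 := by
    intro i
    induction i with
    | zero => rw [pow_zero, cg_one]
    | succ i ih => rw [pow_succ, ← cg_cg, hW, ih]
  have hcc' : ∀ i, cj (x ^ i) (cc i) = cc 0 := by
    intro i
    induction i with
    | zero => rw [pow_zero, cj_one_left]
    | succ i ih => rw [pow_succ, ← cj_cj, hcc, ih]
  have hXP : ∀ i, cg (apr xs i) (P i) = P 0 := by
    intro i
    induction i with
    | zero => rw [apr_zero, cg_one]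
    | succ i ih => rw [apr_succ, ← cg_cg, hxP, ih]
  have hX : ∀ i, apr xs i * (x ^ i)⁻¹ ∈ W 0 := apr_mem hW hxs
  have hωi : ∀ i < n, InvBy (W 0) (cj (x ^ i) (w i)) := by
    intro i hi
    have h1 := ((hu i hi).cj_gen (g := x ^ i)).iu
    rwa [hW'] at h1
  have hω : ∀ i < n, cj (apr xs i) (w i) = cj (x ^ i) (w i) := by
    intro i hi
    have e : apr xs i = apr xs i * (x ^ i)⁻¹ * x ^ i := by group
    rw [e, ← cj_cj]
    exact invBy_iff_cj.1 (hωi i hi) _ (hX i)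
  have hcω : ∀ i < n, cj (apr xs i) (cS (P i) (w i)) = cS (P 0) (cj (x ^ i) (w i)) := by
    intro i hi
    rw [← cj_cS, hXP, hω i hi]
  have q : QT p (W 0) (P 0) (Subgroup.normalizer (P 0 : Set A)) :=
    ⟨hP, hpP, Subgroup.centralizer_le_normalizer _, le_rfl⟩
  have hgW : ∀ i, ∀ u ∈ W i, y * x * y⁻¹ * x⁻¹ * u * (y * x * y⁻¹ * x⁻¹)⁻¹ ∈ W i := by
    intro i u hu
    have h1 := (mem_W_of hW).2 hu
    have h2 := (mem_y_of (hyW _) h1).2
    have h3 := (mem_W_of hW).1 h2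
    have h4 := (mem_y_of (hyW _) h3).1
    have e : y * (x * (y⁻¹ * (x⁻¹ * u * x) * y) * x⁻¹) * y⁻¹ =
        y * x * y⁻¹ * x⁻¹ * u * (y * x * y⁻¹ * x⁻¹)⁻¹ := by group
    rwa [e] at h4
  have heW : ∀ i, ys i * xs i * (ys (i + 1))⁻¹ * (xs i)⁻¹ * (y * x * y⁻¹ * x⁻¹)⁻¹ ∈ W i := by
    intro i
    have h1 := hys i
    have h2 := (mem_y_of (hyW i) (hxs i)).1
    have h3 := (mem_y_of (hyW _) ((W (i + 1)).inv_mem (hys (i + 1)))).2
    have h4 := (mem_y_of (hyW _) ((mem_W_of hW).1 h3)).1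
    have h5 := hgW i _ ((W i).inv_mem (hxs i))
    have h6 := (W i).mul_mem ((W i).mul_mem ((W i).mul_mem h1 h2) h4) h5
    have e : ys i * y⁻¹ * (y * (xs i * x⁻¹) * y⁻¹) *
        (y * (x * (y⁻¹ * (ys (i + 1) * y⁻¹)⁻¹ * y) * x⁻¹) * y⁻¹) *
        (y * x * y⁻¹ * x⁻¹ * (xs i * x⁻¹)⁻¹ * (y * x * y⁻¹ * x⁻¹)⁻¹) =
        ys i * xs i * (ys (i + 1))⁻¹ * (xs i)⁻¹ * (y * x * y⁻¹ * x⁻¹)⁻¹ := by group
    rwa [e] at h6
  have heP : ∀ i, ys i * xs i * (ys (i + 1))⁻¹ * (xs i)⁻¹ ∈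
      Subgroup.normalizer (P i : Set A) := by
    intro i
    apply mem_norm_of_cg
    have h1 : cg (xs i)⁻¹ (P i) = P (i + 1) := by
      rw [← hxP i, cg_cg, inv_mul_cancel, cg_one]
    have h2 : cg (ys (i + 1))⁻¹ (P (i + 1)) = P (i + 1) := by
      nth_rw 1 [← hyP (i + 1)]
      rw [cg_cg, inv_mul_cancel, cg_one]
    rw [← cg_cg, h1, ← cg_cg, h2, ← cg_cg, hxP, hyP]
  rw [apr_tele (T := W 0 ⊓ Subgroup.normalizer (P 0 : Set A))]
  · congr 1
    rw [(cS_dpr hpP fun i hi => (hωi i hi).mono hP).1]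
    exact dpr_congr fun i hi => hcω i hi
  · intro i hi z hz
    rw [coeff_cj, coeff_single_mul_apply, one_mul] at hz
    obtain ⟨z', hz'⟩ : ∃ z', z' = (apr xs i)⁻¹ * z * apr xs i := ⟨_, rfl⟩
    rw [← hz'] at hz
    obtain ⟨e, he⟩ : ∃ e, e = ys i * xs i * (ys (i + 1))⁻¹ * (xs i)⁻¹ := ⟨_, rfl⟩
    rw [← he] at hz
    have hc : e⁻¹ * z' ∈ Subgroup.centralizer (P i : Set A) := by
      by_contra h1
      exact hz (coeff_resS_of_notMem _ h1)
    have hz2 : (w i).coeff (e⁻¹ * z') ≠ 0 := by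
      change (resS _ (w i)).coeff _ ≠ 0 at hz
      rwa [coeff_resS_of_mem _ hc] at hz
    have h3 := (hu i hi).su _ hz2
    rw [inv_inv] at h3
    have h4 : z' ∈ W i := by
      have h5 := (W i).mul_mem (heW i) (hgW i _ h3)
      rw [← he] at h5
      have e1 : e * (y * x * y⁻¹ * x⁻¹)⁻¹ * (y * x * y⁻¹ * x⁻¹ *
        (e⁻¹ * z' * (y * x * y⁻¹ * x⁻¹)) * (y * x * y⁻¹ * x⁻¹)⁻¹) = z' := by group
      rwa [e1] at h5
    have h5 : z' ∈ Subgroup.normalizer (P i : Set A) := by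
      have h6 : e ∈ Subgroup.normalizer (P i : Set A) := by rw [he]; exact heP i
      have h7 := mul_mem h6 (Subgroup.centralizer_le_normalizer _ hc)
      rwa [mul_inv_cancel_left] at h7
    refine Subgroup.mem_inf.2 ⟨?_, ?_⟩
    · have e2 : cg (apr xs i) (W i) = W 0 := by
        have e : apr xs i = apr xs i * (x ^ i)⁻¹ * x ^ i := by group
        rw [e, ← cg_cg, hW']
        apply le_antisymm
        · intro u hu
          rw [mem_cg] at hu
          have h6 := (W 0).mul_mem ((W 0).mul_mem (hX i) hu) ((W 0).inv_mem (hX i))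
          have e3 : apr xs i * (x ^ i)⁻¹ * ((apr xs i * (x ^ i)⁻¹)⁻¹ * u * (apr xs i * (x ^ i)⁻¹)) *
            (apr xs i * (x ^ i)⁻¹)⁻¹ = u := by group
          rwa [e3] at h6
        · intro u hu
          rw [mem_cg]
          exact (W 0).mul_mem ((W 0).mul_mem ((W 0).inv_mem (hX i)) hu) (hX i)
      rw [← e2, mem_cg, ← hz']
      exact h4
    · rw [Subgroup.mem_normalizer_iff]
      intro u
      rw [← hXP i, mem_cg, mem_cg, Subgroup.mem_normalizer_iff.1 h5, hz']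
      have e4 : (apr xs i)⁻¹ * z * apr xs i * ((apr xs i)⁻¹ * u * apr xs i) *
        ((apr xs i)⁻¹ * z * apr xs i)⁻¹ = (apr xs i)⁻¹ * (z * u * z⁻¹) * apr xs i := by group
      rw [e4]
  · intro i hi
    rw [hcω i hi]
    exact cS_inv q (hωi i hi)

end Pool.Agent.Lib.P0c8ca5.Un8
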