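import Mathlib
import Pool.Agent.Lib.P0c8ca5U.UntC
import Pool.Agent.Lib.P0c8ca5H.Defs

/-!
# Module UnxA: the units of a product of two commuting subgroups restrict to the factors

`UH.unt_factor`: `V = W R` with `[W, R] = 1`, `c * c' = c` for a block `c'` of `W`: an element of `h.unt` that normalizes `R` and is in `K'`
is in `h'.unt`.

PROOF.  `w v = c`, `w` in `(k V g)^V`.  `w` is the sum of elements `r w_r`, `r` in `R`, `w_r` in `(k W g)^W`; similarly `v`.  If `g` is not in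
`h'.unt`, then all `w_r v_s c'` are nilpotent elements of `Z(kW)`, so of `Z(kV)`.  An element `w₀ ≠ 0` of `c kA` that is killed by the nilpotent
elements of `Z(kV)` gives `w₀ = c w₀ = 0`.
-/

set_option autoImplicit false

namespace Pool.Agent.Lib.P0c8ca5.Un8

open MonoidAlgebra Bq Ps

variable {p : ℕ} {k : Type*} [Field k] {A : Type*} [Group A]

/-- an element of `k W g` and an element of `R` -/
theorem mul_sg_factor {W R : Subgroup A} (hc : ∀ w ∈ W, ∀ r ∈ R, w * r = r * w) {g s : A}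
    (hs : g * s * g⁻¹ ∈ R) {w : MonoidAlgebra k A} (hw : ∀ z, w.coeff z ≠ 0 → z * g⁻¹ ∈ W) :
    w * single s 1 = single (g * s * g⁻¹) 1 * w := by
  ext z
  rw [coeff_mul_single_apply, coeff_single_mul_apply, one_mul, mul_one]
  have key : z * s⁻¹ * g⁻¹ ∈ W ∨ (g * s * g⁻¹)⁻¹ * z * g⁻¹ ∈ W →
      z * s⁻¹ = (g * s * g⁻¹)⁻¹ * z := by
    rintro (h | h)
    · have h1 := hc _ h _ hs
      have e : z * s⁻¹ * g⁻¹ * (g * s * g⁻¹) = z * g⁻¹ := by group
      rw [e] at h1
      have h2 : z = g * s * g⁻¹ * (z * s⁻¹) := by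
        calc z = z * g⁻¹ * g := by group
          _ = g * s * g⁻¹ * (z * s⁻¹ * g⁻¹) * g := by rw [h1]
          _ = g * s * g⁻¹ * (z * s⁻¹) := by group
      calc z * s⁻¹ = (g * s * g⁻¹)⁻¹ * (g * s * g⁻¹ * (z * s⁻¹)) := by group
        _ = (g * s * g⁻¹)⁻¹ * z := by rw [← h2]
    · have h1 := hc _ h _ hs
      have e : g * s * g⁻¹ * ((g * s * g⁻¹)⁻¹ * z * g⁻¹) = z * g⁻¹ := by group
      rw [e] at h1
      have h2 : z = (g * s * g⁻¹)⁻¹ * z * s := by
        calc z = z * g⁻¹ * g := by group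
          _ = (g * s * g⁻¹)⁻¹ * z * g⁻¹ * (g * s * g⁻¹) * g := by rw [h1]
          _ = (g * s * g⁻¹)⁻¹ * z * s := by group
      calc z * s⁻¹ = (g * s * g⁻¹)⁻¹ * z * s * s⁻¹ := by rw [← h2]
        _ = (g * s * g⁻¹)⁻¹ * z := by group
  by_cases h1 : w.coeff (z * s⁻¹) = 0
  · by_cases h2 : w.coeff ((g * s * g⁻¹)⁻¹ * z) = 0
    · rw [h1, h2]
    · rw [key (Or.inr (hw _ h2))]
  · rw [key (Or.inl (hw _ h1))]

/-- the components of an element of `k V g`, `V = W R` -/
theorem comp_factor [Fintype A] {V W R : Subgroup A} (hV : V = W ⊔ R)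
    (hc : ∀ w ∈ W, ∀ r ∈ R, w * r = r * w) {g : A}
    (hg : g ∈ Subgroup.normalizer (W : Set A)) {w : MonoidAlgebra k A}
    (hw : ∀ z, w.coeff z ≠ 0 → z * g⁻¹ ∈ V) (hwi : InvBy V w)
    (q : Quotient (QuotientGroup.rightRel W)) :
    ∃ r ∈ R, ∃ w' : MonoidAlgebra k A, (∀ z, w'.coeff z ≠ 0 → z * g⁻¹ ∈ W) ∧ InvBy W w' ∧
      resS (cos W q.out) w = single r 1 * w' := by
  have hcom : ∀ r ∈ R, ∀ u ∈ W, r * u * r⁻¹ = u := by
    intro r hr u hu
    rw [← hc u hu r hr, mul_inv_cancel_right]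
  by_cases h0 : resS (cos W q.out) w = 0
  · exact ⟨1, R.one_mem, 0, fun z hz => absurd rfl hz, fun _ _ _ => rfl, by rw [h0, mul_zero]⟩
  · obtain ⟨z, hz⟩ : ∃ z, (resS (cos W q.out) w).coeff z ≠ 0 := by
      by_contra hcon
      push Not at hcon
      exact h0 (by ext z; rw [hcon z]; rfl)
    have hz1 : z * q.out⁻¹ ∈ W := supp_comp' hz
    have hz2 : w.coeff z ≠ 0 := by
      rw [coeff_resS_of_mem _ (show z ∈ cos W q.out from hz1)] at hz
      exact hz
    have hz3 := hw z hz2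
    rw [hV] at hz3
    obtain ⟨u, hu, r, hr, e⟩ := Jj.mem_sup_of_commute (fun y hy z hz => (hc y hy z hz).symm) _ hz3
    -- `q.out = u' r g`
    have e1 : q.out = (z * q.out⁻¹)⁻¹ * u * (r * g) := by
      have e2 : z = u * r * g := by rw [e]; group
      calc q.out = (z * q.out⁻¹)⁻¹ * z := by group
        _ = (z * q.out⁻¹)⁻¹ * (u * r * g) := by rw [← e2]
        _ = _ := by group
    have hrn : r ∈ Subgroup.normalizer (W : Set A) := by
      refine GqAux.nm_of (fun m hm => ?_) (fun m hm => ?_)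
      · rw [hcom r hr m hm]; exact hm
      · have h1 := hcom r⁻¹ (R.inv_mem hr) m hm
        rw [inv_inv] at h1
        rw [h1]; exact hm
    have hq : q.out ∈ Subgroup.normalizer (W : Set A) := by
      rw [e1]
      exact mul_mem (Subgroup.le_normalizer (W.mul_mem (W.inv_mem hz1) hu)) (mul_mem hrn hg)
    have hrW : InvBy W (single r 1 : MonoidAlgebra k A) := by
      rw [invBy_iff_commute]
      intro u hu
      show single u 1 * single r 1 = single r 1 * single u 1
      rw [single_mul_single, single_mul_single, hc u hu r hr]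
    have hrW' : InvBy W (single r⁻¹ 1 : MonoidAlgebra k A) := by
      rw [invBy_iff_commute]
      intro u hu
      show single u 1 * single r⁻¹ 1 = single r⁻¹ 1 * single u 1
      rw [single_mul_single, single_mul_single, hc u hu _ (R.inv_mem hr)]
    refine ⟨r, hr, single r⁻¹ 1 * resS (cos W q.out) w, fun y hy => ?_,
      invMul hrW' (inv_comp' hq (hwi.mono (by rw [hV]; exact le_sup_left))), ?_⟩
    · rw [coeff_single_mul_apply, one_mul, inv_inv] at hy
      have h1 : r * y * q.out⁻¹ ∈ W := supp_comp' hy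
      rw [e1] at h1
      have h2 : r * y * g⁻¹ * r⁻¹ ∈ W := by
        have e3 : r * y * ((z * q.out⁻¹)⁻¹ * u * (r * g))⁻¹ =
          r * y * g⁻¹ * r⁻¹ * ((z * q.out⁻¹)⁻¹ * u)⁻¹ := by group
        rw [e3] at h1
        exact (W.mul_mem_cancel_right (W.inv_mem (W.mul_mem (W.inv_mem hz1) hu))).1 h1
      have e4 : r * y * g⁻¹ * r⁻¹ = r * (y * g⁻¹) * r⁻¹ := by group
      rw [e4] at h2
      exact (Subgroup.mem_normalizer_iff.1 hrn _).2 h2
    · rw [← mul_assoc, single_mul_single, mul_inv_cancel, one_mul]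
      exact (one_mul _).symm

/-- the units restrict to the factors -/
theorem UH.unt_factor [Fintype A] {V W R K K' : Subgroup A} {c c' : MonoidAlgebra k A}
    (h : UH V K c) (h' : UH W K' c') (hV : V = W ⊔ R)
    (hc : ∀ w ∈ W, ∀ r ∈ R, w * r = r * w) (hcc : c * c' = c) {g : A} (hg : g ∈ h.unt)
    (hg' : g ∈ K') (hgR : g ∈ Subgroup.normalizer (R : Set A)) : g ∈ h'.unt := by
  classical
  by_contra hn
  obtain ⟨hgK, w, v, hwv⟩ := h.mem_unt.1 hg
  have hc1 : c ≠ 0 := h.blk.ne_zero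
  obtain ⟨w₀, hw₀L, hw₀0, hw₀z⟩ := Yy.SuppBAux.exists_w (N := V) (L := fun a => c * a = a)
    (fun z hz a ha => by
      show c * (z * a) = z * a
      rw [← mul_assoc, commute_of h.blk.suppIn (mem_fixAlg.1 hz).2, mul_assoc, ha])
    (w₀ := c) h.cc hc1
  apply hw₀0
  have h1 : w₀ = w * v * c' * w₀ := by rw [hwv.uv, hcc, hw₀L]
  rw [h1]
  have hgi : g⁻¹ ∈ Subgroup.normalizer (W : Set A) := inv_mem (h'.nm hg')
  choose rw₁ hr1 ww hw1 hw2 hw3 using fun q => comp_factor hV hc (h'.nm hg') hwv.su hwv.iu q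
  choose rv hs1 vv hv1 hv2 hv3 using fun q => comp_factor hV hc hgi
    (g := g⁻¹) (w := v) (fun z hz => by rw [inv_inv]; exact hwv.sv z hz) hwv.iv q
  rw [sum_comp' W w, sum_comp' W v, Finset.sum_mul, Finset.sum_mul, Finset.sum_mul]
  refine Finset.sum_eq_zero fun q _ => ?_
  rw [Finset.mul_sum, Finset.sum_mul, Finset.sum_mul]
  refine Finset.sum_eq_zero fun q' _ => ?_
  have hsR : g * rv q' * g⁻¹ ∈ R := (Subgroup.mem_normalizer_iff.1 hgR _).1 (hs1 q')
  have hnil : IsNilpotent (ww q * vv q' * c') := by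
    refine h'.nilp_of_not_mem hg' hn (hw1 q) (hw2 q) (fun z hz => ?_) (hv2 q')
    have h2 := hv1 q' z hz
    rwa [inv_inv] at h2
  have hfW : SuppIn W (ww q * vv q' * c') ∧ InvBy W (ww q * vv q' * c') := by
    refine ⟨?_, invMul (invMul (hw2 q) (hv2 q')) h'.blk.invBy⟩
    refine SuppIn.mul (fun z hz => ?_) h'.blk.suppIn
    have h2 := coset_mul (h'.nm hg') (hw1 q) (hv1 q') z hz
    rwa [mul_inv_cancel, inv_one, mul_one] at h2
  have hfV : ww q * vv q' * c' ∈ fixAlg k V V := by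
    refine mem_fixAlg.2 ⟨hfW.1.mono (by rw [hV]; exact le_sup_left), ?_⟩
    intro x hx z
    rw [hV] at hx
    obtain ⟨u, hu, r, hr, rfl⟩ := Jj.mem_sup_of_commute (fun y hy z hz => (hc y hy z hz).symm) _ hx
    have hrr : (ww q * vv q' * c').coeff (r * z * r⁻¹) = (ww q * vv q' * c').coeff z := by
      have key : r * z * r⁻¹ ∈ W ∨ z ∈ W → r * z * r⁻¹ = z := by
        rintro (h2 | h2)
        · have h3 := hc _ h2 r hr
          have h4 : r * z = r * (r * z * r⁻¹) := by
            rw [← h3]; group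
          exact (mul_left_cancel h4).symm
        · rw [← hc z h2 r hr, mul_inv_cancel_right]
      by_cases h2 : (ww q * vv q' * c').coeff (r * z * r⁻¹) = 0
      · by_cases h3 : (ww q * vv q' * c').coeff z = 0
        · rw [h2, h3]
        · rw [key (Or.inr (hfW.1 z h3))]
      · rw [key (Or.inl (hfW.1 _ h2))]
    have h2 := hfW.2 u hu (r * z * r⁻¹)
    have e : u * (r * z * r⁻¹) * u⁻¹ = u * r * z * (u * r)⁻¹ := by group
    rw [e] at h2
    rw [h2, hrr]
  have h2 := hw₀z _ hfV hnil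
  rw [hw3, hv3]
  have e : single (rw₁ q) (1 : k) * ww q * (single (rv q') 1 * vv q') * c' * w₀
      = single (rw₁ q) 1 * (ww q * single (rv q') 1) * (vv q' * c' * w₀) := by
    simp only [mul_assoc]
  rw [e, mul_sg_factor hc hsR (hw1 q)]
  have e2 : single (rw₁ q) (1 : k) * (single (g * rv q' * g⁻¹) 1 * ww q) * (vv q' * c' * w₀)
      = single (rw₁ q) 1 * single (g * rv q' * g⁻¹) 1 * (ww q * vv q' * c' * w₀) := by
    simp only [mul_assoc]
  rw [e2, h2, mul_zero]

end Pool.Agent.Lib.P0c8ca5.Un8
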